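import Pool.Agent.N248.RC.Fin

set_option autoImplicit false
set_option linter.unusedSectionVars false

/-!
# Random caps of the paraboloid: the equivalence
-/

namespace Pool.Agent.N248.RC

open MeasureTheory Set
open scoped ENNReal

variable {n : ℕ}

/-- the number of caps at density `R^(-σ)` -/
noncomputable def nc (n : ℕ) (σ : ℝ) (R : ℕ) : ℕ := ⌈(R : ℝ) ^ ((n : ℝ) - σ)⌉₊

theorem nc_facts (σ : ℝ) (hσ : 0 ≤ σ) (hσn : σ ≤ n) (R : ℕ) (hR : 1 ≤ R) :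
    1 ≤ nc n σ R ∧ nc n σ R ≤ (2 * R) ^ n ∧ (R : ℝ) ^ ((n : ℝ) - σ) ≤ nc n σ R ∧
      ((nc n σ R : ℕ) : ℝ) ≤ 2 * (R : ℝ) ^ ((n : ℝ) - σ) := by
  have hR1 : (1 : ℝ) ≤ R := by exact_mod_cast hR
  have h1 : 1 ≤ (R : ℝ) ^ ((n : ℝ) - σ) := Real.one_le_rpow hR1 (by linarith)
  have h2 : (R : ℝ) ^ ((n : ℝ) - σ) ≤ nc n σ R := Nat.le_ceil _
  refine ⟨?_, ?_, h2, ?_⟩
  · have : (1 : ℝ) ≤ (nc n σ R : ℕ) := h1.trans h2
    exact_mod_cast this
  · unfold nc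
    rw [Nat.ceil_le]
    push_cast
    calc (R : ℝ) ^ ((n : ℝ) - σ) ≤ (R : ℝ) ^ (n : ℝ) :=
          Real.rpow_le_rpow_of_exponent_le hR1 (by linarith)
      _ = (R : ℝ) ^ n := Real.rpow_natCast _ _
      _ ≤ (2 * (R : ℝ)) ^ n := pow_le_pow_left₀ (by linarith) (by linarith) n
  · have h3 : ((nc n σ R : ℕ) : ℝ) < (R : ℝ) ^ ((n : ℝ) - σ) + 1 :=
      Nat.ceil_lt_add_one (by linarith)
    linarith

/-- the trivial bound -/
theorem triv (hn : 1 ≤ n) : ∃ T : ℝ, 0 ≤ T ∧ ∀ R : ℕ, 1 ≤ R →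
    ∀ S : Set (EuclideanSpace ℝ (Fin n)),
    opN (mc n) (Pa n) S (2 * ((n : ℝ) + 1) / n) R ≤ ENNReal.ofReal (T * (R : ℝ) ^ ((n : ℝ) + 1)) := by
  set v : ℝ := volume.real (Metric.ball (0 : EuclideanSpace ℝ (Fin (n + 1))) 1) with hv
  have hv0 : 0 < v := ball_one_pos
  refine ⟨(v + 1) * (mc n).real Set.univ, by positivity, fun R hR S => ?_⟩
  have hR1 : (1 : ℝ) ≤ R := by exact_mod_cast hR
  have hR0 : (0 : ℝ) < R := by linarith
  have hp := pc_two hn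
  set p : ℝ := 2 * ((n : ℝ) + 1) / n with hpd
  have hp0 : 0 < p := by linarith
  refine (opN_lt_top (mc n) (Pa n) Pa_meas S p R hp).trans ?_
  have h1 : volume (Metric.ball (0 : EuclideanSpace ℝ (Fin (n + 1))) R) =
      ENNReal.ofReal ((R : ℝ) ^ (n + 1) * v) := by
    rw [← ball_real _ hR0, Measure.real, ENNReal.ofReal_toReal measure_ball_lt_top.ne]
  have h2 : ((R : ℝ) ^ (n + 1) * v) ^ (1 / p) ≤ (v + 1) * (R : ℝ) ^ ((n : ℝ) + 1) := by
    have h3 : 1 ≤ (R : ℝ) ^ (n + 1) := one_le_pow₀ hR1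
    have h4 : 1 ≤ (R : ℝ) ^ (n + 1) * (v + 1) := by nlinarith
    calc ((R : ℝ) ^ (n + 1) * v) ^ (1 / p) ≤ ((R : ℝ) ^ (n + 1) * (v + 1)) ^ (1 / p) :=
          Real.rpow_le_rpow (by positivity) (by nlinarith) (by positivity)
      _ ≤ ((R : ℝ) ^ (n + 1) * (v + 1)) ^ (1 : ℝ) :=
          Real.rpow_le_rpow_of_exponent_le h4 (by rw [div_le_one hp0]; linarith)
      _ = (v + 1) * (R : ℝ) ^ ((n : ℝ) + 1) := by
          rw [Real.rpow_one, mul_comm]
          congr 1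
          rw [← Real.rpow_natCast]
          congr 1
          push_cast
          ring
  rw [h1, ENNReal.ofReal_rpow_of_nonneg (by positivity) (by positivity),
    ← ENNReal.ofReal_mul (by positivity)]
  refine ENNReal.ofReal_le_ofReal ?_
  calc _ ≤ (v + 1) * (R : ℝ) ^ ((n : ℝ) + 1) * (mc n).real Set.univ :=
        mul_le_mul_of_nonneg_right h2 measureReal_nonneg
    _ = _ := by ring

/-- full norm to random caps -/
theorem fwd (hn : 1 ≤ n) (σ : ℝ) (hσ : 0 ≤ σ) (hσn : σ ≤ n)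
    (h : ∀ ε : ℝ, 0 < ε → ∃ C : ℝ, ∀ R : ℕ, 2 ≤ R →
      opN (mc n) (Pa n) Set.univ (2 * ((n : ℝ) + 1) / n) R ≤
        ENNReal.ofReal (C * (R : ℝ) ^ (σ / 2 + ε))) (ε : ℝ) (hε : 0 < ε) :
    ∃ C : ℝ, ∀ R : ℕ, 2 ≤ R →
      ∑ I ∈ Finset.powersetCard (nc n σ R) (Finset.univ : Finset (Fin n → Fin (2 * R))),
        opN (mc n) (Pa n) (un (cell R) I) (2 * ((n : ℝ) + 1) / n) R ≤
      ((((2 * R) ^ n).choose (nc n σ R) : ℕ) : ℝ≥0∞) *
        ENNReal.ofReal (C * (R : ℝ) ^ (ε - σ / 2)) := by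
  classical
  obtain ⟨C₀, hC₀⟩ := h (ε / 2) (by linarith)
  obtain ⟨T, hT0, hT⟩ := triv hn
  obtain ⟨C, hC0, hC⟩ := para_gen (n := n) (2 * n + 1) (2 * n) (by positivity) (by positivity)
  set p : ℝ := 2 * ((n : ℝ) + 1) / n with hpd
  have hp := pc_two hn
  rw [← hpd] at hp
  set C₁ : ℝ := max C₀ 0 with hC₁
  have hC₁0 : 0 ≤ C₁ := le_max_right _ _
  refine ⟨C * (4 / ε) ^ 2 * (2 * C₁ + 2) + T, fun R hR => ?_⟩
  have hR2 : (2 : ℝ) ≤ R := by exact_mod_cast hR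
  have hR0 : (0 : ℝ) < R := by linarith
  have hR1 : (1 : ℝ) ≤ R := by linarith
  have hn0 : (0 : ℝ) < n := by exact_mod_cast hn
  obtain ⟨hk1, hkN, hkl, hku⟩ := nc_facts (n := n) σ hσ hσn R (by omega)
  set k : ℕ := nc n σ R with hk
  have hcard : (Finset.univ : Finset (Fin n → Fin (2 * R))).card = (2 * R) ^ n := by
    rw [Finset.card_univ, Fintype.card_fun, Fintype.card_fin, Fintype.card_fin]
  have hcount := hC R hR2 ((R : ℝ) ^ (-(n : ℝ)))
    (Real.rpow_le_rpow_of_exponent_le (by linarith) (by linarith)) (Fin n → Fin (2 * R))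
    Finset.univ k (cell R) hk1 (by rw [hcard]; exact hkN) (by
      rw [hcard]
      push_cast
      have : (2 * R : ℝ) ^ n ≤ ((R : ℝ) ^ 2) ^ n := by
        refine pow_le_pow_left₀ (by positivity) ?_ n
        nlinarith
      refine this.trans (le_of_eq ?_)
      rw [← pow_mul, ← Real.rpow_natCast]
      congr 1
      push_cast
      ring)
    (fun i _ => cell_meas R i) (fun i _ j _ hij => cell_disj R i j hij)
    (fun i _ => (cell_mc R (by omega) i).le)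
  rw [hcard] at hcount
  set K : ℝ := (opN (mc n) (Pa n) Set.univ p R).toReal with hK
  have hKb : K ≤ C₁ * (R : ℝ) ^ (σ / 2 + ε / 2) := by
    have h1 := ENNReal.toReal_mono ENNReal.ofReal_ne_top (hC₀ R hR)
    refine h1.trans ?_
    refine ENNReal.toReal_le_of_le_ofReal (by positivity) (ENNReal.ofReal_le_ofReal ?_)
    exact mul_le_mul_of_nonneg_right (le_max_left _ _) (by positivity)
  have hWk := wk_of_opN (mc n) (Pa n) Pa_meas p R hp
  have hlog0 : 0 ≤ Real.log R := Real.log_nonneg hR1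
  have hlog : Real.log R ^ 2 ≤ (4 / ε) ^ 2 * (R : ℝ) ^ (ε / 2) := by
    have h1 := Real.log_le_rpow_div hR0.le (show 0 < ε / 4 by linarith)
    have h2 : Real.log R ≤ (4 / ε) * (R : ℝ) ^ (ε / 4) := by
      refine h1.trans (le_of_eq ?_)
      field_simp
    calc Real.log R ^ 2 ≤ ((4 / ε) * (R : ℝ) ^ (ε / 4)) ^ 2 := pow_le_pow_left₀ hlog0 h2 2
      _ = (4 / ε) ^ 2 * (R : ℝ) ^ (ε / 2) := by
          rw [mul_pow, ← Real.rpow_natCast ((R : ℝ) ^ (ε / 4)), ← Real.rpow_mul hR0.le]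
          congr 2
          push_cast
          ring
  -- the good sets
  have hgood : ∀ I : Finset (Fin n → Fin (2 * R)),
      GG C R ((R : ℝ) ^ (-(n : ℝ))) (((2 * R) ^ n : ℕ) : ℝ) k (un (cell R) I) →
      opN (mc n) (Pa n) (un (cell R) I) p R ≤
        ENNReal.ofReal (C * (4 / ε) ^ 2 * (2 * C₁ + 2) * (R : ℝ) ^ (ε - σ / 2)) := by
    intro I hI
    refine (hI p hp K ENNReal.toReal_nonneg hWk).trans (ENNReal.ofReal_le_ofReal ?_)
    rw [crit_exp hn R hR0]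
    have h1 : (k : ℝ) / (((2 * R) ^ n : ℕ) : ℝ) ≤ 2 * (R : ℝ) ^ (-σ) := by
      rw [div_le_iff₀ (by positivity)]
      push_cast
      have h2 : (R : ℝ) ^ n ≤ (2 * (R : ℝ)) ^ n :=
        pow_le_pow_left₀ (by linarith) (by linarith) n
      have h3 : (R : ℝ) ^ ((n : ℝ) - σ) = (R : ℝ) ^ (-σ) * (R : ℝ) ^ n := by
        rw [← Real.rpow_natCast (R : ℝ) n, ← Real.rpow_add hR0]
        congr 1
        ring
      rw [h3] at hku
      refine hku.trans ?_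
      rw [← mul_assoc]
      exact mul_le_mul_of_nonneg_left h2 (by positivity)
    have h4 : (k : ℝ) / (((2 * R) ^ n : ℕ) : ℝ) * K ≤ 2 * C₁ * (R : ℝ) ^ (ε / 2 - σ / 2) := by
      calc (k : ℝ) / (((2 * R) ^ n : ℕ) : ℝ) * K ≤
          (2 * (R : ℝ) ^ (-σ)) * (C₁ * (R : ℝ) ^ (σ / 2 + ε / 2)) :=
            mul_le_mul h1 hKb ENNReal.toReal_nonneg (by positivity)
        _ = 2 * C₁ * ((R : ℝ) ^ (-σ) * (R : ℝ) ^ (σ / 2 + ε / 2)) := by ring
        _ = _ := by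
            rw [← Real.rpow_add hR0]
            congr 2
            ring
    have h5 : Real.sqrt k * (R : ℝ) ^ (-((n : ℝ) / 2)) ≤ 2 * (R : ℝ) ^ (ε / 2 - σ / 2) := by
      have h6 : Real.sqrt k ≤ 2 * (R : ℝ) ^ (((n : ℝ) - σ) / 2) := by
        refine Real.sqrt_le_iff.2 ⟨by positivity, ?_⟩
        rw [mul_pow, ← Real.rpow_natCast ((R : ℝ) ^ (((n : ℝ) - σ) / 2)), ← Real.rpow_mul hR0.le]
        have e1 : ((n : ℝ) - σ) / 2 * ((2 : ℕ) : ℝ) = n - σ := by push_cast; ring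
        rw [e1]
        have : 0 ≤ (R : ℝ) ^ ((n : ℝ) - σ) := by positivity
        linarith
      calc Real.sqrt k * (R : ℝ) ^ (-((n : ℝ) / 2)) ≤
          2 * (R : ℝ) ^ (((n : ℝ) - σ) / 2) * (R : ℝ) ^ (-((n : ℝ) / 2)) :=
            mul_le_mul_of_nonneg_right h6 (by positivity)
        _ = 2 * (R : ℝ) ^ (-(σ / 2)) := by
            rw [mul_assoc, ← Real.rpow_add hR0]
            congr 2
            ring
        _ ≤ _ := by
            refine mul_le_mul_of_nonneg_left ?_ (by norm_num)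
            exact Real.rpow_le_rpow_of_exponent_le hR1 (by linarith)
    calc C * Real.log R ^ 2 * ((k : ℝ) / (((2 * R) ^ n : ℕ) : ℝ) * K +
          Real.sqrt k * (R : ℝ) ^ (-((n : ℝ) / 2)))
        ≤ C * ((4 / ε) ^ 2 * (R : ℝ) ^ (ε / 2)) * (2 * C₁ * (R : ℝ) ^ (ε / 2 - σ / 2) +
          2 * (R : ℝ) ^ (ε / 2 - σ / 2)) := by
          refine mul_le_mul (mul_le_mul_of_nonneg_left hlog hC0) (add_le_add h4 h5) ?_
            (by positivity)
          have : 0 ≤ K := ENNReal.toReal_nonneg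
          positivity
      _ = C * (4 / ε) ^ 2 * (2 * C₁ + 2) * ((R : ℝ) ^ (ε / 2) * (R : ℝ) ^ (ε / 2 - σ / 2)) := by
          ring
      _ = _ := by
          rw [← Real.rpow_add hR0]
          congr 2
          ring
  -- the sum
  set P := Finset.powersetCard k (Finset.univ : Finset (Fin n → Fin (2 * R))) with hP
  set Gd : Finset (Fin n → Fin (2 * R)) → Prop := fun I =>
    GG C R ((R : ℝ) ^ (-(n : ℝ))) (((2 * R) ^ n : ℕ) : ℝ) k (un (cell R) I) with hGd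
  set g : ℝ := C * (4 / ε) ^ 2 * (2 * C₁ + 2) * (R : ℝ) ^ (ε - σ / 2) with hg
  have hg0 : 0 ≤ g := by positivity
  have hPc : P.card = ((2 * R) ^ n).choose k := by
    rw [hP, Finset.card_powersetCard, hcard]
  have hsum : ∑ I ∈ P, opN (mc n) (Pa n) (un (cell R) I) p R ≤
      (P.card : ℝ≥0∞) * ENNReal.ofReal g +
        ((P.filter fun I => ¬ Gd I).card : ℝ≥0∞) *
          ENNReal.ofReal (T * (R : ℝ) ^ ((n : ℝ) + 1)) := by
    rw [← Finset.sum_filter_add_sum_filter_not P Gd]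
    refine add_le_add ?_ ?_
    · refine (Finset.sum_le_sum fun I hI => hgood I (Finset.mem_filter.1 hI).2).trans ?_
      rw [Finset.sum_const, nsmul_eq_mul]
      refine mul_le_mul' ?_ le_rfl
      exact_mod_cast Finset.card_le_card (Finset.filter_subset _ _)
    · refine (Finset.sum_le_sum fun I _ => hT R (by omega) (un (cell R) I)).trans ?_
      rw [Finset.sum_const, nsmul_eq_mul]
  refine hsum.trans ?_
  have hbad : ((P.filter fun I => ¬ Gd I).card : ℝ≥0∞) ≤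
      ENNReal.ofReal ((R : ℝ) ^ (-(2 * (n : ℝ) + 1)) * ((((2 * R) ^ n).choose k : ℕ) : ℝ)) := by
    rw [← ENNReal.ofReal_natCast]
    exact ENNReal.ofReal_le_ofReal hcount
  rw [hPc]
  have hT1 : (R : ℝ) ^ (-(2 * (n : ℝ) + 1)) * (T * (R : ℝ) ^ ((n : ℝ) + 1)) ≤
      T * (R : ℝ) ^ (ε - σ / 2) := by
    calc (R : ℝ) ^ (-(2 * (n : ℝ) + 1)) * (T * (R : ℝ) ^ ((n : ℝ) + 1)) =
        T * ((R : ℝ) ^ (-(2 * (n : ℝ) + 1)) * (R : ℝ) ^ ((n : ℝ) + 1)) := by ring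
      _ = T * (R : ℝ) ^ (-(n : ℝ)) := by
          rw [← Real.rpow_add hR0]
          congr 2
          ring
      _ ≤ _ := by
          refine mul_le_mul_of_nonneg_left ?_ hT0
          exact Real.rpow_le_rpow_of_exponent_le hR1 (by linarith)
  calc ((((2 * R) ^ n).choose k : ℕ) : ℝ≥0∞) * ENNReal.ofReal g +
        ((P.filter fun I => ¬ Gd I).card : ℝ≥0∞) * ENNReal.ofReal (T * (R : ℝ) ^ ((n : ℝ) + 1))
      ≤ ((((2 * R) ^ n).choose k : ℕ) : ℝ≥0∞) * ENNReal.ofReal g +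
        ENNReal.ofReal ((R : ℝ) ^ (-(2 * (n : ℝ) + 1)) * ((((2 * R) ^ n).choose k : ℕ) : ℝ)) *
          ENNReal.ofReal (T * (R : ℝ) ^ ((n : ℝ) + 1)) :=
        add_le_add le_rfl (mul_le_mul' hbad le_rfl)
    _ = ((((2 * R) ^ n).choose k : ℕ) : ℝ≥0∞) * (ENNReal.ofReal g +
        ENNReal.ofReal ((R : ℝ) ^ (-(2 * (n : ℝ) + 1)) * (T * (R : ℝ) ^ ((n : ℝ) + 1)))) := by
        have f1 : ENNReal.ofReal ((R : ℝ) ^ (-(2 * (n : ℝ) + 1)) *
            ((((2 * R) ^ n).choose k : ℕ) : ℝ)) = ENNReal.ofReal ((R : ℝ) ^ (-(2 * (n : ℝ) + 1))) *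
            ((((2 * R) ^ n).choose k : ℕ) : ℝ≥0∞) := by
          rw [ENNReal.ofReal_mul (by positivity), ENNReal.ofReal_natCast]
        have f2 : ENNReal.ofReal ((R : ℝ) ^ (-(2 * (n : ℝ) + 1)) *
            (T * (R : ℝ) ^ ((n : ℝ) + 1))) = ENNReal.ofReal ((R : ℝ) ^ (-(2 * (n : ℝ) + 1))) *
            ENNReal.ofReal (T * (R : ℝ) ^ ((n : ℝ) + 1)) :=
          ENNReal.ofReal_mul (by positivity)
        rw [mul_add, f1, f2]
        ring
    _ ≤ _ := by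
        refine mul_le_mul' le_rfl ?_
        rw [← ENNReal.ofReal_add hg0 (by positivity)]
        refine ENNReal.ofReal_le_ofReal ?_
        rw [add_mul, ← hg]
        linarith

/-- random caps to the full norm -/
theorem bwd (hn : 1 ≤ n) (σ : ℝ) (hσ : 0 ≤ σ) (hσn : σ ≤ n) (ε : ℝ) (C : ℝ)
    (h : ∀ R : ℕ, 2 ≤ R →
      ∑ I ∈ Finset.powersetCard (nc n σ R) (Finset.univ : Finset (Fin n → Fin (2 * R))),
        opN (mc n) (Pa n) (un (cell R) I) (2 * ((n : ℝ) + 1) / n) R ≤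
      ((((2 * R) ^ n).choose (nc n σ R) : ℕ) : ℝ≥0∞) *
        ENNReal.ofReal (C * (R : ℝ) ^ (ε - σ / 2))) :
    ∀ R : ℕ, 2 ≤ R → opN (mc n) (Pa n) Set.univ (2 * ((n : ℝ) + 1) / n) R ≤
        ENNReal.ofReal (2 ^ n * max C 0 * (R : ℝ) ^ (σ / 2 + ε)) := by
  intro R hR
  have hp := pc_two hn
  set p : ℝ := 2 * ((n : ℝ) + 1) / n with hpd
  have hR2 : (2 : ℝ) ≤ R := by exact_mod_cast hR
  have hR0 : (0 : ℝ) < R := by linarith
  obtain ⟨hk1, hkN, hkl, hku⟩ := nc_facts (n := n) σ hσ hσn R (by omega)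
  set k : ℕ := nc n σ R with hk
  have h1 := para_avg (n := n) R (by omega) k hk1 hkN p hp
  have h2 := h R hR
  set C₁ : ℝ := max C 0 with hC₁
  have hC₁0 : 0 ≤ C₁ := le_max_right _ _
  set M : ℕ := ((2 * R) ^ n).choose k with hM
  have hM0 : 0 < M := Nat.choose_pos hkN
  have hM1 : (0 : ℝ) < M := by exact_mod_cast hM0
  have hk0 : (0 : ℝ) < k := by exact_mod_cast hk1
  have ht := opN_ne_top (mc n) (Pa n) Pa_meas Set.univ p R hp
  set X : ℝ := C₁ * (R : ℝ) ^ (ε - σ / 2) with hX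
  have hX0 : 0 ≤ X := by positivity
  have h3 : (k : ℝ≥0∞) * (M : ℝ≥0∞) * opN (mc n) (Pa n) Set.univ p R ≤
      (((2 * R) ^ n : ℕ) : ℝ≥0∞) * ((M : ℝ≥0∞) * ENNReal.ofReal X) := by
    refine h1.trans (mul_le_mul' le_rfl (h2.trans (mul_le_mul' le_rfl ?_)))
    exact ENNReal.ofReal_le_ofReal (mul_le_mul_of_nonneg_right (le_max_left _ _) (by positivity))
  have h4 := ENNReal.toReal_mono (ENNReal.mul_ne_top (ENNReal.natCast_ne_top _)
    (ENNReal.mul_ne_top (ENNReal.natCast_ne_top _) ENNReal.ofReal_ne_top)) h3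
  rw [ENNReal.toReal_mul, ENNReal.toReal_mul, ENNReal.toReal_mul, ENNReal.toReal_mul,
    ENNReal.toReal_natCast, ENNReal.toReal_natCast, ENNReal.toReal_natCast,
    ENNReal.toReal_ofReal hX0] at h4
  set Q : ℝ := (opN (mc n) (Pa n) Set.univ p R).toReal with hQ
  have h5 : (k : ℝ) * Q ≤ (((2 * R) ^ n : ℕ) : ℝ) * X := by
    refine le_of_mul_le_mul_right ?_ hM1
    linarith
  have h6 : (((2 * R) ^ n : ℕ) : ℝ) ≤ 2 ^ n * (R : ℝ) ^ σ * k := by
    push_cast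
    have e1 : (R : ℝ) ^ σ * (R : ℝ) ^ ((n : ℝ) - σ) = (R : ℝ) ^ n := by
      rw [← Real.rpow_add hR0, ← Real.rpow_natCast]
      congr 1
      ring
    rw [mul_pow, ← e1, mul_assoc]
    refine mul_le_mul_of_nonneg_left ?_ (by positivity)
    exact mul_le_mul_of_nonneg_left hkl (by positivity)
  have h7 : Q ≤ 2 ^ n * (R : ℝ) ^ σ * X := by
    refine le_of_mul_le_mul_left ?_ hk0
    calc (k : ℝ) * Q ≤ (((2 * R) ^ n : ℕ) : ℝ) * X := h5
      _ ≤ (2 ^ n * (R : ℝ) ^ σ * k) * X := mul_le_mul_of_nonneg_right h6 hX0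
      _ = _ := by ring
  rw [← ENNReal.ofReal_toReal ht]
  refine ENNReal.ofReal_le_ofReal (h7.trans (le_of_eq ?_))
  rw [hX]
  calc 2 ^ n * (R : ℝ) ^ σ * (C₁ * (R : ℝ) ^ (ε - σ / 2)) =
      2 ^ n * C₁ * ((R : ℝ) ^ σ * (R : ℝ) ^ (ε - σ / 2)) := by ring
    _ = _ := by
        rw [← Real.rpow_add hR0]
        congr 2
        ring

end Pool.Agent.N248.RC
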