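import Pool.Agent.N248.RC.Low

set_option autoImplicit false
set_option linter.unusedSectionVars false

/-!
# The square root lower bound for the norms on unions of cells
-/

namespace Pool.Agent.N248.RC

open Finset MeasureTheory
open Pool.Agent.N248.RR (ex ex_norm phase_low)
open scoped RealInnerProductSpace ENNReal

variable {d : ℕ} {Y : Type*} [MeasurableSpace Y] (μ : Measure Y) [IsFiniteMeasure μ]
  (Φ : Y → EuclideanSpace ℝ (Fin d)) (hΦ : Measurable Φ)

theorem ball_real (r : ℝ) (hr : 0 < r) :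
    volume.real (Metric.ball (0 : EuclideanSpace ℝ (Fin d)) r) =
      r ^ d * volume.real (Metric.ball (0 : EuclideanSpace ℝ (Fin d)) 1) := by
  rw [Measure.real, Measure.addHaar_ball_of_pos _ _ hr, finrank_euclideanSpace, Fintype.card_fin,
    ENNReal.toReal_mul, ENNReal.toReal_ofReal (by positivity), Measure.real]

theorem ball_one_pos : 0 < volume.real (Metric.ball (0 : EuclideanSpace ℝ (Fin d)) 1) :=
  ENNReal.toReal_pos (Metric.measure_ball_pos volume 0 one_pos).ne' measure_ball_lt_top.ne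

include hΦ in
theorem cell_low (D R : ℝ) (hD : 1 ≤ D) (hR : 0 < R) (κ : ℝ) (hκ : 0 ≤ κ) (θ : Set Y)
    (hθ : MeasurableSet θ) (hθκ : κ ≤ μ.real θ)
    (hdiam : ∀ y ∈ θ, ∀ y' ∈ θ, ‖Φ y - Φ y'‖ ≤ D / R) :
    (κ / 2) ^ 2 * ((R / D) ^ d * volume.real (Metric.ball (0 : EuclideanSpace ℝ (Fin d)) 1)) ≤
      ∫ x in Metric.ball 0 R, ‖Eo μ (ker Φ) (θ.indicator fun _ => 1) x‖ ^ 2 := by
  have hRD : 0 < R / D := by positivity
  have hRDR : R / D ≤ R := div_le_self hR.le hD
  set g : Y → ℂ := θ.indicator fun _ => 1 with hg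
  have hgm : Measurable g := measurable_const.indicator hθ
  have hg1 : ∀ y, ‖g y‖ ≤ 1 := by
    intro y
    by_cases hy : y ∈ θ
    · rw [hg, Set.indicator_of_mem hy]; simp
    · rw [hg, Set.indicator_of_notMem hy]; simp
  have hm := Eo_meas μ (ker Φ) (ker_meas Φ hΦ) g hgm
  have hb : ∀ x, ‖Eo μ (ker Φ) g x‖ ≤ μ.real Set.univ :=
    Eo_bound μ (ker Φ) (ker_norm Φ) Set.univ MeasurableSet.univ g hg1
      (fun y hy => absurd (Set.mem_univ y) hy)
  have hsq : Integrable (fun x => ‖Eo μ (ker Φ) g x‖ ^ 2) (volume.restrict (Metric.ball 0 R)) := by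
    refine Integrable.mono' (integrable_const (μ.real Set.univ ^ 2 : ℝ))
      (hm.norm.pow_const 2).aestronglyMeasurable (Filter.Eventually.of_forall fun x => ?_)
    rw [Real.norm_of_nonneg (by positivity)]
    exact pow_le_pow_left₀ (norm_nonneg _) (hb x) 2
  have hlow : ∀ x ∈ Metric.ball (0 : EuclideanSpace ℝ (Fin d)) (R / D),
      κ / 2 ≤ ‖Eo μ (ker Φ) g x‖ := by
    intro x hx
    rcases θ.eq_empty_or_nonempty with h0 | ⟨y₀, hy₀⟩
    · have : κ ≤ 0 := by
        rw [h0, measureReal_empty] at hθκ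
        exact hθκ
      have h2 := norm_nonneg (Eo μ (ker Φ) g x)
      linarith
    · have e : Eo μ (ker Φ) g x = ∫ y in θ, ex ⟪Φ y, x⟫ ∂μ := by
        unfold Eo ker
        rw [← integral_indicator hθ]
        refine integral_congr_ae (Filter.Eventually.of_forall fun y => ?_)
        simp only
        by_cases hy : y ∈ θ
        · rw [hg, Set.indicator_of_mem hy, Set.indicator_of_mem hy, one_mul]
        · rw [hg, Set.indicator_of_notMem hy, Set.indicator_of_notMem hy, zero_mul]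
      rw [e]
      have h1 := phase_low (μ.restrict θ) (fun y => ⟪Φ y, x⟫) (hΦ.inner measurable_const)
        ⟪Φ y₀, x⟫ (by
          rw [ae_restrict_iff' hθ]
          refine Filter.Eventually.of_forall fun y hy => ?_
          rw [← inner_sub_left]
          refine (abs_real_inner_le_norm _ _).trans ?_
          rw [mem_ball_zero_iff] at hx
          calc ‖Φ y - Φ y₀‖ * ‖x‖ ≤ (D / R) * (R / D) :=
                mul_le_mul (hdiam y hy y₀ hy₀) hx.le (norm_nonneg _) (by positivity)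
            _ = 1 := by field_simp)
      rw [measureReal_restrict_apply MeasurableSet.univ, Set.univ_inter] at h1
      linarith
  calc (κ / 2) ^ 2 * ((R / D) ^ d * volume.real (Metric.ball (0 : EuclideanSpace ℝ (Fin d)) 1))
      = ∫ _ in Metric.ball (0 : EuclideanSpace ℝ (Fin d)) (R / D), (κ / 2) ^ 2 := by
        rw [setIntegral_const, smul_eq_mul, ball_real _ hRD]
        ring
    _ ≤ ∫ x in Metric.ball 0 (R / D), ‖Eo μ (ker Φ) g x‖ ^ 2 := by
        refine setIntegral_mono_on (integrableOn_const measure_ball_lt_top.ne)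
          (IntegrableOn.mono_set hsq (Metric.ball_subset_ball hRDR)) measurableSet_ball fun x hx => ?_
        exact pow_le_pow_left₀ (by positivity) (hlow x hx) 2
    _ ≤ _ := by
        refine setIntegral_mono_set hsq (Filter.Eventually.of_forall fun x => by positivity) ?_
        exact (Metric.ball_subset_ball hRDR).eventuallyLE

include hΦ in
/-- **Square root lower bound.** -/
theorem sqrt_low (D : ℝ) (hD : 1 ≤ D) : ∃ c : ℝ, 0 < c ∧ ∀ R : ℝ, 0 < R → ∀ (α : Type)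
    (I : Finset α) (θ : α → Set Y), (∀ i ∈ I, MeasurableSet (θ i)) →
    (I : Set α).PairwiseDisjoint θ → ∀ κ : ℝ, 0 ≤ κ → (∀ i ∈ I, κ ≤ μ.real (θ i)) →
    (∀ i ∈ I, ∀ y ∈ θ i, ∀ y' ∈ θ i, ‖Φ y - Φ y'‖ ≤ D / R) → ∀ p : ℝ, 2 ≤ p →
    ENNReal.ofReal (c * (Real.sqrt I.card * (κ * R ^ ((d : ℝ) / p)))) ≤
      opN μ Φ (un θ I) p R := by
  classical
  set v : ℝ := volume.real (Metric.ball (0 : EuclideanSpace ℝ (Fin d)) 1) with hv
  have hv0 : 0 < v := ball_one_pos
  have hD0 : 0 < D := by linarith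
  refine ⟨(D ^ d) ^ (-(1 / 2) : ℝ) / 2 * min 1 v, by positivity, ?_⟩
  intro R hR α I θ hθ hdisj κ hκ hθκ hdiam p hp
  have hp0 : 0 < p := by linarith
  set ν := (volume : Measure (EuclideanSpace ℝ (Fin d))).restrict (Metric.ball 0 R) with hν
  obtain ⟨f, hf, hfX⟩ := sign_low μ Φ hΦ I θ hθ hdisj ν
  set X : ℝ := ∫ x, ‖Eo μ (ker Φ) f x‖ ^ 2 ∂ν with hX
  have hX1 : (I.card : ℝ) * ((κ / 2) ^ 2 * ((R / D) ^ d * v)) ≤ X := by
    refine le_trans ?_ hfX
    rw [← nsmul_eq_mul, ← Finset.sum_const]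
    exact Finset.sum_le_sum fun i hi =>
      cell_low μ Φ hΦ D R hD hR κ hκ (θ i) (hθ i hi) (hθκ i hi) (hdiam i hi)
  set P : ℝ≥0∞ := opN μ Φ (un θ I) p R with hP
  have hPt : P ≠ ∞ := opN_ne_top μ Φ hΦ _ p R hp
  have hm := Eo_meas μ (ker Φ) (ker_meas Φ hΦ) f hf.1
  have h2p : ENNReal.ofReal 2 ≤ ENNReal.ofReal p := ENNReal.ofReal_le_ofReal hp
  have hh := eLpNorm_le_eLpNorm_mul_rpow_measure_univ (μ := ν) h2p hm.aestronglyMeasurable
  rw [Eo_eLp μ Φ hΦ 2 le_rfl R f hf.1 hf.2.1] at hh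
  have hνu : ν Set.univ = ENNReal.ofReal (R ^ d * v) := by
    rw [hν, Measure.restrict_apply_univ, ← ball_real R hR, Measure.real,
      ENNReal.ofReal_toReal measure_ball_lt_top.ne]
  have hRdv : 0 < R ^ d * v := by positivity
  have hexp : 0 ≤ 1 / (2 : ℝ) - 1 / p := by
    rw [sub_nonneg]
    exact one_div_le_one_div_of_le (by norm_num) hp
  have hle : eLpNorm (Eo μ (ker Φ) f) (ENNReal.ofReal p) ν ≤ P := le_opN μ Φ (un θ I) p R f hf
  have h1 : ENNReal.ofReal (X ^ (1 / 2 : ℝ)) ≤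
      P * ENNReal.ofReal ((R ^ d * v) ^ (1 / (2 : ℝ) - 1 / p)) := by
    have e1 : ∫ x in Metric.ball 0 R, ‖Eo μ (ker Φ) f x‖ ^ (2 : ℝ) = X := by
      rw [hX]
      refine integral_congr_ae (Filter.Eventually.of_forall fun x => ?_)
      simp only
      rw [Real.rpow_two]
    rw [e1, ENNReal.toReal_ofReal (by norm_num), ENNReal.toReal_ofReal hp0.le, hνu,
      ENNReal.ofReal_rpow_of_nonneg hRdv.le hexp] at hh
    exact hh.trans (mul_le_mul' hle le_rfl)
  have h2 : X ^ (1 / 2 : ℝ) ≤ P.toReal * (R ^ d * v) ^ (1 / (2 : ℝ) - 1 / p) := by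
    have h3 := ENNReal.toReal_mono (ENNReal.mul_ne_top hPt ENNReal.ofReal_ne_top) h1
    rw [ENNReal.toReal_mul, ENNReal.toReal_ofReal (by positivity),
      ENNReal.toReal_ofReal (by positivity)] at h3
    exact h3
  -- the lower bound of `X`
  have h4 : Real.sqrt I.card * (κ / 2) * ((D ^ d) ^ (-(1 / 2) : ℝ) * (R ^ d * v) ^ (1 / 2 : ℝ)) ≤
      X ^ (1 / 2 : ℝ) := by
    have e2 : (I.card : ℝ) * ((κ / 2) ^ 2 * ((R / D) ^ d * v)) =
        (I.card : ℝ) * ((κ / 2) ^ 2 * ((D ^ d)⁻¹ * (R ^ d * v))) := by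
      rw [div_pow]
      ring
    rw [e2] at hX1
    refine le_trans (le_of_eq ?_) (Real.rpow_le_rpow (by positivity) hX1 (by norm_num))
    have key : ∀ w : ℝ, 0 < w → ((I.card : ℝ) * ((κ / 2) ^ 2 * ((D ^ d)⁻¹ * w))) ^ (1 / 2 : ℝ) =
        Real.sqrt I.card * (κ / 2) * ((D ^ d) ^ (-(1 / 2) : ℝ) * w ^ (1 / 2 : ℝ)) := by
      intro w hw
      have k1 : ((I.card : ℝ)) ^ (1 / 2 : ℝ) = Real.sqrt I.card := (Real.sqrt_eq_rpow _).symm
      have k2 : ((κ / 2) ^ 2) ^ (1 / 2 : ℝ) = κ / 2 := by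
        rw [← Real.sqrt_eq_rpow, Real.sqrt_sq (by positivity)]
      have k3 : ((D ^ d)⁻¹) ^ (1 / 2 : ℝ) = (D ^ d) ^ (-(1 / 2) : ℝ) := by
        rw [Real.inv_rpow (by positivity), ← Real.rpow_neg (by positivity)]
      rw [Real.mul_rpow (by positivity) (by positivity), Real.mul_rpow (by positivity)
        (by positivity), Real.mul_rpow (by positivity) hw.le, k1, k2, k3]
      ring
    exact (key _ hRdv).symm
  have h5 : Real.sqrt I.card * (κ / 2) * (D ^ d) ^ (-(1 / 2) : ℝ) * (R ^ d * v) ^ (1 / p) ≤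
      P.toReal := by
    have h6 := h4.trans h2
    have e3 : (R ^ d * v) ^ (1 / (2 : ℝ)) =
        (R ^ d * v) ^ (1 / (2 : ℝ) - 1 / p) * (R ^ d * v) ^ (1 / p) := by
      rw [← Real.rpow_add hRdv]
      congr 1
      ring
    rw [e3] at h6
    have h7 : 0 < (R ^ d * v) ^ (1 / (2 : ℝ) - 1 / p) := Real.rpow_pos_of_pos hRdv _
    refine le_of_mul_le_mul_right ?_ h7
    calc _ = Real.sqrt I.card * (κ / 2) * ((D ^ d) ^ (-(1 / 2) : ℝ) *
          ((R ^ d * v) ^ (1 / (2 : ℝ) - 1 / p) * (R ^ d * v) ^ (1 / p))) := by ring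
      _ ≤ _ := h6
  have h8 : min 1 v * R ^ ((d : ℝ) / p) ≤ (R ^ d * v) ^ (1 / p) := by
    rw [Real.mul_rpow (by positivity) hv0.le, mul_comm]
    have e4 : (R ^ d) ^ (1 / p) = R ^ ((d : ℝ) / p) := by
      rw [← Real.rpow_natCast, ← Real.rpow_mul hR.le, mul_one_div]
    rw [e4]
    refine mul_le_mul_of_nonneg_left ?_ (by positivity)
    rcases le_total 1 v with h | h
    · rw [min_eq_left h]
      exact Real.one_le_rpow h (by positivity)
    · rw [min_eq_right h]
      calc v = v ^ (1 : ℝ) := (Real.rpow_one v).symm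
        _ ≤ v ^ (1 / p) := by
            refine Real.rpow_le_rpow_of_exponent_ge hv0 h ?_
            rw [div_le_one hp0]
            linarith
  refine ENNReal.ofReal_le_of_le_toReal ?_
  refine le_trans ?_ h5
  calc (D ^ d) ^ (-(1 / 2) : ℝ) / 2 * min 1 v * (Real.sqrt I.card * (κ * R ^ ((d : ℝ) / p))) =
      Real.sqrt I.card * (κ / 2) * (D ^ d) ^ (-(1 / 2) : ℝ) * (min 1 v * R ^ ((d : ℝ) / p)) := by
        ring
    _ ≤ _ := mul_le_mul_of_nonneg_left h8 (by positivity)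

end Pool.Agent.N248.RC
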