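import Pool.Agent.N248.RC.Par

set_option autoImplicit false
set_option linter.unusedSectionVars false

/-!
# Random caps of the paraboloid: the pieces of the theorem
-/

namespace Pool.Agent.N248.RC

open MeasureTheory Set
open scoped ENNReal

variable {n : ℕ}

/-- the conclusion for the union `S` of `k` of the `N` cells -/
def GG (C R κ N k : ℝ) (S : Set (EuclideanSpace ℝ (Fin n))) : Prop :=
  ∀ p : ℝ, 2 ≤ p → ∀ K : ℝ, 0 ≤ K →
    Wk (mc n) (volume.restrict (Metric.ball 0 R)) (ker (Pa n)) p K →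
    opN (mc n) (Pa n) S p R ≤ ENNReal.ofReal
      (C * Real.log R ^ 2 * (k / N * K + Real.sqrt k * (κ ^ (1 - 1 / p) * R ^ (1 / p))))

open Classical in
theorem para_gen (A B : ℝ) (hA : 0 ≤ A) (hB : 0 ≤ B) :
    ∃ C : ℝ, 0 ≤ C ∧ ∀ R : ℝ, 2 ≤ R → ∀ κ : ℝ, R ^ (-B) ≤ κ →
      ∀ (α : Type) (J : Finset α) (k : ℕ) (θ : α → Set (EuclideanSpace ℝ (Fin n))),
      1 ≤ k → k ≤ J.card → (J.card : ℝ) ≤ R ^ B →
      (∀ i ∈ J, MeasurableSet (θ i)) → ((J : Set α).PairwiseDisjoint θ) →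
      (∀ i ∈ J, (mc n).real (θ i) ≤ κ) →
      (((Finset.powersetCard k J).filter (fun I => ¬ GG C R κ J.card k (un θ I))).card : ℝ) ≤
        R ^ (-A) * ((J.card.choose k : ℕ) : ℝ) := by
  obtain ⟨B0, hB0, hLt⟩ := Pa_Lt (n := n)
  obtain ⟨C, hC0, hC⟩ := gen (mc n) (Pa n) Pa_meas (2 * Real.pi * (2 * (n + 1) ^ 2))
    (by positivity) Pa_bound B0 hB0 A B hA hB
  refine ⟨C, hC0, ?_⟩
  intro R hR κ hκ α J k θ hk hkJ hJ hθ hd hθκ
  refine le_trans ?_ (hC R hR (hLt R (by linarith)) κ hκ α J k θ hk hkJ hJ hθ hd hθκ)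
  refine Nat.cast_le.2 (Finset.card_le_card ?_)
  intro I hI
  rw [Finset.mem_filter] at hI ⊢
  refine ⟨hI.1, fun hgood => hI.2 ?_⟩
  have hκ0 : 0 ≤ κ := (Real.rpow_nonneg (by linarith) _).trans hκ
  intro p hp K hK hW
  exact opN_of_good (mc n) (Pa n) Pa_meas C R κ J.card k hC0 (Nat.cast_nonneg _)
    (Nat.cast_nonneg _) hκ0 hR (un θ I) hgood p hp K hK hW

/-- the good event in terms of the full norm -/
theorem GG_full (C R κ N k : ℝ) (hC : 0 ≤ C) (hN : 0 ≤ N) (hk : 0 ≤ k) (hκ : 0 ≤ κ) (hR : 2 ≤ R)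
    (S : Set (EuclideanSpace ℝ (Fin n))) (h : GG C R κ N k S) (p : ℝ) (hp : 2 ≤ p) :
    opN (mc n) (Pa n) S p R ≤ ENNReal.ofReal (C * Real.log R ^ 2) *
      (ENNReal.ofReal (k / N) * opN (mc n) (Pa n) Set.univ p R +
        ENNReal.ofReal (Real.sqrt k * (κ ^ (1 - 1 / p) * R ^ (1 / p)))) := by
  have hW := wk_of_opN (mc n) (Pa n) Pa_meas p R hp
  have ht := opN_ne_top (mc n) (Pa n) Pa_meas Set.univ p R hp
  refine (h p hp _ ENNReal.toReal_nonneg hW).trans (le_of_eq ?_)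
  have hlog : 0 ≤ Real.log R := Real.log_nonneg (by linarith)
  have hR0 : 0 ≤ R := by linarith
  rw [ENNReal.ofReal_mul (by positivity), ENNReal.ofReal_add (by positivity) (by positivity),
    ENNReal.ofReal_mul (p := k / N) (by positivity), ENNReal.ofReal_toReal ht]

theorem crit_exp (hn : 1 ≤ n) (R : ℝ) (hR : 0 < R) :
    (R ^ (-(n : ℝ))) ^ (1 - 1 / (2 * ((n : ℝ) + 1) / n)) * R ^ (1 / (2 * ((n : ℝ) + 1) / n)) =
      R ^ (-((n : ℝ) / 2)) := by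
  have hn0 : (0 : ℝ) < n := by exact_mod_cast hn
  rw [← Real.rpow_mul hR.le, ← Real.rpow_add hR]
  congr 1
  field_simp
  ring

theorem pc_two (hn : 1 ≤ n) : (2 : ℝ) ≤ 2 * ((n : ℝ) + 1) / n := by
  have hn0 : (0 : ℝ) < n := by exact_mod_cast hn
  rw [le_div_iff₀ hn0]
  linarith

open Classical in
/-- the unconditional bound at the critical exponent -/
theorem para_crit (hn : 1 ≤ n) (A : ℝ) (hA : 0 ≤ A) :
    ∃ C : ℝ, 0 ≤ C ∧ ∀ R : ℕ, 2 ≤ R → ∀ k : ℕ, 1 ≤ k → k ≤ (2 * R) ^ n →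
      (((Finset.powersetCard k (Finset.univ : Finset (Fin n → Fin (2 * R)))).filter (fun I =>
        ¬ opN (mc n) (Pa n) (un (cell R) I) (2 * ((n : ℝ) + 1) / n) R ≤ ENNReal.ofReal
          (C * Real.log R ^ 2 * ((k : ℝ) / (2 * R) ^ n * (R : ℝ) ^ ((n : ℝ) / (4 * (n + 1))) +
            Real.sqrt ((k : ℝ) / (2 * R) ^ n))))).card : ℝ) ≤
        (R : ℝ) ^ (-A) * ((((2 * R) ^ n).choose k : ℕ) : ℝ) := by
  obtain ⟨K, hK0, hK⟩ := Pa_Wk (n := n) hn
  obtain ⟨C, hC0, hC⟩ := para_gen (n := n) A (2 * n) hA (by positivity)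
  refine ⟨C * (K + 2 ^ n), by positivity, ?_⟩
  intro R hR k hk hkN
  have hR2 : (2 : ℝ) ≤ R := by exact_mod_cast hR
  have hR0 : (0 : ℝ) < R := by linarith
  have hn0 : (0 : ℝ) < n := by exact_mod_cast hn
  have hcard : (Finset.univ : Finset (Fin n → Fin (2 * R))).card = (2 * R) ^ n := by
    rw [Finset.card_univ, Fintype.card_fun, Fintype.card_fin, Fintype.card_fin]
  have h := hC R hR2 ((R : ℝ) ^ (-(n : ℝ)))
    (Real.rpow_le_rpow_of_exponent_le (by linarith) (by linarith)) (Fin n → Fin (2 * R))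
    Finset.univ k (cell R) hk (by rw [hcard]; exact hkN) (by
      rw [hcard]
      push_cast
      have : (2 * R : ℝ) ^ n ≤ ((R : ℝ) ^ 2) ^ n := by
        refine pow_le_pow_left₀ (by positivity) ?_ n
        nlinarith
      refine this.trans (le_of_eq ?_)
      rw [← pow_mul, ← Real.rpow_natCast]
      congr 1
      push_cast
      ring)
    (fun i _ => cell_meas R i) (fun i _ j _ hij => cell_disj R i j hij)
    (fun i _ => (cell_mc R (by omega) i).le)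
  rw [hcard] at h
  refine le_trans (Nat.cast_le.2 (Finset.card_le_card ?_)) h
  intro I hI
  rw [Finset.mem_filter] at hI ⊢
  refine ⟨hI.1, fun hgood => hI.2 ?_⟩
  have h1 := hgood (2 * ((n : ℝ) + 1) / n) (pc_two hn)
    (K * (R : ℝ) ^ ((n : ℝ) / (4 * (n + 1)))) (by positivity) (hK R (by linarith))
  refine h1.trans (ENNReal.ofReal_le_ofReal ?_)
  rw [crit_exp hn R hR0]
  push_cast
  set τ : ℝ := (k : ℝ) / (2 * R) ^ n with hτ
  have hτ0 : 0 ≤ τ := by positivity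
  have hsq : Real.sqrt k * (R : ℝ) ^ (-((n : ℝ) / 2)) ≤ 2 ^ n * Real.sqrt τ := by
    have e1 : (k : ℝ) = τ * (2 * R) ^ n := by rw [hτ]; field_simp
    have e2 : Real.sqrt k = Real.sqrt τ * ((2 : ℝ) ^ n) ^ (1 / 2 : ℝ) * (R : ℝ) ^ ((n : ℝ) / 2) := by
      rw [e1, Real.sqrt_mul hτ0, mul_pow, Real.sqrt_mul (by positivity), Real.sqrt_eq_rpow (2 ^ n),
        Real.sqrt_eq_rpow ((R : ℝ) ^ n), ← Real.rpow_natCast (R : ℝ) n, ← Real.rpow_mul hR0.le,
        mul_one_div, mul_assoc]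
    have e3 : (R : ℝ) ^ ((n : ℝ) / 2) * (R : ℝ) ^ (-((n : ℝ) / 2)) = 1 := by
      rw [← Real.rpow_add hR0, add_neg_cancel, Real.rpow_zero]
    rw [e2, mul_assoc, e3, mul_one, mul_comm]
    refine mul_le_mul_of_nonneg_right ?_ (Real.sqrt_nonneg _)
    calc ((2 : ℝ) ^ n) ^ (1 / 2 : ℝ) ≤ ((2 : ℝ) ^ n) ^ (1 : ℝ) :=
          Real.rpow_le_rpow_of_exponent_le (one_le_pow₀ (by norm_num)) (by norm_num)
      _ = 2 ^ n := Real.rpow_one _
  have hlog : 0 ≤ Real.log R := Real.log_nonneg (by linarith)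
  have hx : 0 ≤ τ * (R : ℝ) ^ ((n : ℝ) / (4 * (n + 1))) := by positivity
  have hy : 0 ≤ Real.sqrt τ := Real.sqrt_nonneg _
  have h2n : (0 : ℝ) ≤ 2 ^ n := by positivity
  have hin : τ * (K * (R : ℝ) ^ ((n : ℝ) / (4 * (n + 1)))) +
      Real.sqrt k * (R : ℝ) ^ (-((n : ℝ) / 2)) ≤
      (K + 2 ^ n) * (τ * (R : ℝ) ^ ((n : ℝ) / (4 * (n + 1))) + Real.sqrt τ) := by
    have h3 : 0 ≤ 2 ^ n * (τ * (R : ℝ) ^ ((n : ℝ) / (4 * (n + 1)))) := by positivity
    have h4 : 0 ≤ K * Real.sqrt τ := by positivity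
    calc _ ≤ K * (τ * (R : ℝ) ^ ((n : ℝ) / (4 * (n + 1)))) + 2 ^ n * Real.sqrt τ := by
          refine add_le_add (le_of_eq (by ring)) hsq
      _ ≤ K * (τ * (R : ℝ) ^ ((n : ℝ) / (4 * (n + 1)))) + 2 ^ n * Real.sqrt τ +
          (2 ^ n * (τ * (R : ℝ) ^ ((n : ℝ) / (4 * (n + 1)))) + K * Real.sqrt τ) := by linarith
      _ = _ := by ring
  calc _ ≤ C * Real.log R ^ 2 *
        ((K + 2 ^ n) * (τ * (R : ℝ) ^ ((n : ℝ) / (4 * (n + 1))) + Real.sqrt τ)) :=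
        mul_le_mul_of_nonneg_left hin (by positivity)
    _ = _ := by ring

/-- the square root lower bound for caps -/
theorem para_sqrt (n : ℕ) : ∃ c : ℝ, 0 < c ∧ ∀ R : ℕ, 1 ≤ R →
    ∀ I : Finset (Fin n → Fin (2 * R)), ∀ p : ℝ, 2 ≤ p →
    ENNReal.ofReal (c * (Real.sqrt I.card * (R : ℝ) ^ (((n : ℝ) + 1) / p - n))) ≤
      opN (mc n) (Pa n) (un (cell R) I) p R := by
  have hpi := Real.pi_gt_three
  obtain ⟨c, hc0, hc⟩ := sqrt_low (mc n) (Pa n) Pa_meas (2 * Real.pi * (2 * (n + 1) ^ 2)) (by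
    have h1 : (1 : ℝ) ≤ 2 * ((n : ℝ) + 1) ^ 2 := by
      have : (0 : ℝ) ≤ n := Nat.cast_nonneg n
      nlinarith
    nlinarith)
  refine ⟨c, hc0, fun R hR I p hp => ?_⟩
  have hR0 : (0 : ℝ) < R := by exact_mod_cast hR
  have h := hc R hR0 (Fin n → Fin (2 * R)) I (cell R) (fun i _ => cell_meas R i)
    (fun i _ j _ hij => cell_disj R i j hij) ((R : ℝ) ^ (-(n : ℝ))) (by positivity)
    (fun i _ => (cell_mc R hR i).ge) (fun i _ y hy y' hy' => cell_diam R hR i y y' hy hy') p hp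
  refine le_trans (le_of_eq ?_) h
  congr 3
  rw [← Real.rpow_add hR0]
  congr 1
  push_cast
  ring

/-- the average -/
theorem para_avg (R : ℕ) (hR : 1 ≤ R) (k : ℕ) (hk : 1 ≤ k) (hkN : k ≤ (2 * R) ^ n) (p : ℝ)
    (hp : 2 ≤ p) :
    (k : ℝ≥0∞) * ((((2 * R) ^ n).choose k : ℕ) : ℝ≥0∞) * opN (mc n) (Pa n) Set.univ p R ≤
      (((2 * R) ^ n : ℕ) : ℝ≥0∞) *
        ∑ I ∈ Finset.powersetCard k (Finset.univ : Finset (Fin n → Fin (2 * R))),
          opN (mc n) (Pa n) (un (cell R) I) p R := by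
  classical
  have hcard : (Finset.univ : Finset (Fin n → Fin (2 * R))).card = (2 * R) ^ n := by
    rw [Finset.card_univ, Fintype.card_fun, Fintype.card_fin, Fintype.card_fin]
  have h := avg_low (mc n) (Pa n) Pa_meas (Finset.univ : Finset (Fin n → Fin (2 * R))) k hk
    (by rw [hcard]; exact hkN) (cell R) (fun i _ => cell_meas R i)
    (fun i _ j _ hij => cell_disj R i j hij) (cell_cover R hR) p R hp
  rw [hcard] at h
  exact h

end Pool.Agent.N248.RC
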