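import Pool.Agent.N248.RC.Src

set_option autoImplicit false
set_option linter.unusedSectionVars false

/-!
# The restricted weak type bound at the midpoint
-/

namespace Pool.Agent.N248.RC

open Finset MeasureTheory
open Pool.Agent.N248.RR (ex ex_norm ps ps_inner ps_meas CEnergy hit uq uq_meas uq_vol energy_of
  ps_norm ps_inner_ps ps_sub block_count)
open scoped RealInnerProductSpace ENNReal

variable {d : ℕ} {Y : Type*} [MeasurableSpace Y] (μ : Measure Y) [IsFiniteMeasure μ]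
  (Φ : Y → EuclideanSpace ℝ (Fin d)) (hΦ : Measurable Φ)

include hΦ in
theorem wk_mid (R B0 C₁ V p₁ : ℝ) (hR : 0 < R) (hB0 : 0 < B0) (hC₁ : 0 < C₁) (hV : 0 < V)
    (hp₁ : 2 ≤ p₁) (hμV : μ.real Set.univ ≤ V) (hLt : Lt μ Φ R B0)
    (hw : ∀ f : Y → ℂ, Measurable f → (∀ y, ‖f y‖ ≤ 1) → ∀ l : ℝ, 0 < l →
      (volume.restrict (Metric.ball 0 R)).real {x | l < ‖Eo μ (ker Φ) f x‖} ≤ C₁ * l ^ (-p₁)) :
    Wk μ (volume.restrict (Metric.ball 0 R)) (ker Φ) ((2 + p₁) / 2)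
      (5 * (B0 * V * C₁) ^ (1 / (2 + p₁)) * R ^ (1 / (2 + p₁))) := by
  intro f hf hf1 G hG
  have hm := Eo_meas μ (ker Φ) (ker_meas Φ hΦ) f hf
  have hFb : ∀ x, ‖Eo μ (ker Φ) f x‖ ≤ V := fun x =>
    (Eo_bound μ (ker Φ) (ker_norm Φ) Set.univ MeasurableSet.univ f hf1
      (fun y hy => absurd (Set.mem_univ y) hy) x).trans hμV
  set Q : ℝ := B0 * R * V with hQ
  have hQ0 : 0 < Q := by positivity
  set p : ℝ := (2 + p₁) / 2 with hp
  have hp2 : 2 ≤ p := by rw [hp]; linarith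
  have hp0 : 0 < p := by linarith
  set W : ℝ := (Q * C₁) ^ (1 / (2 * p)) with hW
  have hW0 : 0 < W := by positivity
  have hint : ∫ x in Metric.ball 0 R, ‖Eo μ (ker Φ) f x‖ ^ 2 ≤ Q := by
    refine (hLt f hf hf1).trans ?_
    rw [hQ]
    refine mul_le_mul_of_nonneg_left ?_ (by positivity)
    refine le_trans ?_ hμV
    refine (integral_mono_of_nonneg (Filter.Eventually.of_forall fun y => by positivity)
      (integrable_const (1 : ℝ)) (Filter.Eventually.of_forall fun y =>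
        pow_le_one₀ (norm_nonneg _) (hf1 y))).trans ?_
    rw [integral_const, smul_eq_mul, mul_one]
  have hset : ∀ c : ℝ, MeasurableSet {x | c < ‖Eo μ (ker Φ) f x‖} :=
    fun c => measurableSet_lt measurable_const hm.norm
  have hcheb : ∀ l : ℝ, 0 < l →
      (volume.restrict (Metric.ball 0 R)).real {x | l < ‖Eo μ (ker Φ) f x‖} ≤ Q * l ^ (-2 : ℝ) := by
    intro l hl
    have h2i : Integrable (fun x => ‖Eo μ (ker Φ) f x‖ ^ 2) (volume.restrict (Metric.ball 0 R)) := by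
      refine Integrable.mono' (integrable_const (V ^ 2 : ℝ))
        (hm.norm.pow_const 2).aestronglyMeasurable (Filter.Eventually.of_forall fun x => ?_)
      rw [Real.norm_of_nonneg (by positivity)]
      exact pow_le_pow_left₀ (norm_nonneg _) (hFb x) 2
    have h3 := mul_meas_ge_le_integral_of_nonneg (μ := volume.restrict (Metric.ball 0 R))
      (f := fun x => ‖Eo μ (ker Φ) f x‖ ^ 2) (Filter.Eventually.of_forall fun x => by positivity)
      h2i (l ^ 2)
    have h4 : (volume.restrict (Metric.ball 0 R)).real {x | l < ‖Eo μ (ker Φ) f x‖} ≤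
        (volume.restrict (Metric.ball 0 R)).real {x | l ^ 2 ≤ ‖Eo μ (ker Φ) f x‖ ^ 2} := by
      refine measureReal_mono (fun x hx => ?_)
      exact pow_le_pow_left₀ hl.le (le_of_lt hx) 2
    have h5 : l ^ 2 * (volume.restrict (Metric.ball 0 R)).real
        {x | l < ‖Eo μ (ker Φ) f x‖} ≤ Q :=
      (mul_le_mul_of_nonneg_left h4 (by positivity)).trans (h3.trans hint)
    rw [Real.rpow_neg hl.le, Real.rpow_two, ← div_eq_mul_inv, le_div_iff₀ (by positivity)]
    linarith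
  have hlev : ∀ l, 0 < l →
      (volume.restrict (Metric.ball 0 R)).real {x | l < ‖Eo μ (ker Φ) f x‖} ≤
        W ^ p * l ^ (-p) := by
    intro l hl
    have h1 := hcheb l hl
    have h2 := hw f hf hf1 l hl
    set D : ℝ := (volume.restrict (Metric.ball 0 R)).real {x | l < ‖Eo μ (ker Φ) f x‖} with hD
    have hD0 : 0 ≤ D := measureReal_nonneg
    have e : (W ^ p * l ^ (-p)) ^ 2 = (Q * l ^ (-2 : ℝ)) * (C₁ * l ^ (-p₁)) := by
      have e1 : (W ^ p) ^ 2 = Q * C₁ := by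
        rw [hW, ← Real.rpow_natCast, ← Real.rpow_mul (by positivity),
          ← Real.rpow_mul (by positivity)]
        have : 1 / (2 * p) * (p * ((2 : ℕ) : ℝ)) = 1 := by
          push_cast
          field_simp
        rw [this, Real.rpow_one]
      have e2 : (l ^ (-p)) ^ 2 = l ^ (-2 : ℝ) * l ^ (-p₁) := by
        rw [← Real.rpow_natCast, ← Real.rpow_mul hl.le, ← Real.rpow_add hl]
        congr 1
        rw [hp]
        push_cast
        ring
      rw [mul_pow, e1, e2]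
      ring
    have h3 : D ^ 2 ≤ (W ^ p * l ^ (-p)) ^ 2 := by
      rw [e, pow_two]
      exact mul_le_mul h1 h2 hD0 (by positivity)
    exact (pow_le_pow_iff_left₀ hD0 (by positivity) (by norm_num)).1 h3
  have hres := restricted (volume.restrict (Metric.ball 0 R)) (Eo μ (ker Φ) f) hm p W V hp2 hW0 hFb
    hlev G hG
  refine hres.trans (le_of_eq ?_)
  have e3 : W = (B0 * V * C₁) ^ (1 / (2 + p₁)) * R ^ (1 / (2 + p₁)) := by
    rw [hW, ← Real.mul_rpow (by positivity) hR.le]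
    congr 1
    · rw [hQ]; ring
    · rw [hp]; congr 1; ring
  rw [e3]
  ring

/-- **The restricted weak type bound at the midpoint, from energy and decay.** -/
theorem wk_source (t : Fin d) (L₀ g : ℝ) (hL₀ : 0 ≤ L₀) (hg : 0 < g)
    (hC : CEnergy μ Φ hΦ (fun _ : Fin 1 => t) L₀) (ρ0 : ℝ) (hρ0 : 0 ≤ ρ0)
    (hΦb : ∀ᵐ y ∂μ, ‖Φ y‖ ≤ ρ0)
    (hdec : ∀ x : EuclideanSpace ℝ (Fin d), 1 ≤ |x t| →
      ‖∫ y, ex ⟪Φ y, x⟫ ∂μ‖ ≤ L₀ * |x t| ^ (-g)) :
    ∃ K : ℝ, 0 ≤ K ∧ ∀ R : ℝ, 1 ≤ R → Wk μ (volume.restrict (Metric.ball 0 R)) (ker Φ) (2 + 1 / g)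
      (K * R ^ (1 / (4 + 2 / g))) := by
  obtain ⟨L, hL0, hE⟩ := energy_of μ Φ hΦ (fun _ : Fin 1 => t) L₀ hL₀ hC ρ0 hρ0 hΦb
  set L₁ : ℝ := 1 + L + L₀ with hL₁
  have hcount : ∀ F : Lp ℂ 2 μ, ‖F‖ ≤ 1 → ∀ lam : ℝ, 0 < lam → lam ≤ 1 →
      ∀ J : Finset (Fin d → ℤ), (∀ j ∈ J, hit (ps μ Φ hΦ) lam F j) →
      (J.card : ℝ) ≤ (4 * 3 ^ 1 * L₁ * (2 * L₁) ^ (1 / g)) * lam ^ (-(2 + 2 / g)) := by
    intro F hF lam h0 h1 J hJ
    refine block_count (fun _ : Fin 1 => t) (ps μ Φ hΦ) L₁ g (by linarith) hg ?_ ?_ F hF lam h0 h1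
      J hJ
    · intro f τ hτ J s hJ x hx
      refine (hE f τ hτ J s hJ x hx).trans ?_
      refine mul_le_mul_of_nonneg_right ?_ (by positivity)
      exact mul_le_mul_of_nonneg_right (by linarith) (Nat.cast_nonneg _)
    · intro x y _ ht
      rw [ps_inner_ps]
      refine (hdec (x - y) ht).trans ?_
      exact mul_le_mul_of_nonneg_right (by linarith) (by positivity)
  set C₀ : ℝ := 4 * 3 ^ 1 * L₁ * (2 * L₁) ^ (1 / g) with hC₀
  have hC₀0 : 0 < C₀ := by positivity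
  set V : ℝ := 1 + μ.real Set.univ with hV
  have hμ0 : 0 ≤ μ.real Set.univ := measureReal_nonneg
  have hV1 : 1 ≤ V := by linarith
  set p₁ : ℝ := 2 + 2 / g with hp₁
  have hg2 : 0 < 2 / g := by positivity
  refine ⟨5 * ((2 * L₀ + 1) * V * (C₀ * V ^ p₁)) ^ (1 / (2 + p₁)), by positivity, ?_⟩
  intro R hR
  have hLt : Lt μ Φ R (2 * L₀ + 1) := by
    intro f hf hf1
    refine (lt_of_energy μ Φ hΦ t L₀ hL₀ hC R hR f hf hf1).trans ?_
    refine mul_le_mul_of_nonneg_right ?_ (integral_nonneg fun y => by positivity)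
    exact mul_le_mul_of_nonneg_right (by linarith) (by linarith)
  have h := wk_mid μ Φ hΦ R (2 * L₀ + 1) (C₀ * V ^ p₁) V p₁ (by linarith) (by linarith)
    (by positivity) (by linarith) (by linarith) (by linarith) hLt
    (fun f hf hf1 l hl => weak_of_count μ Φ hΦ C₀ p₁ V hC₀0.le hV1 (by linarith) hcount R f hf hf1
      l hl)
  have e1 : (2 + p₁) / 2 = 2 + 1 / g := by rw [hp₁]; field_simp; ring
  have e2 : (1 : ℝ) / (2 + p₁) = 1 / (4 + 2 / g) := by
    rw [hp₁]; congr 1; ring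
  rw [e1] at h
  rw [e2] at h ⊢
  exact h

end Pool.Agent.N248.RC
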