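import Pool.Agent.N248.RC.Gen

set_option autoImplicit false
set_option linter.unusedSectionVars false

/-!
# The norms of the extension operator on sets of cells
-/

namespace Pool.Agent.N248.RC

open Finset MeasureTheory
open scoped RealInnerProductSpace ENNReal

variable {d : ℕ} {Y : Type*} [MeasurableSpace Y] (μ : Measure Y) [IsFiniteMeasure μ]
  (Φ : Y → EuclideanSpace ℝ (Fin d))

/-- functions of modulus at most `1`, supported in `S` -/
def Adm (S : Set Y) (f : Y → ℂ) : Prop :=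
  Measurable f ∧ (∀ y, ‖f y‖ ≤ 1) ∧ ∀ y, y ∉ S → f y = 0

/-- the norm of the extension operator from `L^∞(S)` to `L^p(B_R)` -/
noncomputable def opN (S : Set Y) (p R : ℝ) : ℝ≥0∞ :=
  ⨆ (f : Y → ℂ) (_ : Adm S f),
    eLpNorm (Eo μ (ker Φ) f) (ENNReal.ofReal p) (volume.restrict (Metric.ball 0 R))

theorem le_opN (S : Set Y) (p R : ℝ) (f : Y → ℂ) (hf : Adm S f) :
    eLpNorm (Eo μ (ker Φ) f) (ENNReal.ofReal p) (volume.restrict (Metric.ball 0 R)) ≤
      opN μ Φ S p R :=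
  le_iSup₂ (f := fun (f : Y → ℂ) (_ : Adm S f) =>
    eLpNorm (Eo μ (ker Φ) f) (ENNReal.ofReal p) (volume.restrict (Metric.ball 0 R))) f hf

theorem opN_le (S : Set Y) (p R : ℝ) (C : ℝ≥0∞) (h : ∀ f, Adm S f →
    eLpNorm (Eo μ (ker Φ) f) (ENNReal.ofReal p) (volume.restrict (Metric.ball 0 R)) ≤ C) :
    opN μ Φ S p R ≤ C := iSup₂_le h

theorem opN_mono (S T : Set Y) (h : S ⊆ T) (p R : ℝ) : opN μ Φ S p R ≤ opN μ Φ T p R :=
  opN_le μ Φ S p R _ fun f hf => le_opN μ Φ T p R f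
    ⟨hf.1, hf.2.1, fun y hy => hf.2.2 y fun hy2 => hy (h hy2)⟩

variable (hΦ : Measurable Φ)

include hΦ in
theorem Eo_eLp (p : ℝ) (hp : 2 ≤ p) (R : ℝ) (f : Y → ℂ) (hf : Measurable f)
    (hf1 : ∀ y, ‖f y‖ ≤ 1) :
    eLpNorm (Eo μ (ker Φ) f) (ENNReal.ofReal p) (volume.restrict (Metric.ball 0 R)) =
      ENNReal.ofReal ((∫ x in Metric.ball 0 R, ‖Eo μ (ker Φ) f x‖ ^ p) ^ (1 / p)) := by
  have hm := Eo_meas μ (ker Φ) (ker_meas Φ hΦ) f hf
  have hb : ∀ x, ‖Eo μ (ker Φ) f x‖ ≤ μ.real Set.univ :=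
    Eo_bound μ (ker Φ) (ker_norm Φ) Set.univ MeasurableSet.univ f hf1
      (fun y hy => absurd (Set.mem_univ y) hy)
  have hM : MemLp (Eo μ (ker Φ) f) (ENNReal.ofReal p) (volume.restrict (Metric.ball 0 R)) :=
    MemLp.of_bound hm.aestronglyMeasurable _ (Filter.Eventually.of_forall hb)
  have hp0 : ENNReal.ofReal p ≠ 0 := by
    rw [Ne, ENNReal.ofReal_eq_zero, not_le]
    linarith
  rw [hM.eLpNorm_eq_integral_rpow_norm hp0 ENNReal.ofReal_ne_top,
    ENNReal.toReal_ofReal (by linarith), one_div]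

include hΦ in
theorem opN_lt_top (S : Set Y) (p R : ℝ) (hp : 2 ≤ p) :
    opN μ Φ S p R ≤ volume (Metric.ball (0 : EuclideanSpace ℝ (Fin d)) R) ^ (1 / p) *
      ENNReal.ofReal (μ.real Set.univ) := by
  refine opN_le μ Φ S p R _ fun f hf => ?_
  have hb : ∀ x, ‖Eo μ (ker Φ) f x‖ ≤ μ.real Set.univ :=
    Eo_bound μ (ker Φ) (ker_norm Φ) Set.univ MeasurableSet.univ f hf.2.1
      (fun y hy => absurd (Set.mem_univ y) hy)
  refine (eLpNorm_le_of_ae_bound (Filter.Eventually.of_forall hb)).trans (le_of_eq ?_)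
  rw [Measure.restrict_apply_univ, ENNReal.toReal_ofReal (by linarith), one_div]

include hΦ in
theorem opN_ne_top (S : Set Y) (p R : ℝ) (hp : 2 ≤ p) : opN μ Φ S p R ≠ ∞ := by
  refine ((opN_lt_top μ Φ hΦ S p R hp).trans_lt ?_).ne
  refine ENNReal.mul_lt_top ?_ ENNReal.ofReal_lt_top
  exact ENNReal.rpow_lt_top_of_nonneg (by positivity) measure_ball_lt_top.ne

include hΦ in
/-- Hölder's inequality -/
theorem wk_of_opN (p R : ℝ) (hp : 2 ≤ p) :
    Wk μ (volume.restrict (Metric.ball 0 R)) (ker Φ) p (opN μ Φ Set.univ p R).toReal := by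
  intro f hf hf1 G hG
  set ν := (volume : Measure (EuclideanSpace ℝ (Fin d))).restrict (Metric.ball 0 R) with hν
  have hm := Eo_meas μ (ker Φ) (ker_meas Φ hΦ) f hf
  have h1 : (1 : ℝ≥0∞) ≤ ENNReal.ofReal p := by
    rw [← ENNReal.ofReal_one]
    exact ENNReal.ofReal_le_ofReal (by linarith)
  have h2 := eLpNorm_le_eLpNorm_mul_rpow_measure_univ (μ := ν.restrict G) h1
    hm.aestronglyMeasurable
  have h3 : eLpNorm (Eo μ (ker Φ) f) (ENNReal.ofReal p) (ν.restrict G) ≤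
      opN μ Φ Set.univ p R :=
    (eLpNorm_mono_measure _ Measure.restrict_le_self).trans
      (le_opN μ Φ Set.univ p R f ⟨hf, hf1, fun y hy => absurd (Set.mem_univ y) hy⟩)
  rw [integral_norm_eq_lintegral_enorm hm.aestronglyMeasurable, ← eLpNorm_one_eq_lintegral_enorm]
  have h4 : eLpNorm (Eo μ (ker Φ) f) 1 (ν.restrict G) ≤
      opN μ Φ Set.univ p R * ν G ^ (1 - 1 / p) := by
    refine h2.trans ?_
    rw [ENNReal.toReal_one, ENNReal.toReal_ofReal (by linarith), Measure.restrict_apply_univ,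
      div_one]
    exact mul_le_mul' h3 le_rfl
  have hexp : 0 ≤ 1 - 1 / p := by
    rw [sub_nonneg, div_le_one (by linarith)]
    linarith
  have h5 : opN μ Φ Set.univ p R * ν G ^ (1 - 1 / p) ≠ ∞ :=
    ENNReal.mul_ne_top (opN_ne_top μ Φ hΦ _ p R hp)
      (ENNReal.rpow_ne_top_of_nonneg hexp (measure_ne_top _ _))
  refine (ENNReal.toReal_mono h5 h4).trans (le_of_eq ?_)
  rw [ENNReal.toReal_mul, Measure.real, ENNReal.toReal_rpow]

include hΦ in
/-- the good event in terms of the norms -/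
theorem opN_of_good (C R κ N k : ℝ) (hC : 0 ≤ C) (hN : 0 ≤ N) (hk : 0 ≤ k) (hκ : 0 ≤ κ)
    (hR : 2 ≤ R) (S : Set Y)
    (h : ∀ p : ℝ, 2 ≤ p → ∀ K : ℝ, 0 ≤ K →
      Wk μ (volume.restrict (Metric.ball 0 R)) (ker Φ) p K →
      ∀ f : Y → ℂ, Measurable f → (∀ y, ‖f y‖ ≤ 1) → (∀ y, y ∉ S → f y = 0) →
        (∫ x in Metric.ball 0 R, ‖Eo μ (ker Φ) f x‖ ^ p) ^ (1 / p) ≤
          C * Real.log R ^ 2 * (k / N * K + Real.sqrt k * (κ ^ (1 - 1 / p) * R ^ (1 / p))))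
    (p : ℝ) (hp : 2 ≤ p) (K : ℝ) (hK : 0 ≤ K)
    (hW : Wk μ (volume.restrict (Metric.ball 0 R)) (ker Φ) p K) :
    opN μ Φ S p R ≤ ENNReal.ofReal
      (C * Real.log R ^ 2 * (k / N * K + Real.sqrt k * (κ ^ (1 - 1 / p) * R ^ (1 / p)))) := by
  refine opN_le μ Φ S p R _ fun f hf => ?_
  rw [Eo_eLp μ Φ hΦ p hp R f hf.1 hf.2.1]
  exact ENNReal.ofReal_le_ofReal (h p hp K hK hW f hf.1 hf.2.1 hf.2.2)

end Pool.Agent.N248.RC
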