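import Pool.Agent.N248.RC.Grid

set_option autoImplicit false
set_option linter.unusedSectionVars false

/-!
# Random unions of cells: the norm of the extension operator at scale `R`
-/

namespace Pool.Agent.N248.RC

open Finset MeasureTheory

variable {d : ℕ} {Y : Type*} [MeasurableSpace Y] (μ : Measure Y) [IsFiniteMeasure μ]
  (Φ : Y → EuclideanSpace ℝ (Fin d)) {α : Type*} [DecidableEq α]

instance ball_fin (R : ℝ) :
    IsFiniteMeasure ((volume : Measure (EuclideanSpace ℝ (Fin d))).restrict (Metric.ball 0 R)) :=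
  ⟨by rw [Measure.restrict_apply_univ]; exact measure_ball_lt_top⟩

/-- the alphabet at scale `ρ` -/
noncomputable def Al (ρ : ℝ) (M : ℕ) : Option ((Fin d → Fin (2 * M + 1)) × Fin 4) → Y → ℂ :=
  Xa fun b => ker Φ (gpt ρ M b)

theorem Al_meas (hΦ : Measurable Φ) (ρ : ℝ) (M : ℕ)
    (i : Option ((Fin d → Fin (2 * M + 1)) × Fin 4)) : Measurable (Al Φ ρ M i) :=
  Xa_meas _ (fun b => (ker_meas Φ hΦ).comp (measurable_const.prodMk measurable_id)) i

theorem Al_norm (ρ : ℝ) (M : ℕ) (i : Option ((Fin d → Fin (2 * M + 1)) × Fin 4)) (y : Y) :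
    ‖Al Φ ρ M i y‖ ≤ 1 := Xa_norm _ (fun b y => ker_norm Φ _ y) i y

theorem rs_of_good (hΦ : Measurable Φ) (ρ0 : ℝ) (hρ0 : 0 ≤ ρ0) (hΦb : ∀ y, ‖Φ y‖ ≤ ρ0)
    (J : Finset α) (k : ℕ) (hk : 1 ≤ k) (θ : α → Set Y) (hθ : ∀ i ∈ J, MeasurableSet (θ i))
    (κ : ℝ) (hκ : 0 < κ) (hθκ : ∀ i ∈ J, μ.real (θ i) ≤ κ) (R : ℝ) (ρ : ℝ) (hρ : 0 < ρ) (M : ℕ)
    (hM : R ≤ M * ρ) (hρk : ρ0 * (d * ρ) ≤ 1 / (16 * Real.sqrt k)) (Lg Li a : ℝ) (hLg : 1 ≤ Lg)
    (hLi : 0 ≤ Li) (ha : 0 ≤ a) (hexc : 4 * μ.real Set.univ * Real.exp (-Lg) ≤ κ)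
    (I : Finset α) (hIJ : I ∈ powersetCard k J) (hI : GoodI μ J k θ κ (Al Φ ρ M) Lg Li a I) :
    Rs μ (volume.restrict (Metric.ball 0 R)) (ker Φ) (un θ I) (16 * ((k : ℝ) / J.card))
      (κ * Real.sqrt k * (34824 * Lg * Li + 2 * a + 7)) := by
  classical
  intro g hgm hgi hg1
  have hbm : MeasurableSet (Metric.ball (0 : EuclideanSpace ℝ (Fin d)) R) := measurableSet_ball
  set g' : EuclideanSpace ℝ (Fin d) → ℂ := (Metric.ball 0 R).indicator g with hg'
  have hae : g' =ᵐ[volume.restrict (Metric.ball 0 R)] g := by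
    filter_upwards [ae_restrict_mem hbm] with x hx
    rw [hg', Set.indicator_of_mem hx]
  have hg'i : Integrable g' (volume.restrict (Metric.ball 0 R)) := hgi.congr hae.symm
  have hg'1 : ∫ x in Metric.ball 0 R, ‖g' x‖ ≤ 1 := by
    refine le_trans (le_of_eq (integral_congr_ae ?_)) hg1
    filter_upwards [hae] with x hx
    rw [hx]
  have htr : ∀ y, tr (volume.restrict (Metric.ball 0 R)) (ker Φ) g' y =
      tr (volume.restrict (Metric.ball 0 R)) (ker Φ) g y := by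
    intro y
    unfold tr
    refine integral_congr_ae ?_
    filter_upwards [hae] with x hx
    rw [hx]
  have hφm := ker_meas Φ hΦ
  obtain ⟨w, hw0, hw1, hw⟩ := weights (volume.restrict (Metric.ball 0 R)) (ker Φ) hφm (ker_norm Φ)
    (fun b => ker Φ (gpt ρ M b)) (fun b y => ker_norm Φ _ y) (rnd ρ M)
    (fun b => rnd_meas ρ M (measurableSet_singleton b)) (Metric.ball 0 R)
    (1 / (16 * Real.sqrt k)) (by positivity)
    (fun x hx y => (ker_close Φ ρ0 hΦb x _ y).trans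
      ((mul_le_mul_of_nonneg_left (rnd_near ρ hρ M R hM x hx) hρ0).trans hρk))
    g' hg'i hg'1 (fun x hx => Set.indicator_of_notMem hx _)
  refine engine μ J k hk θ hθ κ hκ hθκ (Al Φ ρ M) (Al_meas Φ hΦ ρ M) (Al_norm Φ ρ M) Lg Li a hLg
    hLi ha hexc I hIJ hI w hw0 hw1 _ (tr_meas _ (ker Φ) hφm g hgm).norm
    (fun y => norm_nonneg _) (tr_norm _ (ker Φ) (ker_norm Φ) g hgi hg1) fun y => ?_
  rw [← htr y]
  exact hw y

/-- the local `L²` bound -/
def Lt (R B0 : ℝ) : Prop :=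
  ∀ f : Y → ℂ, Measurable f → (∀ y, ‖f y‖ ≤ 1) →
    ∫ x in Metric.ball 0 R, ‖Eo μ (ker Φ) f x‖ ^ 2 ≤ B0 * R * ∫ y, ‖f y‖ ^ 2 ∂μ

theorem root_add (x y p : ℝ) (hx : 0 ≤ x) (hy : 0 ≤ y) (hp : 1 ≤ p) :
    (x + y) ^ (1 / p) ≤ x ^ (1 / p) + y ^ (1 / p) :=
  Real.rpow_add_le_add_rpow hx hy (by positivity) (by
    rw [div_le_one (by linarith)]; exact hp)

theorem norm_of_rs (hΦ : Measurable Φ) (R : ℝ) (hR : 0 < R) (B0 : ℝ) (hB0 : 0 ≤ B0)
    (hL2 : Lt μ Φ R B0) (S : Set Y) (hS : MeasurableSet S) (k N : ℝ) (m : ℕ) (hk : 1 ≤ k)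
    (hN : 0 < N)
    (hm : Real.sqrt k ≤ 2 ^ m) (κ : ℝ) (hκ : 0 < κ) (Λ : ℝ) (hΛ : 1 ≤ Λ)
    (hRs : Rs μ (volume.restrict (Metric.ball 0 R)) (ker Φ) S (16 * (k / N))
      (κ * Real.sqrt k * Λ)) (hμS : μ.real S ≤ k * κ) (p : ℝ) (hp : 2 ≤ p) (K : ℝ) (hK : 0 ≤ K)
    (hW : Wk μ (volume.restrict (Metric.ball 0 R)) (ker Φ) p K) (f : Y → ℂ) (hf : Measurable f)
    (hf1 : ∀ y, ‖f y‖ ≤ 1) (hfS : ∀ y, y ∉ S → f y = 0) :
    (∫ x in Metric.ball 0 R, ‖Eo μ (ker Φ) f x‖ ^ p) ^ (1 / p) ≤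
      64 * (m + 1) * (k / N * K) +
        2 * Λ * (B0 + 1) * (Real.sqrt k * (κ ^ (1 - 1 / p) * R ^ (1 / p))) := by
  have hp0 : 0 < p := by linarith
  have hsk : 1 ≤ Real.sqrt k := Real.one_le_sqrt.2 hk
  have hsk2 : Real.sqrt k * Real.sqrt k = k := Real.mul_self_sqrt (by linarith)
  have hφm := ker_meas Φ hΦ
  set F := Eo μ (ker Φ) f with hF
  have hFm : Measurable F := Eo_meas μ (ker Φ) hφm f hf
  set b : ℝ := 2 * (κ * Real.sqrt k * Λ) with hb
  have hb0 : 0 < b := by positivity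
  have hFb : ∀ x, ‖F x‖ ≤ 2 ^ m * b := by
    intro x
    refine (Eo_bound μ (ker Φ) (ker_norm Φ) S hS f hf1 hfS x).trans (hμS.trans ?_)
    calc k * κ = (Real.sqrt k * Real.sqrt k) * κ := by rw [hsk2]
      _ = (Real.sqrt k * κ) * Real.sqrt k := by ring
      _ ≤ 2 ^ m * (Real.sqrt k * κ * Λ * 2) := by
          have h1 : Real.sqrt k * κ ≤ Real.sqrt k * κ * Λ * 2 := by
            have : 0 < Real.sqrt k * κ := by positivity
            nlinarith
          calc (Real.sqrt k * κ) * Real.sqrt k ≤ (Real.sqrt k * κ * Λ * 2) * 2 ^ m :=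
                mul_le_mul h1 hm (Real.sqrt_nonneg _) (by positivity)
            _ = _ := by ring
      _ = 2 ^ m * b := by rw [hb]; ring
  have hQ : ∫ x in Metric.ball 0 R, ‖F x‖ ^ 2 ≤ B0 * R * (k * κ) := by
    refine (hL2 f hf hf1).trans ?_
    refine mul_le_mul_of_nonneg_left ?_ (by positivity)
    refine le_trans ?_ hμS
    have h1 : ∀ y, ‖f y‖ ^ 2 ≤ S.indicator (fun _ => (1 : ℝ)) y := by
      intro y
      by_cases hy : y ∈ S
      · rw [Set.indicator_of_mem hy]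
        exact pow_le_one₀ (norm_nonneg _) (hf1 y)
      · rw [Set.indicator_of_notMem hy, hfS y hy, norm_zero]
        norm_num
    refine (integral_mono_of_nonneg (Filter.Eventually.of_forall fun y => by positivity)
      ((integrable_const (1 : ℝ)).indicator hS) (Filter.Eventually.of_forall h1)).trans ?_
    rw [integral_indicator hS, setIntegral_const, smul_eq_mul, mul_one]
  set A : ℝ := 2 * (16 * (k / N)) * K with hA
  have hA0 : 0 ≤ A := by positivity
  have hlev : ∀ l, b ≤ l →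
      (volume.restrict (Metric.ball 0 R)).real {x | l < ‖F x‖} ≤ (A / l) ^ p := by
    intro l hl
    exact superlevel μ (volume.restrict (Metric.ball 0 R)) (ker Φ) hφm (ker_norm Φ) S hS
      (16 * (k / N)) (κ * Real.sqrt k * Λ) (by positivity) hRs p K (by linarith) hK hW f hf hf1 hfS
      l hl (hb0.trans_le hl)
  have h1 := strong (volume.restrict (Metric.ball 0 R)) F hFm p A b (B0 * R * (k * κ)) m hp hA0 hb0
    hFb hQ hlev
  have h2 : (∫ x in Metric.ball 0 R, ‖F x‖ ^ p) ^ (1 / p) ≤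
      (b ^ (p - 2) * (B0 * R * (k * κ))) ^ (1 / p) + (m * (2 * A) ^ p) ^ (1 / p) := by
    refine (Real.rpow_le_rpow (integral_nonneg fun x => by positivity) h1 (by positivity)).trans ?_
    exact root_add _ _ p (by positivity) (by positivity) (by linarith)
  have h3 : ((m : ℝ) * (2 * A) ^ p) ^ (1 / p) ≤ 64 * (m + 1) * (k / N * K) := by
    rw [Real.mul_rpow (by positivity) (by positivity), ← Real.rpow_mul (by positivity),
      mul_one_div_cancel hp0.ne', Real.rpow_one]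
    have h4 : (m : ℝ) ^ (1 / p) ≤ m + 1 := by
      calc (m : ℝ) ^ (1 / p) ≤ ((m : ℝ) + 1) ^ (1 / p) :=
            Real.rpow_le_rpow (by positivity) (by linarith) (by positivity)
        _ ≤ ((m : ℝ) + 1) ^ (1 : ℝ) := by
            refine Real.rpow_le_rpow_of_exponent_le ?_ ?_
            · have : (0 : ℝ) ≤ m := Nat.cast_nonneg m
              linarith
            · rw [div_le_one hp0]; linarith
        _ = m + 1 := Real.rpow_one _
    calc (m : ℝ) ^ (1 / p) * (2 * A) ≤ (m + 1) * (2 * A) :=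
          mul_le_mul_of_nonneg_right h4 (by positivity)
      _ = _ := by rw [hA]; ring
  have h5 : (b ^ (p - 2) * (B0 * R * (k * κ))) ^ (1 / p) ≤
      2 * Λ * (B0 + 1) * (Real.sqrt k * (κ ^ (1 - 1 / p) * R ^ (1 / p))) := by
    have e1 : b ^ (p - 2) * (B0 * R * (k * κ)) =
        ((2 * Λ) ^ (p - 2) * B0) * (Real.sqrt k ^ p * (κ ^ (p - 1) * R)) := by
      have e2 : b = (2 * Λ) * (κ * Real.sqrt k) := by rw [hb]; ring
      rw [e2, Real.mul_rpow (by positivity) (by positivity),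
        Real.mul_rpow hκ.le (Real.sqrt_nonneg _)]
      have e3 : Real.sqrt k ^ p = Real.sqrt k ^ (p - 2) * k := by
        have e31 : Real.sqrt k ^ p = Real.sqrt k ^ (p - 2) * Real.sqrt k ^ (2 : ℝ) := by
          rw [← Real.rpow_add (by positivity)]
          congr 1
          ring
        rw [e31, show ((2 : ℝ)) = ((2 : ℕ) : ℝ) by norm_num, Real.rpow_natCast, pow_two, hsk2]
      have e4 : κ ^ (p - 1) = κ ^ (p - 2) * κ := by
        rw [show p - 1 = (p - 2) + 1 by ring, Real.rpow_add_one hκ.ne']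
      rw [e3, e4]
      ring
    have f1 : (((2 * Λ) ^ (p - 2) * B0) * (Real.sqrt k ^ p * (κ ^ (p - 1) * R))) ^ (1 / p) =
        ((2 * Λ) ^ (p - 2) * B0) ^ (1 / p) * (Real.sqrt k ^ p * (κ ^ (p - 1) * R)) ^ (1 / p) :=
      Real.mul_rpow (by positivity) (by positivity)
    have f2 : ((2 * Λ) ^ (p - 2) * B0) ^ (1 / p) = (2 * Λ) ^ ((p - 2) * (1 / p)) * B0 ^ (1 / p) := by
      rw [Real.mul_rpow (by positivity) hB0, ← Real.rpow_mul (by positivity)]
    have f3 : (Real.sqrt k ^ p * (κ ^ (p - 1) * R)) ^ (1 / p) =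
        Real.sqrt k * (κ ^ (1 - 1 / p) * R ^ (1 / p)) := by
      rw [Real.mul_rpow (by positivity) (by positivity),
        Real.mul_rpow (by positivity) (by positivity), ← Real.rpow_mul (by positivity) p,
        ← Real.rpow_mul hκ.le (p - 1), mul_one_div_cancel hp0.ne', Real.rpow_one]
      congr 3
      field_simp
    rw [e1, f1, f2, f3]
    refine mul_le_mul_of_nonneg_right ?_ (by positivity)
    refine mul_le_mul ?_ ?_ (by positivity) (by positivity)
    · calc (2 * Λ) ^ ((p - 2) * (1 / p)) ≤ (2 * Λ) ^ (1 : ℝ) := by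
            refine Real.rpow_le_rpow_of_exponent_le (by linarith) ?_
            rw [mul_one_div, div_le_one hp0]
            linarith
        _ = 2 * Λ := Real.rpow_one _
    · calc B0 ^ (1 / p) ≤ (B0 + 1) ^ (1 / p) :=
            Real.rpow_le_rpow hB0 (by linarith) (by positivity)
        _ ≤ (B0 + 1) ^ (1 : ℝ) := by
            refine Real.rpow_le_rpow_of_exponent_le (by linarith) ?_
            rw [div_le_one hp0]; linarith
        _ = B0 + 1 := Real.rpow_one _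
  refine h2.trans ?_
  linarith

end Pool.Agent.N248.RC
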