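import Mathlib

set_option autoImplicit false

/-!
# Random subsets of fixed size: the exponential moment of a weighted count
-/

namespace Pool.Agent.N248.RC

open Finset

variable {α : Type*} [DecidableEq α]

theorem choose_step (N k r : ℕ) (hk : k ≤ N) (hr : r ≤ k) :
    (((N - r).choose (k - r) : ℕ) : ℝ) * (N : ℝ) ^ r ≤ (k : ℝ) ^ r * ((N.choose k : ℕ) : ℝ) := by
  induction r with
  | zero => simp
  | succ r ih =>
    have ih' := ih (by omega)
    obtain ⟨a, ha⟩ : ∃ a, N - r = a + 1 := ⟨N - r - 1, by omega⟩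
    obtain ⟨b, hb⟩ : ∃ b, k - r = b + 1 := ⟨k - r - 1, by omega⟩
    have ha' : N - (r + 1) = a := by omega
    have hb' : k - (r + 1) = b := by omega
    rw [ha', hb']
    rw [ha, hb] at ih'
    have h1 := Nat.add_one_mul_choose_eq a b
    have h1' : ((a : ℝ) + 1) * ((a.choose b : ℕ) : ℝ) =
        (((a + 1).choose (b + 1) : ℕ) : ℝ) * ((b : ℝ) + 1) := by
      exact_mod_cast h1
    have ha1 : (a : ℝ) + 1 = N - r := by
      have : ((a + 1 : ℕ) : ℝ) = ((N - r : ℕ) : ℝ) := by rw [ha]
      rw [Nat.cast_sub (by omega)] at this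
      push_cast at this
      linarith
    have hb1 : (b : ℝ) + 1 = k - r := by
      have : ((b + 1 : ℕ) : ℝ) = ((k - r : ℕ) : ℝ) := by rw [hb]
      rw [Nat.cast_sub (by omega)] at this
      push_cast at this
      linarith
    have hk' : (k : ℝ) ≤ N := by exact_mod_cast hk
    have ha0 : (0 : ℝ) < (a : ℝ) + 1 := by positivity
    have h2 : (N : ℝ) * ((b : ℝ) + 1) ≤ k * ((a : ℝ) + 1) := by
      rw [ha1, hb1]
      have : (0 : ℝ) ≤ r := Nat.cast_nonneg _
      nlinarith
    have h3 : (N : ℝ) * ((a.choose b : ℕ) : ℝ) ≤ k * (((a + 1).choose (b + 1) : ℕ) : ℝ) := by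
      have h4 : ((a : ℝ) + 1) * (N * ((a.choose b : ℕ) : ℝ)) ≤
          ((a : ℝ) + 1) * (k * (((a + 1).choose (b + 1) : ℕ) : ℝ)) := by
        calc ((a : ℝ) + 1) * (N * ((a.choose b : ℕ) : ℝ)) =
              N * (((a : ℝ) + 1) * ((a.choose b : ℕ) : ℝ)) := by ring
          _ = (N * ((b : ℝ) + 1)) * (((a + 1).choose (b + 1) : ℕ) : ℝ) := by rw [h1']; ring
          _ ≤ (k * ((a : ℝ) + 1)) * (((a + 1).choose (b + 1) : ℕ) : ℝ) :=
              mul_le_mul_of_nonneg_right h2 (Nat.cast_nonneg _)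
          _ = _ := by ring
      exact le_of_mul_le_mul_left h4 ha0
    calc (((a.choose b : ℕ) : ℝ)) * (N : ℝ) ^ (r + 1) =
          (N * ((a.choose b : ℕ) : ℝ)) * (N : ℝ) ^ r := by ring
      _ ≤ (k * (((a + 1).choose (b + 1) : ℕ) : ℝ)) * (N : ℝ) ^ r :=
          mul_le_mul_of_nonneg_right h3 (by positivity)
      _ = k * ((((a + 1).choose (b + 1) : ℕ) : ℝ) * (N : ℝ) ^ r) := by ring
      _ ≤ k * ((k : ℝ) ^ r * ((N.choose k : ℕ) : ℝ)) :=
          mul_le_mul_of_nonneg_left ih' (Nat.cast_nonneg _)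
      _ = _ := by ring

theorem superset_count (J : Finset α) (k : ℕ) (Q : Finset α) (hQ : Q ⊆ J) :
    (((powersetCard k J).filter (fun I => Q ⊆ I)).card : ℝ) * (J.card : ℝ) ^ Q.card ≤
      (k : ℝ) ^ Q.card * ((J.card.choose k : ℕ) : ℝ) := by
  by_cases h : Q.card ≤ k ∧ k ≤ J.card
  · have h1 : ((powersetCard k J).filter (fun I => Q ⊆ I)).card ≤
        (J.card - Q.card).choose (k - Q.card) := by
      have h2 : (powersetCard (k - Q.card) (J \ Q)).card =
          (J.card - Q.card).choose (k - Q.card) := by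
        rw [card_powersetCard, card_sdiff_of_subset hQ]
      rw [← h2]
      apply card_le_card_of_injOn (fun I => I \ Q)
      · intro I hI
        rw [mem_coe, mem_filter, mem_powersetCard] at hI
        rw [mem_coe, mem_powersetCard]
        refine ⟨sdiff_subset_sdiff hI.1.1 (Subset.refl _), ?_⟩
        rw [card_sdiff_of_subset hI.2, hI.1.2]
      · intro I hI I' hI' he
        rw [mem_coe, mem_filter] at hI hI'
        have he' : I \ Q = I' \ Q := he
        rw [← sdiff_union_of_subset hI.2, ← sdiff_union_of_subset hI'.2, he']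
    have h3 : (((powersetCard k J).filter (fun I => Q ⊆ I)).card : ℝ) ≤
        (((J.card - Q.card).choose (k - Q.card) : ℕ) : ℝ) := by exact_mod_cast h1
    exact (mul_le_mul_of_nonneg_right h3 (by positivity)).trans
      (choose_step J.card k Q.card h.2 h.1)
  · have h1 : (powersetCard k J).filter (fun I => Q ⊆ I) = ∅ := by
      rw [filter_eq_empty_iff]
      intro I hI hQI
      rw [mem_powersetCard] at hI
      apply h
      have h2 := card_le_card hQI
      have h3 := card_le_card hI.1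
      omega
    rw [h1]
    simp only [card_empty, Nat.cast_zero, zero_mul]
    positivity

/-- negative correlation for sampling without replacement -/
theorem mgf (J : Finset α) (hJ : J.Nonempty) (k : ℕ) (l : α → ℝ) (hl : ∀ i ∈ J, 0 ≤ l i) :
    ∑ I ∈ powersetCard k J, ∏ i ∈ I, (1 + l i) ≤
      ((J.card.choose k : ℕ) : ℝ) * ∏ i ∈ J, (1 + (k : ℝ) / J.card * l i) := by
  have hN : (0 : ℝ) < J.card := by exact_mod_cast hJ.card_pos
  have h1 : ∑ I ∈ powersetCard k J, ∏ i ∈ I, (1 + l i) =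
      ∑ I ∈ powersetCard k J, ∑ Q ∈ J.powerset, if Q ⊆ I then ∏ i ∈ Q, l i else 0 := by
    refine sum_congr rfl fun I hI => ?_
    rw [prod_one_add, ← sum_filter]
    refine sum_congr ?_ fun _ _ => rfl
    ext Q
    rw [mem_filter, mem_powerset, mem_powerset]
    have := (mem_powersetCard.1 hI).1
    exact ⟨fun h => ⟨h.trans this, h⟩, fun h => h.2⟩
  rw [h1, sum_comm]
  have h2 : ∀ Q ∈ J.powerset, ∑ I ∈ powersetCard k J, (if Q ⊆ I then ∏ i ∈ Q, l i else 0) ≤
      ((J.card.choose k : ℕ) : ℝ) * ∏ i ∈ Q, ((k : ℝ) / J.card * l i) := by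
    intro Q hQ
    rw [mem_powerset] at hQ
    rw [← sum_filter, sum_const, nsmul_eq_mul, prod_mul_distrib, prod_const]
    have h3 := superset_count J k Q hQ
    have h4 : (((powersetCard k J).filter (fun I => Q ⊆ I)).card : ℝ) ≤
        ((J.card.choose k : ℕ) : ℝ) * ((k : ℝ) / J.card) ^ Q.card := by
      rw [div_pow, mul_div_assoc', le_div_iff₀ (by positivity)]
      linarith
    have h5 : 0 ≤ ∏ i ∈ Q, l i := prod_nonneg fun i hi => hl i (hQ hi)
    calc _ ≤ (((J.card.choose k : ℕ) : ℝ) * ((k : ℝ) / J.card) ^ Q.card) * ∏ i ∈ Q, l i :=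
          mul_le_mul_of_nonneg_right h4 h5
      _ = _ := by ring
  refine (sum_le_sum h2).trans ?_
  rw [← mul_sum, prod_one_add]

/-- few sets carry much more than the expected weight -/
theorem tail (J : Finset α) (hJ : J.Nonempty) (k : ℕ) (w : α → ℝ) (h0 : ∀ i ∈ J, 0 ≤ w i)
    (h1 : ∀ i ∈ J, w i ≤ 1) (t : ℝ) :
    (((powersetCard k J).filter (fun I => 2 * ((k : ℝ) / J.card) * ∑ i ∈ J, w i + t <
      ∑ i ∈ I, w i)).card : ℝ) ≤ Real.exp (-t) * ((J.card.choose k : ℕ) : ℝ) := by
  set m : ℝ := 2 * ((k : ℝ) / J.card) * ∑ i ∈ J, w i with hm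
  have hexp : ∀ i ∈ J, Real.exp (w i) ≤ 1 + 2 * w i := by
    intro i hi
    have hc := convexOn_exp.2 (Set.mem_univ (0 : ℝ)) (Set.mem_univ (1 : ℝ))
      (show 0 ≤ 1 - w i by linarith [h1 i hi]) (h0 i hi) (by ring)
    simp only [smul_eq_mul, mul_zero, mul_one, zero_add, Real.exp_zero] at hc
    have he : Real.exp 1 ≤ 3 := by
      have := Real.exp_one_lt_d9
      linarith
    have := h0 i hi
    nlinarith
  have hmg := mgf J hJ k (fun i => 2 * w i) (fun i hi => by have := h0 i hi; positivity)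
  have hprod : ∏ i ∈ J, (1 + (k : ℝ) / J.card * (2 * w i)) ≤ Real.exp m := by
    have e : m = ∑ i ∈ J, (k : ℝ) / J.card * (2 * w i) := by
      rw [hm, mul_sum]
      exact sum_congr rfl fun i _ => by ring
    rw [e, Real.exp_sum]
    refine prod_le_prod (fun i hi => ?_) fun i _ => ?_
    · have := h0 i hi
      positivity
    · have := Real.add_one_le_exp ((k : ℝ) / J.card * (2 * w i))
      linarith
  have h2 : ∑ I ∈ powersetCard k J, Real.exp (∑ i ∈ I, w i) ≤
      ((J.card.choose k : ℕ) : ℝ) * Real.exp m := by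
    refine le_trans (sum_le_sum fun I hI => ?_) (hmg.trans
      (mul_le_mul_of_nonneg_left hprod (Nat.cast_nonneg _)))
    rw [Real.exp_sum]
    exact prod_le_prod (fun _ _ => (Real.exp_pos _).le)
      fun i hi => hexp i ((mem_powersetCard.1 hI).1 hi)
  have h3 : (((powersetCard k J).filter (fun I => m + t < ∑ i ∈ I, w i)).card : ℝ) *
      Real.exp (m + t) ≤ ∑ I ∈ powersetCard k J, Real.exp (∑ i ∈ I, w i) := by
    rw [← nsmul_eq_mul, ← sum_const]
    refine le_trans (sum_le_sum fun I hI => ?_)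
      (sum_le_sum_of_subset_of_nonneg (filter_subset (fun I => m + t < ∑ i ∈ I, w i) _)
        fun _ _ _ => (Real.exp_pos _).le)
    exact Real.exp_le_exp.2 (mem_filter.1 hI).2.le
  have h4 := h3.trans h2
  rw [Real.exp_add] at h4
  have hem := Real.exp_pos m
  have h5 : (((powersetCard k J).filter (fun I => m + t < ∑ i ∈ I, w i)).card : ℝ) *
      Real.exp t ≤ ((J.card.choose k : ℕ) : ℝ) := by
    refine le_of_mul_le_mul_left ?_ hem
    linarith
  have h6 := mul_le_mul_of_nonneg_right h5 (Real.exp_pos (-t)).le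
  rw [mul_assoc, ← Real.exp_add, add_neg_cancel, Real.exp_zero, mul_one] at h6
  linarith

end Pool.Agent.N248.RC
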