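import Pool.Agent.N248.RC.Eng

set_option autoImplicit false
set_option linter.unusedSectionVars false

/-!
# From functions to weights
-/

namespace Pool.Agent.N248.RC

open Finset MeasureTheory

variable {Y : Type*} [MeasurableSpace Y] (μ : Measure Y) [IsFiniteMeasure μ]
  {V : Type*} [MeasurableSpace V] (ν : Measure V) {β : Type*} [Fintype β] [DecidableEq β]

/-- the alphabet of the samples -/
noncomputable def Xa (φ' : β → Y → ℂ) : Option (β × Fin 4) → Y → ℂ
  | none => fun _ => 0
  | some (b, j) => fun y => ph4 j * φ' b y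

theorem Xa_meas (φ' : β → Y → ℂ) (h : ∀ b, Measurable (φ' b)) (i : Option (β × Fin 4)) :
    Measurable (Xa φ' i) := by
  rcases i with _ | ⟨b, j⟩
  · exact measurable_const
  · exact (h b).const_mul _

theorem Xa_norm (φ' : β → Y → ℂ) (h : ∀ b y, ‖φ' b y‖ ≤ 1) (i : Option (β × Fin 4)) (y : Y) :
    ‖Xa φ' i y‖ ≤ 1 := by
  rcases i with _ | ⟨b, j⟩
  · simp [Xa]
  · simp only [Xa]
    rw [norm_mul, ph4_norm, one_mul]
    exact h b y

/-- the weights of a complex number -/
noncomputable def qq (z : ℂ) : Fin 4 → ℝ :=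
  ![max z.re 0 / Real.sqrt 2, max (-z.re) 0 / Real.sqrt 2, max z.im 0 / Real.sqrt 2,
    max (-z.im) 0 / Real.sqrt 2]

theorem qq_nonneg (z : ℂ) (j : Fin 4) : 0 ≤ qq z j := by
  fin_cases j <;> simp only [qq] <;> simp <;> positivity

theorem max_sub (a : ℝ) : max a 0 - max (-a) 0 = a := by
  rcases le_total 0 a with h | h
  · rw [max_eq_left h, max_eq_right (by linarith)]; ring
  · rw [max_eq_right h, max_eq_left (by linarith)]; ring

theorem max_add (a : ℝ) : max a 0 + max (-a) 0 = |a| := by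
  rcases le_total 0 a with h | h
  · rw [max_eq_left h, max_eq_right (by linarith), abs_of_nonneg h]; ring
  · rw [max_eq_right h, max_eq_left (by linarith), abs_of_nonpos h]; ring

theorem qq_sum (z : ℂ) : ∑ j, qq z j ≤ ‖z‖ := by
  have e : ∑ j, qq z j = (|z.re| + |z.im|) / Real.sqrt 2 := by
    rw [Fin.sum_univ_four]
    simp only [qq]
    simp only [Matrix.cons_val_zero, Matrix.cons_val_one, Matrix.cons_val]
    rw [← max_add z.re, ← max_add z.im]
    ring
  rw [e, div_le_iff₀ (by positivity)]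
  have hn : ‖z‖ ^ 2 = z.re ^ 2 + z.im ^ 2 := by
    rw [← Complex.normSq_eq_norm_sq, Complex.normSq_apply]; ring
  refine abs_le_of_sq_le_sq' ?_ (by positivity) |>.2
  rw [mul_pow, Real.sq_sqrt (by norm_num), hn, ← sq_abs z.re, ← sq_abs z.im]
  nlinarith [sq_nonneg (|z.re| - |z.im|)]

theorem qq_repr (z : ℂ) : ((Real.sqrt 2 : ℝ) : ℂ) * ∑ j, (qq z j : ℂ) * ph4 j = z := by
  have h2 : ((Real.sqrt 2 : ℝ) : ℂ) ≠ 0 := by
    have : (0 : ℝ) < Real.sqrt 2 := by positivity
    exact_mod_cast this.ne'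
  rw [Fin.sum_univ_four]
  simp only [qq, ph4]
  simp only [Matrix.cons_val_zero, Matrix.cons_val_one, Matrix.cons_val]
  have e1 : ((max z.re 0 : ℝ) : ℂ) - ((max (-z.re) 0 : ℝ) : ℂ) = (z.re : ℂ) := by
    exact_mod_cast congrArg (fun r : ℝ => (r : ℂ)) (max_sub z.re)
  have e2 : ((max z.im 0 : ℝ) : ℂ) - ((max (-z.im) 0 : ℝ) : ℂ) = (z.im : ℂ) := by
    exact_mod_cast congrArg (fun r : ℝ => (r : ℂ)) (max_sub z.im)
  have h3 : z = (z.re : ℂ) + (z.im : ℂ) * Complex.I := (Complex.re_add_im z).symm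
  conv_rhs => rw [h3, ← e1, ← e2]
  rw [Complex.ofReal_div, Complex.ofReal_div, Complex.ofReal_div, Complex.ofReal_div]
  field_simp
  ring

/-- the transform of `g` -/
noncomputable def tr (φ : V → Y → ℂ) (g : V → ℂ) (y : Y) : ℂ := ∫ x, g x * φ x y ∂ν

theorem weights (φ : V → Y → ℂ) (hφm : Measurable (Function.uncurry φ))
    (hφ : ∀ x y, ‖φ x y‖ ≤ 1) (φ' : β → Y → ℂ) (hφ' : ∀ b y, ‖φ' b y‖ ≤ 1)
    (π : V → β) (hπ : ∀ b, MeasurableSet (π ⁻¹' {b})) (D : Set V) (η : ℝ) (hη : 0 ≤ η)
    (hc : ∀ x ∈ D, ∀ y, ‖φ x y - φ' (π x) y‖ ≤ η) (g : V → ℂ) (hg : Integrable g ν)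
    (hg1 : ∫ x, ‖g x‖ ∂ν ≤ 1) (hgD : ∀ x, x ∉ D → g x = 0) :
    ∃ w : Option (β × Fin 4) → ℝ, (∀ i, 0 ≤ w i) ∧ ∑ i, w i = 1 ∧
      ∀ y, |‖tr ν φ g y‖ - Real.sqrt 2 * ‖avg w (Xa φ') y‖| ≤ η := by
  set z : β → ℂ := fun b => ∫ x in π ⁻¹' {b}, g x ∂ν with hz
  have hz1 : ∑ b, ‖z b‖ ≤ 1 := by
    refine le_trans ?_ hg1
    have h1 : ∑ b, ‖z b‖ ≤ ∑ b, ∫ x in π ⁻¹' {b}, ‖g x‖ ∂ν :=
      sum_le_sum fun b _ => norm_integral_le_integral_norm _
    refine h1.trans (le_of_eq ?_)
    have e : ∀ x, ‖g x‖ = ∑ b, (π ⁻¹' {b}).indicator (fun x => ‖g x‖) x := by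
      intro x
      rw [sum_eq_single (π x)]
      · rw [Set.indicator_of_mem (by simp)]
      · intro b _ hb
        exact Set.indicator_of_notMem (by simpa using hb.symm) _
      · intro h; exact absurd (mem_univ _) h
    rw [integral_congr_ae (Filter.Eventually.of_forall e),
      integral_finsetSum _ fun b _ => hg.norm.indicator (hπ b)]
    exact sum_congr rfl fun b _ => (integral_indicator (hπ b)).symm
  set w : Option (β × Fin 4) → ℝ := fun i => match i with
    | none => 1 - ∑ b, ∑ j, qq (z b) j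
    | some (b, j) => qq (z b) j with hw
  have hs1 : ∑ b, ∑ j, qq (z b) j ≤ 1 := (sum_le_sum fun b _ => qq_sum (z b)).trans hz1
  refine ⟨w, ?_, ?_, ?_⟩
  · intro i
    rcases i with _ | ⟨b, j⟩
    · simp only [hw]; linarith
    · exact qq_nonneg _ _
  · rw [Fintype.sum_option, Fintype.sum_prod_type]
    simp only [hw]
    ring
  · intro y
    have hT : ((Real.sqrt 2 : ℝ) : ℂ) * avg w (Xa φ') y = ∑ b, z b * φ' b y := by
      unfold avg
      rw [Fintype.sum_option, Fintype.sum_prod_type]
      simp only [hw, Xa, mul_zero, zero_add]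
      rw [mul_sum]
      refine sum_congr rfl fun b _ => ?_
      conv_rhs => rw [← qq_repr (z b)]
      rw [mul_assoc, sum_mul]
      congr 1
      exact sum_congr rfl fun j _ => by ring
    have hT2 : ∑ b, z b * φ' b y = ∫ x, g x * φ' (π x) y ∂ν := by
      have e : ∀ x, g x * φ' (π x) y = ∑ b, (π ⁻¹' {b}).indicator g x * φ' b y := by
        intro x
        rw [sum_eq_single (π x)]
        · rw [Set.indicator_of_mem (by simp)]
        · intro b _ hb
          rw [Set.indicator_of_notMem (by simpa using hb.symm), zero_mul]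
        · intro h; exact absurd (mem_univ _) h
      rw [integral_congr_ae (Filter.Eventually.of_forall e),
        integral_finsetSum _ fun b _ => (hg.indicator (hπ b)).mul_const _]
      refine sum_congr rfl fun b _ => ?_
      rw [integral_mul_const, integral_indicator (hπ b)]
    have hint1 : Integrable (fun x => g x * φ x y) ν := by
      refine hg.mul_bdd (c := 1) ?_ (Filter.Eventually.of_forall fun x => hφ x y)
      exact (hφm.comp (measurable_id.prodMk measurable_const)).aestronglyMeasurable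
    have hm' : Measurable fun x => φ' (π x) y := by
      letI : MeasurableSpace β := ⊤
      have h1 : Measurable π := measurable_to_countable' hπ
      have h2 : Measurable fun b : β => φ' b y := measurable_from_top
      exact h2.comp h1
    have hint2 : Integrable (fun x => g x * φ' (π x) y) ν :=
      hg.mul_bdd (c := 1) hm'.aestronglyMeasurable
        (Filter.Eventually.of_forall fun x => hφ' _ y)
    have hdiff : ‖tr ν φ g y - ∑ b, z b * φ' b y‖ ≤ η := by
      rw [hT2]
      unfold tr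
      rw [← integral_sub hint1 hint2]
      refine (norm_integral_le_integral_norm _).trans ?_
      have h1 : ∀ x, ‖g x * φ x y - g x * φ' (π x) y‖ ≤ ‖g x‖ * η := by
        intro x
        by_cases hx : x ∈ D
        · rw [← mul_sub, norm_mul]
          exact mul_le_mul_of_nonneg_left (hc x hx y) (norm_nonneg _)
        · rw [hgD x hx]
          simp
      refine (integral_mono_of_nonneg (Filter.Eventually.of_forall fun x => norm_nonneg _)
        (hg.norm.mul_const η) (Filter.Eventually.of_forall h1)).trans ?_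
      rw [integral_mul_const]
      exact mul_le_of_le_one_left hη hg1
    have hn : Real.sqrt 2 * ‖avg w (Xa φ') y‖ = ‖∑ b, z b * φ' b y‖ := by
      rw [← hT, norm_mul, Complex.norm_real, Real.norm_of_nonneg (by positivity)]
    rw [hn]
    exact (abs_norm_sub_norm_le _ _).trans hdiff

end Pool.Agent.N248.RC
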