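import Pool.Agent.N248.RC.Good

set_option autoImplicit false
set_option linter.unusedSectionVars false

/-!
# The engine: the restriction of a transform to a good union of cells
-/

namespace Pool.Agent.N248.RC

open Finset MeasureTheory

variable {Y : Type*} [MeasurableSpace Y] (μ : Measure Y) [IsFiniteMeasure μ]
  {ι : Type*} [Fintype ι] {α : Type*} [DecidableEq α]

/-- the sample sizes -/
noncomputable def mm (Lg : ℝ) (j : ℕ) : ℕ := Nat.ceil (4352 * 4 ^ (j + 1) * Lg)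

/-- the thresholds -/
noncomputable def tt (Lg Li a : ℝ) (j : ℕ) : ℝ := mm Lg j * Li + a

/-- good index sets -/
def GoodI (J : Finset α) (k : ℕ) (θ : α → Set Y) (κ : ℝ) (X : ι → Y → ℂ) (Lg Li a : ℝ)
    (I : Finset α) : Prop :=
  ∀ j < Nat.clog 4 k, GoodL μ J k θ κ X (mm Lg j) (11 / 20 * (1 / 2 : ℝ) ^ (j + 1)) (tt Lg Li a j) I

open Classical in
theorem good_count (J : Finset α) (hJ : J.Nonempty) (k : ℕ) (hk : 1 ≤ k) (θ : α → Set Y)
    (hθ : ∀ i ∈ J, MeasurableSet (θ i)) (hd : (J : Set α).PairwiseDisjoint θ) (κ : ℝ) (hκ : 0 < κ)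
    (hθκ : ∀ i ∈ J, μ.real (θ i) ≤ κ) (X : ι → Y → ℂ) (hX : ∀ i, Measurable (X i)) (Lg Li a : ℝ)
    (hLi : (Fintype.card ι : ℝ) ≤ Real.exp Li) :
    (((powersetCard k J).filter (fun I => ¬ GoodI μ J k θ κ X Lg Li a I)).card : ℝ) ≤
      k * Real.exp (-a) * ((J.card.choose k : ℕ) : ℝ) := by
  have hsub : (powersetCard k J).filter (fun I => ¬ GoodI μ J k θ κ X Lg Li a I) ⊆
      (range (Nat.clog 4 k)).biUnion fun j => (powersetCard k J).filter (fun I =>
        ¬ GoodL μ J k θ κ X (mm Lg j) (11 / 20 * (1 / 2 : ℝ) ^ (j + 1)) (tt Lg Li a j) I) := by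
    intro I hI
    rw [mem_filter] at hI
    obtain ⟨hI1, hI2⟩ := hI
    unfold GoodI at hI2
    push Not at hI2
    obtain ⟨j, hj, hj2⟩ := hI2
    rw [mem_biUnion]
    exact ⟨j, mem_range.2 hj, mem_filter.2 ⟨hI1, hj2⟩⟩
  have h1 : (((powersetCard k J).filter (fun I => ¬ GoodI μ J k θ κ X Lg Li a I)).card : ℝ) ≤
      ∑ j ∈ range (Nat.clog 4 k), (((powersetCard k J).filter (fun I =>
        ¬ GoodL μ J k θ κ X (mm Lg j) (11 / 20 * (1 / 2 : ℝ) ^ (j + 1))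
          (tt Lg Li a j) I)).card : ℝ) := by
    exact_mod_cast (card_le_card hsub).trans card_biUnion_le
  have hC : (0 : ℝ) ≤ ((J.card.choose k : ℕ) : ℝ) := Nat.cast_nonneg _
  have h2 : ∀ j ∈ range (Nat.clog 4 k), (((powersetCard k J).filter (fun I =>
        ¬ GoodL μ J k θ κ X (mm Lg j) (11 / 20 * (1 / 2 : ℝ) ^ (j + 1))
          (tt Lg Li a j) I)).card : ℝ) ≤ Real.exp (-a) * ((J.card.choose k : ℕ) : ℝ) := by
    intro j _
    refine (goodL_count μ J hJ k θ hθ hd κ hκ hθκ X hX (mm Lg j) _ _).trans ?_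
    refine mul_le_mul_of_nonneg_right ?_ hC
    have h3 : (Fintype.card ι : ℝ) ^ mm Lg j ≤ Real.exp (mm Lg j * Li) := by
      rw [Real.exp_nat_mul]
      exact pow_le_pow_left₀ (Nat.cast_nonneg _) hLi _
    calc (Fintype.card ι : ℝ) ^ mm Lg j * Real.exp (-tt Lg Li a j)
        ≤ Real.exp (mm Lg j * Li) * Real.exp (-tt Lg Li a j) :=
          mul_le_mul_of_nonneg_right h3 (Real.exp_pos _).le
      _ = Real.exp (-a) := by
          rw [← Real.exp_add]
          congr 1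
          unfold tt
          ring
  refine h1.trans ((sum_le_sum h2).trans ?_)
  rw [sum_const, card_range, nsmul_eq_mul, mul_assoc]
  refine mul_le_mul_of_nonneg_right ?_ (mul_nonneg (Real.exp_pos _).le hC)
  have : Nat.clog 4 k ≤ k := Nat.clog_le_of_le_pow (Nat.lt_pow_self (by norm_num)).le
  exact_mod_cast this

theorem pow_clog (k : ℕ) (hk : 1 ≤ k) :
    (2 : ℝ) ^ Nat.clog 4 k ≤ 2 * Real.sqrt k ∧ Real.sqrt k ≤ 2 ^ Nat.clog 4 k := by
  have h4 : ((2 : ℝ) ^ Nat.clog 4 k) ^ 2 = ((4 ^ Nat.clog 4 k : ℕ) : ℝ) := by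
    rw [← pow_mul, mul_comm, pow_mul]
    push_cast
    norm_num
  constructor
  · have h1 : 4 ^ Nat.clog 4 k ≤ 4 * k := by
      rcases Nat.lt_or_ge 1 k with h | h
      · have h2 := Nat.pow_pred_clog_lt_self (b := 4) (by norm_num) h
        have h3 : 1 ≤ Nat.clog 4 k := Nat.clog_pos (by norm_num) h
        obtain ⟨c, hc⟩ : ∃ c, Nat.clog 4 k = c + 1 := ⟨Nat.clog 4 k - 1, by omega⟩
        rw [hc] at h2 ⊢
        simp only [Nat.pred_succ] at h2
        rw [pow_succ]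
        omega
      · have : k = 1 := by omega
        subst this
        simp
    have h5 : (2 : ℝ) ^ Nat.clog 4 k ≤ Real.sqrt (4 * k) := by
      refine Real.le_sqrt_of_sq_le ?_
      rw [h4]
      exact_mod_cast h1
    refine h5.trans (le_of_eq ?_)
    rw [Real.sqrt_mul (by norm_num)]
    congr 1
    rw [show (4 : ℝ) = 2 ^ 2 by norm_num]
    exact Real.sqrt_sq (by norm_num)
  · refine Real.sqrt_le_iff.2 ⟨by positivity, ?_⟩
    rw [h4]
    exact_mod_cast Nat.le_pow_clog (by norm_num) k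

/-- **The engine.** -/
theorem engine (J : Finset α) (k : ℕ) (hk : 1 ≤ k) (θ : α → Set Y)
    (hθ : ∀ i ∈ J, MeasurableSet (θ i)) (κ : ℝ) (hκ : 0 < κ)
    (hθκ : ∀ i ∈ J, μ.real (θ i) ≤ κ) (X : ι → Y → ℂ) (hXm : ∀ i, Measurable (X i))
    (hX : ∀ i y, ‖X i y‖ ≤ 1) (Lg Li a : ℝ) (hLg : 1 ≤ Lg) (hLi : 0 ≤ Li) (ha : 0 ≤ a)
    (hexc : 4 * μ.real Set.univ * Real.exp (-Lg) ≤ κ)
    (I : Finset α) (hIJ : I ∈ powersetCard k J) (hI : GoodI μ J k θ κ X Lg Li a I)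
    (w : ι → ℝ) (hw : ∀ i, 0 ≤ w i) (hw1 : ∑ i, w i = 1) (G : Y → ℝ) (hGm : Measurable G)
    (hG0 : ∀ y, 0 ≤ G y) (hG1 : ∀ y, G y ≤ 1)
    (hG : ∀ y, |G y - Real.sqrt 2 * ‖avg w X y‖| ≤ 1 / (16 * Real.sqrt k)) :
    ∫ y in un θ I, G y ∂μ ≤ 16 * ((k : ℝ) / J.card) * ∫ y, G y ∂μ +
      κ * Real.sqrt k * (34824 * Lg * Li + 2 * a + 7) := by
  have hIJ' := mem_powersetCard.1 hIJ
  have hkJ : k ≤ J.card := hIJ'.2 ▸ card_le_card hIJ'.1
  have hk0 : (1 : ℝ) ≤ k := by exact_mod_cast hk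
  have hsk : 1 ≤ Real.sqrt k := Real.one_le_sqrt.2 hk0
  obtain ⟨hK1, hK2⟩ := pow_clog k hk
  set K := Nat.clog 4 k with hK
  have hhalf : (1 / 2 : ℝ) ^ K = ((2 : ℝ) ^ K)⁻¹ := by rw [one_div, inv_pow]
  have hSm : MeasurableSet (un θ I) := by
    unfold un
    exact Finset.measurableSet_biUnion _ fun i hi => hθ i (hIJ'.1 hi)
  have hlev : ∀ j < K, μ.real (un θ I ∩ {y | (1 / 2 : ℝ) ^ (j + 1) < G y}) ≤
      2 * ((k : ℝ) / J.card) * μ.real {y | (1 / 2 : ℝ) ^ (j + 1) / 2 < G y} +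
        κ * (tt Lg Li a j + 3) := by
    intro j hj
    have hm1 : (4352 * 4 ^ (j + 1) * Lg : ℝ) ≤ mm Lg j := Nat.le_ceil _
    have h41 : (1 : ℝ) ≤ 4 ^ (j + 1) := one_le_pow₀ (by norm_num)
    have hm0 : 1 ≤ mm Lg j := by
      have : (1 : ℝ) ≤ (mm Lg j : ℝ) := by nlinarith
      exact_mod_cast this
    refine level μ J k hkJ θ κ X hXm hX (mm Lg j) hm0 _ _ (by positivity) ?_ I (hI j hj) w hw hw1
      G fun y => (hG y).trans ?_
    · refine le_trans ?_ hexc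
      refine mul_le_mul_of_nonneg_left (Real.exp_le_exp.2 (neg_le_neg ?_)) (by positivity)
      have e : ((1 / 2 : ℝ) ^ (j + 1) / 16) ^ 2 = ((4 : ℝ) ^ (j + 1))⁻¹ / 256 := by
        rw [div_pow, ← pow_mul, mul_comm (j + 1) 2, pow_mul, ← inv_pow]
        norm_num
      rw [e]
      have h4p : (0 : ℝ) < 4 ^ (j + 1) := by positivity
      rw [show (mm Lg j : ℝ) * (((4 : ℝ) ^ (j + 1))⁻¹ / 256) / 17 =
        (mm Lg j : ℝ) / (4352 * 4 ^ (j + 1)) by field_simp; norm_num]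
      rw [le_div_iff₀ (by positivity)]
      linarith
    · have h1 : (1 / 2 : ℝ) ^ K ≤ (1 / 2 : ℝ) ^ (j + 1) :=
        pow_le_pow_of_le_one (by norm_num) (by norm_num) hj
      rw [hhalf] at h1
      have h2 : 1 / (16 * Real.sqrt k) ≤ ((2 : ℝ) ^ K)⁻¹ / 8 := by
        rw [div_le_div_iff₀ (by positivity) (by norm_num), inv_mul_eq_div,
          le_div_iff₀ (by positivity)]
        linarith
      linarith
  have hmain := sum_levels μ G hGm hG0 hG1 (un θ I) hSm K ((k : ℝ) / J.card) κ (by positivity)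
    (fun j => tt Lg Li a j + 3) hlev
  refine hmain.trans ?_
  have hsum : ∑ j ∈ range K, (1 / 2 : ℝ) ^ j * (tt Lg Li a j + 3) ≤
      34824 * Lg * Li * Real.sqrt k + (2 * a + 6) := by
    have h1 : ∀ j ∈ range K, (1 / 2 : ℝ) ^ j * (tt Lg Li a j + 3) ≤
        17412 * Lg * Li * 2 ^ j + (a + 3) * (1 / 2) ^ j := by
      intro j _
      have hm2 : (mm Lg j : ℝ) ≤ 4352 * 4 ^ (j + 1) * Lg + 1 := by
        have := Nat.ceil_lt_add_one (show (0 : ℝ) ≤ 4352 * 4 ^ (j + 1) * Lg by positivity)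
        exact this.le
      have h41 : (1 : ℝ) ≤ 4 ^ (j + 1) := one_le_pow₀ (by norm_num)
      have hm3 : (mm Lg j : ℝ) ≤ 17412 * Lg * 4 ^ j := by
        have : (1 : ℝ) ≤ 4 ^ (j + 1) * Lg := by nlinarith
        rw [pow_succ] at this hm2
        nlinarith
      have h5 : (1 / 2 : ℝ) ^ j * ((mm Lg j : ℝ) * Li) ≤ 17412 * Lg * Li * 2 ^ j := by
        calc (1 / 2 : ℝ) ^ j * ((mm Lg j : ℝ) * Li)
            ≤ (1 / 2 : ℝ) ^ j * (17412 * Lg * 4 ^ j * Li) := by gcongr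
          _ = 17412 * Lg * Li * ((1 / 2 : ℝ) ^ j * 4 ^ j) := by ring
          _ = _ := by rw [← mul_pow]; norm_num
      unfold tt
      calc (1 / 2 : ℝ) ^ j * ((mm Lg j : ℝ) * Li + a + 3)
          = (1 / 2 : ℝ) ^ j * ((mm Lg j : ℝ) * Li) + (a + 3) * (1 / 2) ^ j := by ring
        _ ≤ _ := by linarith
    refine (sum_le_sum h1).trans ?_
    rw [sum_add_distrib, ← mul_sum, ← mul_sum]
    have hg2 : ∑ j ∈ range K, (2 : ℝ) ^ j ≤ 2 * Real.sqrt k := by
      have := geom_sum_eq (show (2 : ℝ) ≠ 1 by norm_num) K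
      rw [this]
      linarith
    have hgh : ∑ j ∈ range K, (1 / 2 : ℝ) ^ j ≤ 2 := by
      have := geom_sum_eq (show (1 / 2 : ℝ) ≠ 1 by norm_num) K
      rw [this, div_le_iff_of_neg (by norm_num)]
      have : (0 : ℝ) < (1 / 2 : ℝ) ^ K := by positivity
      linarith
    have h2 := mul_le_mul_of_nonneg_left hg2 (show 0 ≤ 17412 * Lg * Li by positivity)
    have h3 := mul_le_mul_of_nonneg_left hgh (show 0 ≤ a + 3 by positivity)
    linarith
  have hμS : μ.real (un θ I) ≤ k * κ := by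
    have h1 := real_biUnion_le μ Set.univ θ I
    simp only [Set.inter_univ] at h1
    refine h1.trans ((sum_le_sum fun i hi => hθκ i (hIJ'.1 hi)).trans (le_of_eq ?_))
    rw [sum_const, nsmul_eq_mul, hIJ'.2]
  have htail : (1 / 2 : ℝ) ^ K * μ.real (un θ I) ≤ κ * Real.sqrt k := by
    calc (1 / 2 : ℝ) ^ K * μ.real (un θ I) ≤ (1 / 2 : ℝ) ^ K * (k * κ) :=
          mul_le_mul_of_nonneg_left hμS (by positivity)
      _ = κ * ((((2 : ℝ) ^ K)⁻¹ * Real.sqrt k) * Real.sqrt k) := by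
          rw [hhalf]
          have : (k : ℝ) = Real.sqrt k * Real.sqrt k := (Real.mul_self_sqrt (by positivity)).symm
          calc ((2 : ℝ) ^ K)⁻¹ * (k * κ) = ((2 : ℝ) ^ K)⁻¹ * κ * k := by ring
            _ = ((2 : ℝ) ^ K)⁻¹ * κ * (Real.sqrt k * Real.sqrt k) := by rw [← this]
            _ = _ := by ring
      _ ≤ κ * (1 * Real.sqrt k) := by
          refine mul_le_mul_of_nonneg_left (mul_le_mul_of_nonneg_right ?_ (by positivity)) hκ.le
          rw [inv_mul_le_iff₀ (by positivity), mul_one]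
          exact hK2
      _ = _ := by ring
  have h8 := mul_le_mul_of_nonneg_left hsum hκ.le
  have h9 : κ * (2 * a + 6) ≤ κ * Real.sqrt k * (2 * a + 6) := by
    have : 0 ≤ κ * (2 * a + 6) := by positivity
    nlinarith
  nlinarith

end Pool.Agent.N248.RC
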