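import Pool.Agent.N248.RC.App

set_option autoImplicit false
set_option linter.unusedSectionVars false

/-!
# Random unions of cells: the count
-/

namespace Pool.Agent.N248.RC

open Finset MeasureTheory

variable {d : ℕ} {Y : Type*} [MeasurableSpace Y] (μ : Measure Y) [IsFiniteMeasure μ]
  (Φ : Y → EuclideanSpace ℝ (Fin d))

/-- the conclusion for a set of cells -/
def GoodE (C R κ N k : ℝ) (S : Set Y) : Prop :=
  ∀ p : ℝ, 2 ≤ p → ∀ K : ℝ, 0 ≤ K → Wk μ (volume.restrict (Metric.ball 0 R)) (ker Φ) p K →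
    ∀ f : Y → ℂ, Measurable f → (∀ y, ‖f y‖ ≤ 1) → (∀ y, y ∉ S → f y = 0) →
      (∫ x in Metric.ball 0 R, ‖Eo μ (ker Φ) f x‖ ^ p) ^ (1 / p) ≤
        C * Real.log R ^ 2 * (k / N * K + Real.sqrt k * (κ ^ (1 - 1 / p) * R ^ (1 / p)))

theorem log_half (R : ℝ) (hR : 2 ≤ R) : 1 / 2 ≤ Real.log R := by
  have h1 : Real.log 2 ≤ Real.log R := Real.log_le_log (by norm_num) hR
  have h2 := Real.log_two_gt_d9
  linarith

theorem Li_bound (ρ0 : ℝ) (hρ0 : 0 ≤ ρ0) (B : ℝ) (R : ℝ) (hR : 2 ≤ R) (k : ℕ)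
    (hk : 1 ≤ k) (hkR : (k : ℝ) ≤ R ^ B) (ρ : ℝ)
    (hρ : ρ = 1 / (16 * (ρ0 + 1) * (d + 1) * Real.sqrt k)) :
    Real.log (((2 * (⌈R / ρ⌉₊ : ℝ) + 1) ^ d) * 4 + 1) ≤
      (2 * Real.log 5 + 2 * d * Real.log (80 * (ρ0 + 1) * (d + 1)) + d * (B + 1)) *
        Real.log R := by
  have hℓ := log_half R hR
  have hk1 : (1 : ℝ) ≤ k := by exact_mod_cast hk
  have hsk : 1 ≤ Real.sqrt k := Real.one_le_sqrt.2 hk1
  have hskk : Real.sqrt k ≤ k := Real.sqrt_le_iff.2 ⟨by linarith, by nlinarith⟩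
  have hd0 : (0 : ℝ) ≤ d := Nat.cast_nonneg d
  have hRρ : R / ρ = 16 * (ρ0 + 1) * (d + 1) * Real.sqrt k * R := by
    rw [hρ]
    field_simp
  have hc2 : (1 : ℝ) ≤ 80 * (ρ0 + 1) * (d + 1) := by nlinarith [mul_nonneg hρ0 hd0]
  have h1 : 1 ≤ R / ρ := by
    rw [hRρ]
    have h2 : (1 : ℝ) ≤ 16 * (ρ0 + 1) * (d + 1) := by nlinarith [mul_nonneg hρ0 hd0]
    have h3 : 1 ≤ 16 * (ρ0 + 1) * (d + 1) * Real.sqrt k := one_le_mul_of_one_le_of_one_le h2 hsk
    exact one_le_mul_of_one_le_of_one_le h3 (by linarith)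
  have hM : (⌈R / ρ⌉₊ : ℝ) ≤ R / ρ + 1 := (Nat.ceil_lt_add_one (by linarith)).le
  set u : ℝ := 2 * (⌈R / ρ⌉₊ : ℝ) + 1 with hu
  have hu1 : 1 ≤ u := by
    have : (0 : ℝ) ≤ (⌈R / ρ⌉₊ : ℝ) := Nat.cast_nonneg _
    linarith
  have hu2 : u ≤ (80 * (ρ0 + 1) * (d + 1)) * (R ^ B * R) := by
    have h4 : u ≤ 5 * (R / ρ) := by linarith
    refine h4.trans ?_
    rw [hRρ]
    have h5 : Real.sqrt k ≤ R ^ B := hskk.trans hkR
    have h6 : Real.sqrt k * R ≤ R ^ B * R := mul_le_mul_of_nonneg_right h5 (by linarith)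
    calc 5 * (16 * (ρ0 + 1) * (d + 1) * Real.sqrt k * R) =
        (80 * (ρ0 + 1) * (d + 1)) * (Real.sqrt k * R) := by ring
      _ ≤ _ := mul_le_mul_of_nonneg_left h6 (by linarith)
  have hlu : Real.log u ≤ Real.log (80 * (ρ0 + 1) * (d + 1)) + (B + 1) * Real.log R := by
    refine (Real.log_le_log (by linarith) hu2).trans (le_of_eq ?_)
    have hR0 : (0 : ℝ) < R := by linarith
    rw [Real.log_mul (by linarith) (by positivity), Real.log_mul (by positivity) hR0.ne',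
      Real.log_rpow hR0]
    ring
  have hud : 1 ≤ u ^ d := one_le_pow₀ hu1
  have h7 : Real.log (u ^ d * 4 + 1) ≤ Real.log 5 + d * Real.log u := by
    have h8 : u ^ d * 4 + 1 ≤ 5 * u ^ d := by linarith
    refine (Real.log_le_log (by positivity) h8).trans (le_of_eq ?_)
    rw [Real.log_mul (by norm_num) (by positivity), Real.log_pow]
  have hl5 : 0 ≤ Real.log 5 := Real.log_nonneg (by norm_num)
  have hlc : 0 ≤ Real.log (80 * (ρ0 + 1) * (d + 1)) := Real.log_nonneg hc2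
  have h9 : (d : ℝ) * Real.log u ≤
      d * (Real.log (80 * (ρ0 + 1) * (d + 1)) + (B + 1) * Real.log R) :=
    mul_le_mul_of_nonneg_left hlu hd0
  refine h7.trans ((add_le_add_right h9 _).trans ?_)
  have h10 : Real.log 5 ≤ 2 * Real.log 5 * Real.log R := by nlinarith
  have h11 : (d : ℝ) * Real.log (80 * (ρ0 + 1) * (d + 1)) ≤
      2 * d * Real.log (80 * (ρ0 + 1) * (d + 1)) * Real.log R := by
    have : 0 ≤ (d : ℝ) * Real.log (80 * (ρ0 + 1) * (d + 1)) := mul_nonneg hd0 hlc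
    nlinarith
  calc Real.log 5 + d * (Real.log (80 * (ρ0 + 1) * (d + 1)) + (B + 1) * Real.log R) =
      Real.log 5 + d * Real.log (80 * (ρ0 + 1) * (d + 1)) + d * (B + 1) * Real.log R := by ring
    _ ≤ 2 * Real.log 5 * Real.log R + 2 * d * Real.log (80 * (ρ0 + 1) * (d + 1)) * Real.log R +
        d * (B + 1) * Real.log R := by linarith
    _ = _ := by ring

theorem clog_bound (B : ℝ) (hB : 0 ≤ B) (R : ℝ) (hR : 2 ≤ R) (k : ℕ) (hk : 1 ≤ k)
    (hkR : (k : ℝ) ≤ R ^ B) : ((Nat.clog 4 k : ℕ) : ℝ) + 1 ≤ (12 + 4 * B) * Real.log R ^ 2 := by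
  have hℓ := log_half R hR
  have hR0 : (0 : ℝ) < R := by linarith
  have hk1 : (1 : ℝ) ≤ k := by exact_mod_cast hk
  have hskk : Real.sqrt k ≤ k := Real.sqrt_le_iff.2 ⟨by linarith, by nlinarith⟩
  have h1 := (pow_clog k hk).1
  set m : ℕ := Nat.clog 4 k with hm
  have h2 : (2 : ℝ) ^ m ≤ 2 * R ^ B := by
    refine h1.trans ?_
    linarith
  have h3 : (m : ℝ) * Real.log 2 ≤ Real.log 2 + B * Real.log R := by
    have h4 := Real.log_le_log (by positivity) h2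
    rw [Real.log_pow, Real.log_mul (by norm_num) (by positivity), Real.log_rpow hR0] at h4
    exact h4
  have hl2 := Real.log_two_gt_d9
  have hl2' := Real.log_two_lt_d9
  have hm0 : (0 : ℝ) ≤ m := Nat.cast_nonneg m
  have hBℓ : 0 ≤ B * Real.log R := mul_nonneg hB (by linarith)
  have h5 : (m : ℝ) ≤ 2 + 2 * (B * Real.log R) := by
    have h6 : (m : ℝ) * (1 / 2) ≤ m * Real.log 2 := mul_le_mul_of_nonneg_left (by linarith) hm0
    linarith
  have h7 : Real.log R ≤ 2 * Real.log R ^ 2 := by nlinarith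
  have h8 : (1 : ℝ) ≤ 4 * Real.log R ^ 2 := by nlinarith
  nlinarith

open Classical in
/-- **Random unions of cells.** -/
theorem gen (hΦ : Measurable Φ) (ρ0 : ℝ) (hρ0 : 0 ≤ ρ0) (hΦb : ∀ y, ‖Φ y‖ ≤ ρ0) (B0 : ℝ)
    (hB0 : 0 ≤ B0) (A B : ℝ) (hA : 0 ≤ A) (hB : 0 ≤ B) :
    ∃ C : ℝ, 0 ≤ C ∧ ∀ R : ℝ, 2 ≤ R → Lt μ Φ R B0 → ∀ (κ : ℝ), R ^ (-B) ≤ κ →
      ∀ (α : Type) (J : Finset α) (k : ℕ)
      (θ : α → Set Y), 1 ≤ k → k ≤ J.card → (J.card : ℝ) ≤ R ^ B →
      (∀ i ∈ J, MeasurableSet (θ i)) → ((J : Set α).PairwiseDisjoint θ) →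
      (∀ i ∈ J, μ.real (θ i) ≤ κ) →
      (((powersetCard k J).filter (fun I => ¬ GoodE μ Φ C R κ J.card k (un θ I))).card : ℝ) ≤
        R ^ (-A) * ((J.card.choose k : ℕ) : ℝ) := by
  set C1 : ℝ := 2 * Real.log 5 + 2 * d * Real.log (80 * (ρ0 + 1) * (d + 1)) + d * (B + 1) with hC1
  set C2 : ℝ := 2 + 2 * Real.log (4 * μ.real Set.univ + 1) + B with hC2
  have hd0 : (0 : ℝ) ≤ d := Nat.cast_nonneg d
  have hμ0 : 0 ≤ μ.real Set.univ := measureReal_nonneg
  have hl5 : 0 ≤ Real.log 5 := Real.log_nonneg (by norm_num)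
  have hlc : 0 ≤ Real.log (80 * (ρ0 + 1) * (d + 1)) :=
    Real.log_nonneg (by nlinarith [mul_nonneg hρ0 hd0])
  have hlμ : 0 ≤ Real.log (4 * μ.real Set.univ + 1) := Real.log_nonneg (by linarith)
  have hC10 : 0 ≤ C1 := by positivity
  have hC20 : 0 ≤ C2 := by positivity
  set C3 : ℝ := 34824 * (C2 * C1) + 4 * (A + B) + 28 with hC3
  have hC30 : 0 ≤ C3 := by positivity
  refine ⟨64 * (12 + 4 * B) + 2 * C3 * (B0 + 1), by positivity, ?_⟩
  intro R hR hLt κ hκB α J k θ hk hkJ hJB hθ hdisj hθκ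
  have hℓ := log_half R hR
  have hR0 : (0 : ℝ) < R := by linarith
  have hk1 : (1 : ℝ) ≤ k := by exact_mod_cast hk
  have hkR : (k : ℝ) ≤ R ^ B := le_trans (by exact_mod_cast hkJ) hJB
  have hN0 : (0 : ℝ) < J.card := by
    have : 0 < J.card := by omega
    exact_mod_cast this
  have hJne : J.Nonempty := Finset.card_pos.1 (by omega)
  have hκ : 0 < κ := (Real.rpow_pos_of_pos hR0 _).trans_le hκB
  set ρ : ℝ := 1 / (16 * (ρ0 + 1) * (d + 1) * Real.sqrt k) with hρd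
  have hsk : 1 ≤ Real.sqrt k := Real.one_le_sqrt.2 hk1
  have hρ : 0 < ρ := by positivity
  set M : ℕ := ⌈R / ρ⌉₊ with hMd
  have hM : R ≤ M * ρ := by
    rw [← div_le_iff₀ hρ]
    exact Nat.le_ceil _
  have hρk : ρ0 * (d * ρ) ≤ 1 / (16 * Real.sqrt k) := by
    rw [hρd]
    have e : ρ0 * (d * (1 / (16 * (ρ0 + 1) * (d + 1) * Real.sqrt k))) =
        (ρ0 / (ρ0 + 1)) * (d / (d + 1)) * (1 / (16 * Real.sqrt k)) := by
      field_simp
    rw [e]
    have h1 : ρ0 / (ρ0 + 1) ≤ 1 := by rw [div_le_one (by linarith)]; linarith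
    have h2 : (d : ℝ) / (d + 1) ≤ 1 := by rw [div_le_one (by linarith)]; linarith
    refine mul_le_of_le_one_left (by positivity) ?_
    exact mul_le_one₀ h1 (by positivity) h2
  set Li : ℝ := Real.log (((2 * (M : ℝ) + 1) ^ d) * 4 + 1) with hLid
  have hLi0 : 0 ≤ Li := by
    refine Real.log_nonneg ?_
    have : (0 : ℝ) ≤ (2 * (M : ℝ) + 1) ^ d := by positivity
    linarith
  have hcard : ((Fintype.card (Option ((Fin d → Fin (2 * M + 1)) × Fin 4)) : ℕ) : ℝ) ≤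
      Real.exp Li := by
    rw [hLid, Real.exp_log (by positivity), Fintype.card_option, Fintype.card_prod,
      Fintype.card_fin, Fintype.card_fun, Fintype.card_fin, Fintype.card_fin]
    push_cast
    exact le_rfl
  set Lg : ℝ := 1 + Real.log (4 * μ.real Set.univ + 1) + B * Real.log R with hLgd
  have hsℓ : 0 ≤ B * Real.log R := mul_nonneg hB (by linarith)
  have hLg1 : 1 ≤ Lg := by linarith
  set a : ℝ := (A + B) * Real.log R with had
  have ha : 0 ≤ a := mul_nonneg (by linarith) (by linarith)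
  have hexc : 4 * μ.real Set.univ * Real.exp (-Lg) ≤ κ := by
    have e : Real.exp (-Lg) = Real.exp (-1) * (4 * μ.real Set.univ + 1)⁻¹ * R ^ (-B) := by
      rw [hLgd, neg_add, neg_add, Real.exp_add, Real.exp_add, Real.exp_neg (Real.log _),
        Real.exp_log (by linarith), Real.rpow_def_of_pos hR0]
      congr 2
      ring
    rw [e]
    refine le_trans ?_ hκB
    have hκ : 0 < R ^ (-B) := Real.rpow_pos_of_pos hR0 _
    have h1 : Real.exp (-1) ≤ 1 := Real.exp_le_one_iff.2 (by norm_num)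
    have h2 : 4 * μ.real Set.univ * (4 * μ.real Set.univ + 1)⁻¹ ≤ 1 := by
      rw [← div_eq_mul_inv, div_le_one (by linarith)]
      linarith
    calc 4 * μ.real Set.univ * (Real.exp (-1) * (4 * μ.real Set.univ + 1)⁻¹ * R ^ (-B))
        = Real.exp (-1) * (4 * μ.real Set.univ * (4 * μ.real Set.univ + 1)⁻¹) * R ^ (-B) := by ring
      _ ≤ 1 * R ^ (-B) := by
          refine mul_le_mul_of_nonneg_right ?_ hκ.le
          exact mul_le_one₀ h1 (by positivity) h2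
      _ = R ^ (-B) := one_mul _
  have hLile : Li ≤ C1 * Real.log R := Li_bound ρ0 hρ0 B R hR k hk hkR ρ hρd
  have hLgle : Lg ≤ C2 * Real.log R := by
    rw [hLgd, hC2]
    nlinarith
  set Λ : ℝ := 34824 * Lg * Li + 2 * a + 7 with hΛd
  have hΛ1 : 1 ≤ Λ := by
    have : 0 ≤ 34824 * Lg * Li := by positivity
    linarith
  have hΛle : Λ ≤ C3 * Real.log R ^ 2 := by
    have h1 : Lg * Li ≤ (C2 * Real.log R) * (C1 * Real.log R) :=
      mul_le_mul hLgle hLile hLi0 (mul_nonneg hC20 (by linarith))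
    have h2 : a ≤ 2 * (A + B) * Real.log R ^ 2 := by
      have h3 : Real.log R ≤ 2 * Real.log R ^ 2 := by nlinarith
      calc a ≤ (A + B) * (2 * Real.log R ^ 2) := mul_le_mul_of_nonneg_left h3 (by linarith)
        _ = _ := by ring
    have h4 : (7 : ℝ) ≤ 28 * Real.log R ^ 2 := by nlinarith
    rw [hΛd, hC3]
    nlinarith
  have hgc := good_count μ J hJne k hk θ hθ hdisj κ hκ hθκ (Al Φ ρ M) (Al_meas Φ hΦ ρ M) Lg Li a
    hcard
  have hbad : (k : ℝ) * Real.exp (-a) ≤ R ^ (-A) := by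
    have e : Real.exp (-a) = R ^ (-(A + B)) := by
      rw [Real.rpow_def_of_pos hR0, had]
      congr 1
      ring
    rw [e]
    calc (k : ℝ) * R ^ (-(A + B)) ≤ R ^ B * R ^ (-(A + B)) :=
          mul_le_mul_of_nonneg_right hkR (by positivity)
      _ = R ^ (-A) := by
          rw [← Real.rpow_add hR0]
          congr 1
          ring
  refine le_trans ?_ (hgc.trans (mul_le_mul_of_nonneg_right hbad (Nat.cast_nonneg _)))
  refine Nat.cast_le.2 (Finset.card_le_card ?_)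
  intro I hI
  rw [Finset.mem_filter] at hI ⊢
  refine ⟨hI.1, fun hgood => hI.2 ?_⟩
  have hIJ := Finset.mem_powersetCard.1 hI.1
  have hRs := rs_of_good μ Φ hΦ ρ0 hρ0 hΦb J k hk θ hθ κ hκ hθκ R ρ hρ M hM hρk Lg Li a hLg1 hLi0
    ha hexc I hI.1 hgood
  have hSm : MeasurableSet (un θ I) := by
    unfold un
    exact Finset.measurableSet_biUnion _ fun i hi => hθ i (hIJ.1 hi)
  have hμS : μ.real (un θ I) ≤ k * κ := by
    unfold un
    refine (measureReal_biUnion_finset_le I θ).trans ?_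
    refine (Finset.sum_le_sum fun i hi => hθκ i (hIJ.1 hi)).trans (le_of_eq ?_)
    rw [Finset.sum_const, hIJ.2, nsmul_eq_mul]
  intro p hp K hK hW f hf hf1 hfS
  have hmain := norm_of_rs μ Φ hΦ R hR0 B0 hB0 hLt (un θ I) hSm k J.card (Nat.clog 4 k) hk1 hN0
    (pow_clog k hk).2 κ hκ Λ hΛ1 hRs hμS p hp K hK hW f hf hf1 hfS
  refine hmain.trans ?_
  have hm := clog_bound B hB R hR k hk hkR
  have hx : 0 ≤ (k : ℝ) / J.card * K := by positivity
  have hy : 0 ≤ Real.sqrt k * (κ ^ (1 - 1 / p) * R ^ (1 / p)) := by positivity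
  have h1 : 64 * (((Nat.clog 4 k : ℕ) : ℝ) + 1) * (k / J.card * K) ≤
      64 * ((12 + 4 * B) * Real.log R ^ 2) * (k / J.card * K) :=
    mul_le_mul_of_nonneg_right (by linarith) hx
  have h2 : 2 * Λ * (B0 + 1) * (Real.sqrt k * (κ ^ (1 - 1 / p) * R ^ (1 / p))) ≤
      2 * (C3 * Real.log R ^ 2) * (B0 + 1) * (Real.sqrt k * (κ ^ (1 - 1 / p) * R ^ (1 / p))) := by
    refine mul_le_mul_of_nonneg_right ?_ hy
    exact mul_le_mul_of_nonneg_right (by linarith) (by linarith)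
  have h3 : 0 ≤ 2 * C3 * (B0 + 1) * Real.log R ^ 2 * (k / J.card * K) := by positivity
  have h4 : 0 ≤ 64 * (12 + 4 * B) * Real.log R ^ 2 *
      (Real.sqrt k * (κ ^ (1 - 1 / p) * R ^ (1 / p))) := by positivity
  calc _ ≤ 64 * ((12 + 4 * B) * Real.log R ^ 2) * (k / J.card * K) +
      2 * (C3 * Real.log R ^ 2) * (B0 + 1) * (Real.sqrt k * (κ ^ (1 - 1 / p) * R ^ (1 / p))) :=
        add_le_add h1 h2
    _ ≤ _ := by
        have e : (64 * (12 + 4 * B) + 2 * C3 * (B0 + 1)) * Real.log R ^ 2 *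
          (k / J.card * K + Real.sqrt k * (κ ^ (1 - 1 / p) * R ^ (1 / p))) =
          64 * ((12 + 4 * B) * Real.log R ^ 2) * (k / J.card * K) +
          2 * (C3 * Real.log R ^ 2) * (B0 + 1) * (Real.sqrt k * (κ ^ (1 - 1 / p) * R ^ (1 / p))) +
          (2 * C3 * (B0 + 1) * Real.log R ^ 2 * (k / J.card * K) + 64 * (12 + 4 * B) *
            Real.log R ^ 2 * (Real.sqrt k * (κ ^ (1 - 1 / p) * R ^ (1 / p)))) := by ring
        rw [e]
        linarith

end Pool.Agent.N248.RC
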