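import Mathlib

set_option autoImplicit false
set_option linter.unusedSectionVars false

/-!
# Approximating an average by a short sample, outside a small set
-/

namespace Pool.Agent.N248.RC

open Finset MeasureTheory

/-- the four phases -/
noncomputable def ph4 : Fin 4 → ℂ := ![1, -1, Complex.I, -Complex.I]

theorem ph4_norm (j : Fin 4) : ‖ph4 j‖ = 1 := by
  fin_cases j <;> simp [ph4]

theorem exists_ph4 (z : ℂ) : ∃ j, 7 / 10 * ‖z‖ ≤ (ph4 j * z).re := by
  have hn : ‖z‖ ^ 2 = z.re ^ 2 + z.im ^ 2 := by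
    rw [← Complex.normSq_eq_norm_sq, Complex.normSq_apply]; ring
  have hz0 := norm_nonneg z
  have key : ∀ m : ℝ, 0 ≤ m → z.re ^ 2 ≤ m ^ 2 → z.im ^ 2 ≤ m ^ 2 → 7 / 10 * ‖z‖ ≤ m := by
    intro m hm h1 h2
    have : (7 / 10 * ‖z‖) ^ 2 ≤ m ^ 2 := by
      rw [mul_pow, hn]
      nlinarith [sq_nonneg m]
    exact (abs_le_of_sq_le_sq' this hm).2
  rcases le_total |z.im| |z.re| with h | h
  · have h' : z.im ^ 2 ≤ z.re ^ 2 := sq_le_sq.2 h
    rcases le_total 0 z.re with h0 | h0
    · refine ⟨0, ?_⟩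
      have e : (ph4 0 * z).re = z.re := by simp [ph4]
      rw [e]
      exact key _ h0 le_rfl h'
    · refine ⟨1, ?_⟩
      have e : (ph4 1 * z).re = -z.re := by simp [ph4]
      rw [e]
      exact key _ (by linarith) (by rw [neg_sq]) (by rw [neg_sq]; exact h')
  · have h' : z.re ^ 2 ≤ z.im ^ 2 := sq_le_sq.2 h
    rcases le_total 0 z.im with h0 | h0
    · refine ⟨3, ?_⟩
      have e : (ph4 3 * z).re = z.im := by simp [ph4]
      rw [e]
      exact key _ h0 h' le_rfl
    · refine ⟨2, ?_⟩
      have e : (ph4 2 * z).re = -z.im := by simp [ph4]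
      rw [e]
      exact key _ (by linarith) (by rw [neg_sq]; exact h') (by rw [neg_sq])

section

variable {Y : Type*} [MeasurableSpace Y] (μ : Measure Y) [IsFiniteMeasure μ]
  {ι : Type*} [Fintype ι]

theorem hoeffw (w : ι → ℝ) (hw : ∀ i, 0 ≤ w i) (hw1 : ∑ i, w i = 1) (x : ι → ℝ) (c lam : ℝ)
    (hc : 0 < c) (hx : ∀ i, |x i| ≤ c) (h0 : ∑ i, w i * x i = 0) :
    ∑ i, w i * Real.exp (lam * x i) ≤ Real.exp ((lam * c) ^ 2 / 2) := by
  have h1 : ∀ i, w i * Real.exp (lam * x i) ≤ w i * Real.cosh (lam * c) +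
      (w i * x i) * ((Real.exp (lam * c) - Real.exp (-(lam * c))) / (2 * c)) := by
    intro i
    have hxi := abs_le.1 (hx i)
    have hconv := convexOn_exp.2 (Set.mem_univ (lam * c)) (Set.mem_univ (-(lam * c)))
      (show 0 ≤ (c + x i) / (2 * c) by apply div_nonneg <;> linarith)
      (show 0 ≤ (c - x i) / (2 * c) by apply div_nonneg <;> linarith)
      (show (c + x i) / (2 * c) + (c - x i) / (2 * c) = 1 by field_simp; ring)
    simp only [smul_eq_mul] at hconv
    have e1 : (c + x i) / (2 * c) * (lam * c) + (c - x i) / (2 * c) * -(lam * c) = lam * x i := by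
      field_simp
      ring
    rw [e1] at hconv
    refine (mul_le_mul_of_nonneg_left hconv (hw i)).trans (le_of_eq ?_)
    rw [Real.cosh_eq]
    field_simp
    ring
  refine (sum_le_sum fun i _ => h1 i).trans ?_
  rw [sum_add_distrib, ← sum_mul, ← sum_mul, h0, zero_mul, add_zero, hw1, one_mul]
  exact Real.cosh_le_exp_half_sq _

/-- the weighted average -/
noncomputable def avg (w : ι → ℝ) (X : ι → Y → ℂ) (y : Y) : ℂ := ∑ i, (w i : ℂ) * X i y

/-- the potential of a partial sum -/
noncomputable def pot (lam : ℝ) (S : Y → ℂ) (y : Y) : ℝ :=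
  ∑ j : Fin 4, Real.exp (lam * (ph4 j * S y).re)

theorem pot_meas (lam : ℝ) (S : Y → ℂ) (hS : Measurable S) : Measurable (pot lam S) := by
  unfold pot
  refine Finset.measurable_sum _ fun j _ => ?_
  exact (((Complex.measurable_re.comp (hS.const_mul _)).const_mul lam)).exp

theorem pot_nonneg (lam : ℝ) (S : Y → ℂ) (y : Y) : 0 ≤ pot lam S y :=
  sum_nonneg fun _ _ => (Real.exp_pos _).le

theorem pot_le (lam : ℝ) (hl : 0 ≤ lam) (S : Y → ℂ) (B : ℝ) (hB : ∀ y, ‖S y‖ ≤ B) (y : Y) :
    pot lam S y ≤ 4 * Real.exp (lam * B) := by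
  unfold pot
  refine (sum_le_sum (g := fun _ => Real.exp (lam * B)) fun j _ => ?_).trans (le_of_eq (by simp))
  refine Real.exp_le_exp.2 (mul_le_mul_of_nonneg_left ?_ hl)
  refine (Complex.re_le_norm _).trans ?_
  rw [norm_mul, ph4_norm, one_mul]
  exact hB y

theorem pot_int (lam : ℝ) (hl : 0 ≤ lam) (S : Y → ℂ) (hS : Measurable S) (B : ℝ)
    (hB : ∀ y, ‖S y‖ ≤ B) : Integrable (pot lam S) μ := by
  refine Integrable.mono' (integrable_const (4 * Real.exp (lam * B)))
    (pot_meas lam S hS).aestronglyMeasurable (Filter.Eventually.of_forall fun y => ?_)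
  rw [Real.norm_of_nonneg (pot_nonneg lam S y)]
  exact pot_le lam hl S B hB y

theorem greedy (w : ι → ℝ) (hw : ∀ i, 0 ≤ w i) (hw1 : ∑ i, w i = 1) (X : ι → Y → ℂ)
    (hXm : ∀ i, Measurable (X i)) (hX : ∀ i y, ‖X i y‖ ≤ 1) (lam : ℝ) (hl : 0 ≤ lam) (m : ℕ) :
    ∃ f : Fin m → ι, ∫ y, pot lam (fun y => ∑ l, (X (f l) y - avg w X y)) y ∂μ ≤
      4 * μ.real Set.univ * Real.exp (2 * lam ^ 2 * m) := by
  have ham : Measurable (avg w X) := by
    unfold avg
    exact Finset.measurable_sum _ fun i _ => (hXm i).const_mul _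
  have hab : ∀ y, ‖avg w X y‖ ≤ 1 := by
    intro y
    unfold avg
    refine (norm_sum_le _ _).trans ?_
    rw [← hw1]
    refine sum_le_sum fun i _ => ?_
    rw [norm_mul, Complex.norm_real, Real.norm_of_nonneg (hw i)]
    exact mul_le_of_le_one_right (hw i) (hX i y)
  have hdm : ∀ i, Measurable fun y => X i y - avg w X y := fun i => (hXm i).sub ham
  have hdb : ∀ i y, ‖X i y - avg w X y‖ ≤ 2 := fun i y => by
    refine (norm_sub_le _ _).trans ?_
    have := hX i y
    have := hab y
    linarith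
  have hd0 : ∀ y, ∑ i, (w i : ℂ) * (X i y - avg w X y) = 0 := by
    intro y
    have e : ∑ i, (w i : ℂ) = 1 := by exact_mod_cast hw1
    simp only [mul_sub]
    rw [sum_sub_distrib, ← sum_mul, e, one_mul]
    unfold avg
    rw [sub_self]
  have hSb : ∀ (k : ℕ) (f : Fin k → ι) (y : Y), ‖∑ l, (X (f l) y - avg w X y)‖ ≤ 2 * k := by
    intro k f y
    refine (norm_sum_le _ _).trans ?_
    refine (sum_le_sum fun l _ => hdb (f l) y).trans (le_of_eq ?_)
    rw [sum_const, card_univ, Fintype.card_fin, nsmul_eq_mul]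
    ring
  have hSm : ∀ (k : ℕ) (f : Fin k → ι), Measurable fun y => ∑ l, (X (f l) y - avg w X y) :=
    fun k f => Finset.measurable_sum _ fun l _ => hdm (f l)
  induction m with
  | zero =>
    refine ⟨fun l => l.elim0, ?_⟩
    have : ∀ y : Y, pot lam (fun _ => (0 : ℂ)) y = 4 := fun y => by simp [pot]
    simp only [Finset.univ_eq_empty, Finset.sum_empty, this]
    rw [integral_const, smul_eq_mul]
    simp
    linarith
  | succ m ih =>
    obtain ⟨f, hf⟩ := ih
    set S : Y → ℂ := fun y => ∑ l, (X (f l) y - avg w X y) with hS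
    have hSint := pot_int μ lam hl S (hSm m f) (2 * m) (hSb m f)
    have hint : ∀ i, Integrable (pot lam fun y => (X i y - avg w X y) + S y) μ := fun i =>
      pot_int μ lam hl _ ((hdm i).add (hSm m f)) (2 * m + 2) fun y => by
        refine (norm_add_le _ _).trans ?_
        have := hdb i y
        have := hSb m f y
        simp only [hS]
        linarith
    have hpt : ∀ y, ∑ i, w i * pot lam (fun y => (X i y - avg w X y) + S y) y ≤
        Real.exp (2 * lam ^ 2) * pot lam S y := by
      intro y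
      unfold pot
      simp only [mul_sum]
      rw [sum_comm]
      refine sum_le_sum fun j _ => ?_
      have h1 := hoeffw w hw hw1 (fun i => (ph4 j * (X i y - avg w X y)).re) 2 lam (by norm_num)
        (fun i => (Complex.abs_re_le_norm _).trans (by
          rw [norm_mul, ph4_norm, one_mul]; exact hdb i y))
        (by
          have e : ∑ i, w i * (ph4 j * (X i y - avg w X y)).re =
              (ph4 j * ∑ i, (w i : ℂ) * (X i y - avg w X y)).re := by
            rw [mul_sum, Complex.re_sum]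
            refine sum_congr rfl fun i _ => ?_
            rw [mul_left_comm, Complex.re_ofReal_mul]
          rw [e, hd0 y, mul_zero, Complex.zero_re])
      have e1 : (lam * 2) ^ 2 / 2 = 2 * lam ^ 2 := by ring
      rw [e1] at h1
      have e2 : ∀ i, w i * Real.exp (lam * (ph4 j * ((X i y - avg w X y) + S y)).re) =
          (w i * Real.exp (lam * (ph4 j * (X i y - avg w X y)).re)) *
            Real.exp (lam * (ph4 j * S y).re) := by
        intro i
        rw [mul_add (ph4 j), Complex.add_re, mul_add lam, Real.exp_add, mul_assoc]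
      rw [sum_congr rfl fun i _ => e2 i, ← sum_mul]
      exact mul_le_mul_of_nonneg_right h1 (Real.exp_pos _).le
    have hsum : ∑ i, w i * ∫ y, pot lam (fun y => (X i y - avg w X y) + S y) y ∂μ ≤
        4 * μ.real Set.univ * Real.exp (2 * lam ^ 2 * ((m + 1 : ℕ) : ℝ)) := by
      have e : ∑ i, w i * ∫ y, pot lam (fun y => (X i y - avg w X y) + S y) y ∂μ =
          ∫ y, ∑ i, w i * pot lam (fun y => (X i y - avg w X y) + S y) y ∂μ := by
        rw [integral_finsetSum _ fun i _ => (hint i).const_mul _]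
        exact sum_congr rfl fun i _ => (integral_const_mul _ _).symm
      rw [e]
      refine (integral_mono (integrable_finsetSum _ fun i _ => (hint i).const_mul _)
        (hSint.const_mul _) hpt).trans ?_
      rw [integral_const_mul]
      calc Real.exp (2 * lam ^ 2) * ∫ y, pot lam S y ∂μ
          ≤ Real.exp (2 * lam ^ 2) * (4 * μ.real Set.univ * Real.exp (2 * lam ^ 2 * m)) :=
            mul_le_mul_of_nonneg_left hf (Real.exp_pos _).le
        _ = 4 * μ.real Set.univ * (Real.exp (2 * lam ^ 2) * Real.exp (2 * lam ^ 2 * m)) := by ring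
        _ = _ := by
            rw [← Real.exp_add]
            congr 2
            push_cast
            ring
    obtain ⟨i, hi⟩ : ∃ i, ∫ y, pot lam (fun y => (X i y - avg w X y) + S y) y ∂μ ≤
        4 * μ.real Set.univ * Real.exp (2 * lam ^ 2 * ((m + 1 : ℕ) : ℝ)) := by
      by_contra hcon
      push Not at hcon
      set b := 4 * μ.real Set.univ * Real.exp (2 * lam ^ 2 * ((m + 1 : ℕ) : ℝ)) with hb
      obtain ⟨i0, hi0⟩ : ∃ i0, 0 < w i0 := by
        by_contra h
        push Not at h
        have : ∑ i, w i ≤ 0 := sum_nonpos fun i _ => h i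
        linarith
      have : ∑ i, w i * b < ∑ i, w i * ∫ y, pot lam (fun y => (X i y - avg w X y) + S y) y ∂μ :=
        sum_lt_sum (fun i _ => mul_le_mul_of_nonneg_left (hcon i).le (hw i))
          ⟨i0, mem_univ _, mul_lt_mul_of_pos_left (hcon i0) hi0⟩
      rw [← sum_mul, hw1, one_mul] at this
      linarith
    refine ⟨Fin.cons i f, ?_⟩
    refine le_trans (le_of_eq ?_) hi
    refine integral_congr_ae (Filter.Eventually.of_forall fun y => ?_)
    simp only [Fin.sum_univ_succ, Fin.cons_zero, Fin.cons_succ, hS]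

/-- **Sampling.** -/
theorem sample (w : ι → ℝ) (hw : ∀ i, 0 ≤ w i) (hw1 : ∑ i, w i = 1) (X : ι → Y → ℂ)
    (hXm : ∀ i, Measurable (X i)) (hX : ∀ i y, ‖X i y‖ ≤ 1) (m : ℕ) (hm : 1 ≤ m) (s : ℝ)
    (hs : 0 < s) :
    ∃ f : Fin m → ι, μ.real {y | s < ‖((m : ℝ) : ℂ)⁻¹ * (∑ l, X (f l) y) - avg w X y‖} ≤
      4 * μ.real Set.univ * Real.exp (-(m * s ^ 2 / 17)) := by
  have hm0 : (0 : ℝ) < m := by exact_mod_cast hm
  set lam : ℝ := 7 / 40 * s with hlam
  have hl0 : 0 ≤ lam := by positivity
  obtain ⟨f, hf⟩ := greedy μ w hw hw1 X hXm hX lam hl0 m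
  refine ⟨f, ?_⟩
  have ham : Measurable (avg w X) := by
    unfold avg
    exact Finset.measurable_sum _ fun i _ => (hXm i).const_mul _
  have hSm : Measurable fun y => ∑ l, (X (f l) y - avg w X y) :=
    Finset.measurable_sum _ fun l _ => (hXm (f l)).sub ham
  set P : Y → ℝ := pot lam (fun y => ∑ l, (X (f l) y - avg w X y)) with hP
  set A : Set Y := {y | s < ‖((m : ℝ) : ℂ)⁻¹ * (∑ l, X (f l) y) - avg w X y‖} with hA
  have hsub : A ⊆ {y | Real.exp (lam * (7 / 10 * (m * s))) ≤ P y} := by
    intro y hy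
    have hy' : s < ‖((m : ℝ) : ℂ)⁻¹ * (∑ l, X (f l) y) - avg w X y‖ := hy
    have hmc : ((m : ℝ) : ℂ) ≠ 0 := by exact_mod_cast hm0.ne'
    have e : ∑ l, (X (f l) y - avg w X y) =
        ((m : ℝ) : ℂ) * (((m : ℝ) : ℂ)⁻¹ * (∑ l, X (f l) y) - avg w X y) := by
      rw [sum_sub_distrib, sum_const, card_univ, Fintype.card_fin, nsmul_eq_mul, mul_sub,
        ← mul_assoc, mul_inv_cancel₀ hmc, one_mul]
      push_cast
      rfl
    obtain ⟨j, hj⟩ := exists_ph4 (∑ l, (X (f l) y - avg w X y))
    have h1 : m * s ≤ ‖∑ l, (X (f l) y - avg w X y)‖ := by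
      rw [e, norm_mul, Complex.norm_real, Real.norm_of_nonneg hm0.le]
      exact mul_le_mul_of_nonneg_left hy'.le hm0.le
    have h2 : Real.exp (lam * (7 / 10 * (m * s))) ≤
        Real.exp (lam * (ph4 j * ∑ l, (X (f l) y - avg w X y)).re) := by
      refine Real.exp_le_exp.2 (mul_le_mul_of_nonneg_left ?_ hl0)
      linarith
    refine h2.trans ?_
    simp only [hP, pot]
    exact single_le_sum (f := fun j : Fin 4 =>
      Real.exp (lam * (ph4 j * ∑ l, (X (f l) y - avg w X y)).re))
      (fun _ _ => (Real.exp_pos _).le) (mem_univ j)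
  have hPint : Integrable P μ := by
    refine pot_int μ lam hl0 _ hSm (2 * m) fun y => ?_
    refine (norm_sum_le _ _).trans ?_
    have hab : ‖avg w X y‖ ≤ 1 := by
      unfold avg
      refine (norm_sum_le _ _).trans ?_
      rw [← hw1]
      refine sum_le_sum fun i _ => ?_
      rw [norm_mul, Complex.norm_real, Real.norm_of_nonneg (hw i)]
      exact mul_le_of_le_one_right (hw i) (hX i y)
    refine (sum_le_sum (g := fun _ => (2 : ℝ)) fun l _ => ?_).trans (le_of_eq ?_)
    · refine (norm_sub_le _ _).trans ?_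
      have := hX (f l) y
      linarith
    · rw [sum_const, card_univ, Fintype.card_fin, nsmul_eq_mul]
      ring
  have hmk := mul_meas_ge_le_integral_of_nonneg
    (Filter.Eventually.of_forall (pot_nonneg lam (fun y => ∑ l, (X (f l) y - avg w X y)))) hPint
    (Real.exp (lam * (7 / 10 * (m * s))))
  have h3 : Real.exp (lam * (7 / 10 * (m * s))) * μ.real A ≤
      4 * μ.real Set.univ * Real.exp (2 * lam ^ 2 * m) := by
    refine (mul_le_mul_of_nonneg_left (measureReal_mono hsub) (Real.exp_pos _).le).trans ?_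
    exact hmk.trans hf
  have hU : 0 ≤ μ.real Set.univ := measureReal_nonneg
  have h4 : μ.real A ≤ 4 * μ.real Set.univ *
      (Real.exp (2 * lam ^ 2 * m) * Real.exp (-(lam * (7 / 10 * (m * s))))) := by
    have h5 := mul_le_mul_of_nonneg_right h3 (Real.exp_pos (-(lam * (7 / 10 * (m * s))))).le
    rw [mul_comm (Real.exp (lam * (7 / 10 * (m * s)))), mul_assoc, ← Real.exp_add,
      add_neg_cancel, Real.exp_zero, mul_one] at h5
    linarith
  refine h4.trans ?_
  rw [← Real.exp_add]
  refine mul_le_mul_of_nonneg_left (Real.exp_le_exp.2 ?_) (by positivity)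
  rw [hlam]
  have : 0 ≤ m * s ^ 2 := by positivity
  nlinarith

end

end Pool.Agent.N248.RC
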