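import Pool.Agent.N248.RC.Cnt
import Pool.Agent.N248.RC.Mau

set_option autoImplicit false
set_option linter.unusedSectionVars false

/-!
# Good unions of cells
-/

namespace Pool.Agent.N248.RC

open Finset MeasureTheory

variable {Y : Type*} [MeasurableSpace Y] (μ : Measure Y) [IsFiniteMeasure μ]
  {ι : Type*} [Fintype ι] {α : Type*} [DecidableEq α]

/-- the union of the cells in `I` -/
def un (θ : α → Set Y) (I : Finset α) : Set Y := ⋃ i ∈ I, θ i

/-- the union of the cells does not meet the superlevel sets of samples too much -/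
def GoodL (J : Finset α) (k : ℕ) (θ : α → Set Y) (κ : ℝ) (X : ι → Y → ℂ) (m : ℕ) (u t : ℝ)
    (I : Finset α) : Prop :=
  ∀ f : Fin m → ι, μ.real (un θ I ∩ {y | u < ‖((m : ℝ) : ℂ)⁻¹ * ∑ l, X (f l) y‖}) ≤
    2 * ((k : ℝ) / J.card) * μ.real {y | u < ‖((m : ℝ) : ℂ)⁻¹ * ∑ l, X (f l) y‖} + κ * t

theorem real_biUnion_le (B : Set Y) (θ : α → Set Y) (I : Finset α) :
    μ.real (un θ I ∩ B) ≤ ∑ i ∈ I, μ.real (θ i ∩ B) := by
  have e : un θ I ∩ B = ⋃ i ∈ I, (θ i ∩ B) := by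
    unfold un
    rw [Set.iUnion₂_inter]
  rw [e]
  exact measureReal_biUnion_finset_le I fun i => θ i ∩ B

theorem real_sum_le (B : Set Y) (hB : MeasurableSet B) (θ : α → Set Y) (J : Finset α)
    (hθ : ∀ i ∈ J, MeasurableSet (θ i)) (hd : (J : Set α).PairwiseDisjoint θ) :
    ∑ i ∈ J, μ.real (θ i ∩ B) ≤ μ.real B := by
  have e : μ.real (⋃ i ∈ J, (θ i ∩ B)) = ∑ i ∈ J, μ.real (θ i ∩ B) := by
    refine measureReal_biUnion_finset ?_ (fun i hi => (hθ i hi).inter hB)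
    intro i hi j hj hij
    exact (hd hi hj hij).mono Set.inter_subset_left Set.inter_subset_left
  rw [← e]
  refine measureReal_mono ?_
  exact Set.iUnion₂_subset fun i _ => Set.inter_subset_right

open Classical in
theorem goodL_count (J : Finset α) (hJ : J.Nonempty) (k : ℕ) (θ : α → Set Y)
    (hθ : ∀ i ∈ J, MeasurableSet (θ i)) (hd : (J : Set α).PairwiseDisjoint θ) (κ : ℝ) (hκ : 0 < κ)
    (hθκ : ∀ i ∈ J, μ.real (θ i) ≤ κ) (X : ι → Y → ℂ) (hX : ∀ i, Measurable (X i)) (m : ℕ)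
    (u t : ℝ) :
    (((powersetCard k J).filter (fun I => ¬ GoodL μ J k θ κ X m u t I)).card : ℝ) ≤
      (Fintype.card ι : ℝ) ^ m * Real.exp (-t) * ((J.card.choose k : ℕ) : ℝ) := by
  set B : (Fin m → ι) → Set Y := fun f => {y | u < ‖((m : ℝ) : ℂ)⁻¹ * ∑ l, X (f l) y‖} with hB
  have hBm : ∀ f, MeasurableSet (B f) := fun f =>
    measurableSet_lt measurable_const
      ((Finset.measurable_sum _ fun l _ => hX (f l)).const_mul _).norm
  set w : (Fin m → ι) → α → ℝ := fun f i => μ.real (θ i ∩ B f) / κ with hw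
  have hsub : (powersetCard k J).filter (fun I => ¬ GoodL μ J k θ κ X m u t I) ⊆
      (univ : Finset (Fin m → ι)).biUnion fun f => (powersetCard k J).filter (fun I =>
        2 * ((k : ℝ) / J.card) * ∑ i ∈ J, w f i + t < ∑ i ∈ I, w f i) := by
    intro I hI
    rw [mem_filter] at hI
    obtain ⟨hI1, hI2⟩ := hI
    unfold GoodL at hI2
    push Not at hI2
    obtain ⟨f, hf⟩ := hI2
    rw [mem_biUnion]
    refine ⟨f, mem_univ _, ?_⟩
    rw [mem_filter]
    refine ⟨hI1, ?_⟩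
    have h1 := real_biUnion_le μ (B f) θ I
    have h2 := real_sum_le μ (B f) (hBm f) θ J hθ hd
    have hk0 : 0 ≤ 2 * ((k : ℝ) / J.card) := by positivity
    simp only [hw]
    rw [← sum_div, ← sum_div, lt_div_iff₀ hκ, add_mul, mul_assoc, div_mul_cancel₀ _ hκ.ne']
    have h3 := mul_le_mul_of_nonneg_left h2 hk0
    have h4 : 2 * ((k : ℝ) / J.card) * μ.real (B f) + κ * t < μ.real (un θ I ∩ B f) := hf
    linarith
  have h1 : (((powersetCard k J).filter (fun I => ¬ GoodL μ J k θ κ X m u t I)).card : ℝ) ≤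
      ∑ f : Fin m → ι, (((powersetCard k J).filter (fun I =>
        2 * ((k : ℝ) / J.card) * ∑ i ∈ J, w f i + t < ∑ i ∈ I, w f i)).card : ℝ) := by
    exact_mod_cast (card_le_card hsub).trans card_biUnion_le
  refine h1.trans ((sum_le_sum fun f _ => tail J hJ k (w f)
    (fun i _ => div_nonneg measureReal_nonneg hκ.le) (fun i hi => ?_) t).trans (le_of_eq ?_))
  · rw [div_le_one hκ]
    exact (measureReal_mono Set.inter_subset_left).trans (hθκ i hi)
  · rw [sum_const, card_univ, nsmul_eq_mul, Fintype.card_fun, Fintype.card_fin]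
    push_cast
    ring

/-- one level -/
theorem level (J : Finset α) (k : ℕ) (hkJ : k ≤ J.card) (θ : α → Set Y) (κ : ℝ)
    (X : ι → Y → ℂ) (hXm : ∀ i, Measurable (X i)) (hX : ∀ i y, ‖X i y‖ ≤ 1) (m : ℕ) (hm : 1 ≤ m)
    (s t : ℝ) (hs : 0 < s) (hexc : 4 * μ.real Set.univ * Real.exp (-(m * (s / 16) ^ 2 / 17)) ≤ κ)
    (I : Finset α) (hI : GoodL μ J k θ κ X m (11 / 20 * s) t I)
    (w : ι → ℝ) (hw : ∀ i, 0 ≤ w i) (hw1 : ∑ i, w i = 1) (G : Y → ℝ)
    (hG : ∀ y, |G y - Real.sqrt 2 * ‖avg w X y‖| ≤ s / 8) :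
    μ.real (un θ I ∩ {y | s < G y}) ≤
      2 * ((k : ℝ) / J.card) * μ.real {y | s / 2 < G y} + κ * (t + 3) := by
  obtain ⟨f, hf⟩ := sample μ w hw hw1 X hXm hX m hm (s / 16) (by positivity)
  set Z : Y → ℂ := fun y => ((m : ℝ) : ℂ)⁻¹ * ∑ l, X (f l) y with hZ
  set Ex : Set Y := {y | s / 16 < ‖Z y - avg w X y‖} with hEx
  have hExc : μ.real Ex ≤ κ := hf.trans hexc
  have hs2 : 1.414 ≤ Real.sqrt 2 := Real.le_sqrt_of_sq_le (by norm_num)
  have hs2' : Real.sqrt 2 ≤ 1.4143 := Real.sqrt_le_iff.2 ⟨by norm_num, by norm_num⟩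
  have h1 : un θ I ∩ {y | s < G y} ⊆ (un θ I ∩ {y | 11 / 20 * s < ‖Z y‖}) ∪ Ex := by
    intro y hy
    by_cases hye : y ∈ Ex
    · exact Or.inr hye
    · refine Or.inl ⟨hy.1, ?_⟩
      have hy2 : s < G y := hy.2
      have hye' : ‖Z y - avg w X y‖ ≤ s / 16 := not_lt.1 hye
      have hGy := abs_le.1 (hG y)
      have h2 : 7 / 8 * s < Real.sqrt 2 * ‖avg w X y‖ := by linarith [hGy.2]
      have h3 : ‖avg w X y‖ ≤ ‖Z y‖ + s / 16 := by
        have := norm_sub_norm_le (avg w X y) (Z y)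
        rw [norm_sub_rev] at this
        linarith
      have h4 := norm_nonneg (avg w X y)
      show 11 / 20 * s < ‖Z y‖
      have h5 : Real.sqrt 2 * ‖avg w X y‖ ≤ 1.4143 * ‖avg w X y‖ :=
        mul_le_mul_of_nonneg_right hs2' h4
      linarith
  have h2 : {y | 11 / 20 * s < ‖Z y‖} ⊆ {y | s / 2 < G y} ∪ Ex := by
    intro y hy
    by_cases hye : y ∈ Ex
    · exact Or.inr hye
    · refine Or.inl ?_
      have hy2 : 11 / 20 * s < ‖Z y‖ := hy
      have hye' : ‖Z y - avg w X y‖ ≤ s / 16 := not_lt.1 hye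
      have hGy := abs_le.1 (hG y)
      have h3 : ‖Z y‖ ≤ ‖avg w X y‖ + s / 16 := by
        have := norm_sub_norm_le (Z y) (avg w X y)
        linarith
      have h4 := norm_nonneg (avg w X y)
      have h5 : 1.414 * ‖avg w X y‖ ≤ Real.sqrt 2 * ‖avg w X y‖ :=
        mul_le_mul_of_nonneg_right hs2 h4
      show s / 2 < G y
      linarith [hGy.1]
  have h3 : μ.real (un θ I ∩ {y | s < G y}) ≤
      μ.real (un θ I ∩ {y | 11 / 20 * s < ‖Z y‖}) + μ.real Ex :=
    (measureReal_mono h1).trans (measureReal_union_le _ _)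
  have h4 : μ.real {y | 11 / 20 * s < ‖Z y‖} ≤ μ.real {y | s / 2 < G y} + μ.real Ex :=
    (measureReal_mono h2).trans (measureReal_union_le _ _)
  have h5 : μ.real (un θ I ∩ {y | 11 / 20 * s < ‖Z y‖}) ≤
      2 * ((k : ℝ) / J.card) * μ.real {y | 11 / 20 * s < ‖Z y‖} + κ * t := hI f
  have hk1 : (k : ℝ) / J.card ≤ 1 := by
    have : (k : ℝ) ≤ J.card := by exact_mod_cast hkJ
    exact div_le_one_of_le₀ this (Nat.cast_nonneg _)
  have hk0 : 0 ≤ (k : ℝ) / J.card := by positivity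
  have hE0 : 0 ≤ μ.real Ex := measureReal_nonneg
  have h6 : 2 * ((k : ℝ) / J.card) * μ.real {y | 11 / 20 * s < ‖Z y‖} ≤
      2 * ((k : ℝ) / J.card) * (μ.real {y | s / 2 < G y} + μ.real Ex) :=
    mul_le_mul_of_nonneg_left h4 (by positivity)
  have h7 : 2 * ((k : ℝ) / J.card) * μ.real Ex ≤ 2 * μ.real Ex := by nlinarith
  nlinarith

theorem dy1 (K : ℕ) (G : ℝ) (hG : G ≤ 1) :
    G ≤ ∑ j ∈ range K, (1 / 2 : ℝ) ^ j * (if (1 / 2 : ℝ) ^ (j + 1) < G then 1 else 0) +
      (1 / 2 : ℝ) ^ K := by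
  induction K with
  | zero => simpa using hG
  | succ K ih =>
    rw [sum_range_succ]
    have hS : 0 ≤ ∑ j ∈ range K, (1 / 2 : ℝ) ^ j * (if (1 / 2 : ℝ) ^ (j + 1) < G then 1 else 0) :=
      sum_nonneg fun j _ => by split_ifs <;> positivity
    have hp : (0 : ℝ) < (1 / 2 : ℝ) ^ (K + 1) := by positivity
    by_cases h : (1 / 2 : ℝ) ^ (K + 1) < G
    · rw [if_pos h, mul_one]
      linarith
    · rw [if_neg h]
      have := not_lt.1 h
      linarith

theorem dy2 (K : ℕ) (G : ℝ) (hG : 0 ≤ G) :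
    ∑ j ∈ range K, (1 / 2 : ℝ) ^ j * (if (1 / 2 : ℝ) ^ (j + 1) / 2 < G then 1 else 0) ≤ 8 * G := by
  have key : ∑ j ∈ range K, (1 / 2 : ℝ) ^ j * (if (1 / 2 : ℝ) ^ (j + 1) / 2 < G then 1 else 0) ≤
      max 0 (8 * G - 2 * (1 / 2 : ℝ) ^ K) := by
    induction K with
    | zero => simp
    | succ K ih =>
      rw [sum_range_succ]
      have hp : (0 : ℝ) < (1 / 2 : ℝ) ^ K := by positivity
      have e : (1 / 2 : ℝ) ^ (K + 1) = (1 / 2 : ℝ) ^ K / 2 := by rw [pow_succ]; ring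
      rw [e]
      by_cases h : (1 / 2 : ℝ) ^ K / 2 / 2 < G
      · rw [if_pos h, mul_one]
        have h1 : max 0 (8 * G - 2 * (1 / 2 : ℝ) ^ K) = 8 * G - 2 * (1 / 2 : ℝ) ^ K :=
          max_eq_right (by linarith)
        rw [h1] at ih
        exact le_max_of_le_right (by linarith)
      · rw [if_neg h, mul_zero, add_zero]
        exact ih.trans (max_le_max le_rfl (by linarith))
  refine key.trans (max_le (by linarith) ?_)
  have : (0 : ℝ) < (1 / 2 : ℝ) ^ K := by positivity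
  linarith

/-- the sum over the levels -/
theorem sum_levels (G : Y → ℝ) (hGm : Measurable G) (hG0 : ∀ y, 0 ≤ G y) (hG1 : ∀ y, G y ≤ 1)
    (S : Set Y) (hS : MeasurableSet S) (K : ℕ) (τ κ : ℝ) (hτ : 0 ≤ τ) (T : ℕ → ℝ)
    (hlev : ∀ j < K, μ.real (S ∩ {y | (1 / 2 : ℝ) ^ (j + 1) < G y}) ≤
      2 * τ * μ.real {y | (1 / 2 : ℝ) ^ (j + 1) / 2 < G y} + κ * T j) :
    ∫ y in S, G y ∂μ ≤ 16 * τ * ∫ y, G y ∂μ + κ * ∑ j ∈ range K, (1 / 2 : ℝ) ^ j * T j +
      (1 / 2 : ℝ) ^ K * μ.real S := by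
  have hGint : Integrable G μ := by
    refine Integrable.mono' (integrable_const (1 : ℝ)) hGm.aestronglyMeasurable
      (Filter.Eventually.of_forall fun y => ?_)
    rw [Real.norm_of_nonneg (hG0 y)]
    exact hG1 y
  have hset : ∀ c : ℝ, MeasurableSet {y | c < G y} := fun c => measurableSet_lt measurable_const hGm
  have hind : ∀ (c : ℝ) (ν : Measure Y) [IsFiniteMeasure ν],
      ∫ y, (if c < G y then (1 : ℝ) else 0) ∂ν = ν.real {y | c < G y} := by
    intro c ν _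
    have : (fun y => if c < G y then (1 : ℝ) else 0) = {y | c < G y}.indicator 1 := by
      ext y
      simp [Set.indicator_apply]
    rw [this, integral_indicator_one (hset c)]
  have hiint : ∀ (c : ℝ) (ν : Measure Y) [IsFiniteMeasure ν],
      Integrable (fun y => if c < G y then (1 : ℝ) else 0) ν := by
    intro c ν _
    refine Integrable.mono' (integrable_const (1 : ℝ))
      (Measurable.ite (hset c) measurable_const measurable_const).aestronglyMeasurable
      (Filter.Eventually.of_forall fun y => ?_)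
    split_ifs <;> simp
  have h1 : ∫ y in S, G y ∂μ ≤ ∑ j ∈ range K, (1 / 2 : ℝ) ^ j *
      μ.real (S ∩ {y | (1 / 2 : ℝ) ^ (j + 1) < G y}) + (1 / 2 : ℝ) ^ K * μ.real S := by
    have h2 : ∫ y in S, G y ∂μ ≤ ∫ y in S, (∑ j ∈ range K, (1 / 2 : ℝ) ^ j *
        (if (1 / 2 : ℝ) ^ (j + 1) < G y then 1 else 0) + (1 / 2 : ℝ) ^ K) ∂μ := by
      refine integral_mono hGint.restrict ?_ fun y => dy1 K (G y) (hG1 y)
      exact (integrable_finsetSum _ fun j _ => (hiint _ _).const_mul _).add (integrable_const _)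
    refine h2.trans (le_of_eq ?_)
    rw [integral_add (integrable_finsetSum _ fun j _ => (hiint _ _).const_mul _)
      (integrable_const _), integral_finsetSum _ fun j _ => (hiint _ _).const_mul _,
      integral_const, smul_eq_mul]
    have e1 : (μ.restrict S).real Set.univ = μ.real S := by
      rw [measureReal_restrict_apply MeasurableSet.univ, Set.univ_inter]
    rw [e1, mul_comm (μ.real S)]
    congr 1
    refine sum_congr rfl fun j _ => ?_
    rw [integral_const_mul, hind, measureReal_restrict_apply (hset _), Set.inter_comm]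
  have h3 : ∑ j ∈ range K, (1 / 2 : ℝ) ^ j * μ.real {y | (1 / 2 : ℝ) ^ (j + 1) / 2 < G y} ≤
      8 * ∫ y, G y ∂μ := by
    have h4 : ∑ j ∈ range K, (1 / 2 : ℝ) ^ j * μ.real {y | (1 / 2 : ℝ) ^ (j + 1) / 2 < G y} =
        ∫ y, ∑ j ∈ range K, (1 / 2 : ℝ) ^ j *
          (if (1 / 2 : ℝ) ^ (j + 1) / 2 < G y then 1 else 0) ∂μ := by
      rw [integral_finsetSum _ fun j _ => (hiint _ _).const_mul _]
      refine sum_congr rfl fun j _ => ?_
      rw [integral_const_mul, hind]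
    rw [h4, ← integral_const_mul]
    exact integral_mono (integrable_finsetSum _ fun j _ => (hiint _ _).const_mul _)
      (hGint.const_mul _) fun y => dy2 K (G y) (hG0 y)
  have h5 : ∑ j ∈ range K, (1 / 2 : ℝ) ^ j * μ.real (S ∩ {y | (1 / 2 : ℝ) ^ (j + 1) < G y}) ≤
      ∑ j ∈ range K, (2 * τ * ((1 / 2 : ℝ) ^ j * μ.real {y | (1 / 2 : ℝ) ^ (j + 1) / 2 < G y}) +
        κ * ((1 / 2 : ℝ) ^ j * T j)) := by
    refine sum_le_sum fun j hj => ?_
    have := mul_le_mul_of_nonneg_left (hlev j (mem_range.1 hj))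
      (show (0 : ℝ) ≤ (1 / 2 : ℝ) ^ j by positivity)
    linarith
  rw [sum_add_distrib, ← mul_sum, ← mul_sum] at h5
  have h6 := mul_le_mul_of_nonneg_left h3 (show 0 ≤ 2 * τ by positivity)
  linarith

end Pool.Agent.N248.RC
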