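import Pool.Agent.N248.RC.Str
import Pool.Agent.N248.RR.H

set_option autoImplicit false
set_option linter.unusedSectionVars false

/-!
# Rounding points of a ball
-/

namespace Pool.Agent.N248.RC

open MeasureTheory
open Pool.Agent.N248.RR (ex ex_norm ex_cont ex_sub_one ex_add)
open scoped RealInnerProductSpace

variable {d : ℕ}

/-- the grid points -/
noncomputable def gpt (ρ : ℝ) (M : ℕ) (b : Fin d → Fin (2 * M + 1)) : EuclideanSpace ℝ (Fin d) :=
  WithLp.toLp 2 fun i => ρ * ((b i : ℝ) - M)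

/-- the rounding map -/
noncomputable def rnd (ρ : ℝ) (M : ℕ) (x : EuclideanSpace ℝ (Fin d)) : Fin d → Fin (2 * M + 1) :=
  fun i => Fin.ofNat (2 * M + 1) ((⌊x i / ρ⌋ + M).toNat)

theorem rnd_meas (ρ : ℝ) (M : ℕ) : Measurable (rnd (d := d) ρ M) := by
  unfold rnd
  refine measurable_pi_lambda _ fun i => ?_
  have h1 : Measurable fun x : EuclideanSpace ℝ (Fin d) => ⌊x i / ρ⌋ := by
    refine Int.measurable_floor.comp ?_
    fun_prop
  have h2 : Measurable fun z : ℤ => Fin.ofNat (2 * M + 1) ((z + M).toNat) :=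
    Measurable.of_discrete
  exact h2.comp h1

theorem rnd_near (ρ : ℝ) (hρ : 0 < ρ) (M : ℕ) (R : ℝ) (hR : R ≤ M * ρ)
    (x : EuclideanSpace ℝ (Fin d)) (hx : x ∈ Metric.ball 0 R) :
    ‖x - gpt ρ M (rnd ρ M x)‖ ≤ d * ρ := by
  have hc : ∀ i, |(x - gpt ρ M (rnd ρ M x)) i| ≤ ρ := by
    intro i
    have h1 : |x i| < R := by
      have h2 : ‖x i‖ ≤ ‖x‖ := PiLp.norm_apply_le x i
      rw [Real.norm_eq_abs] at h2
      rw [mem_ball_zero_iff] at hx
      linarith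
    have h3 := abs_lt.1 h1
    have h4 : -(M : ℝ) ≤ x i / ρ := by
      rw [le_div_iff₀ hρ]; linarith [h3.1]
    have h5 : x i / ρ < M := by
      rw [div_lt_iff₀ hρ]; linarith [h3.2]
    have h6 : -(M : ℤ) ≤ ⌊x i / ρ⌋ := by
      rw [Int.le_floor]
      push_cast
      exact h4
    have h7 : ⌊x i / ρ⌋ < (M : ℤ) := by
      rw [Int.floor_lt]
      exact_mod_cast h5
    have h8 : ((rnd ρ M x i : ℕ) : ℝ) = ⌊x i / ρ⌋ + M := by
      have h9 : (rnd ρ M x i : ℕ) = (⌊x i / ρ⌋ + M).toNat := by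
        unfold rnd
        rw [Fin.val_ofNat]
        refine Nat.mod_eq_of_lt ?_
        omega
      rw [h9]
      have h10 : (((⌊x i / ρ⌋ + M).toNat : ℕ) : ℤ) = ⌊x i / ρ⌋ + M := Int.toNat_of_nonneg (by omega)
      have h11 : ((((⌊x i / ρ⌋ + M).toNat : ℕ) : ℤ) : ℝ) = ((⌊x i / ρ⌋ + M : ℤ) : ℝ) := by
        rw [h10]
      push_cast at h11
      exact h11
    have e : (x - gpt ρ M (rnd ρ M x)) i = x i - ρ * ⌊x i / ρ⌋ := by
      simp only [gpt, PiLp.sub_apply]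
      rw [h8]
      ring
    rw [e]
    have h12 := Int.floor_le (x i / ρ)
    have h13 := Int.lt_floor_add_one (x i / ρ)
    have e2 : x i = ρ * (x i / ρ) := by field_simp
    have h14 : ρ * (⌊x i / ρ⌋ : ℝ) ≤ ρ * (x i / ρ) := mul_le_mul_of_nonneg_left h12 hρ.le
    have h15 : ρ * (x i / ρ) ≤ ρ * ((⌊x i / ρ⌋ : ℝ) + 1) := mul_le_mul_of_nonneg_left h13.le hρ.le
    rw [abs_le]
    constructor <;> linarith
  rw [EuclideanSpace.norm_eq]
  refine Real.sqrt_le_iff.2 ⟨by positivity, ?_⟩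
  have h1 : ∑ i, ‖(x - gpt ρ M (rnd ρ M x)) i‖ ^ 2 ≤ ∑ _i : Fin d, ρ ^ 2 := by
    refine Finset.sum_le_sum fun i _ => ?_
    rw [Real.norm_eq_abs, sq_abs]
    have := hc i
    have h0 := abs_nonneg ((x - gpt ρ M (rnd ρ M x)) i)
    rw [← sq_abs]
    exact pow_le_pow_left₀ h0 this 2
  refine h1.trans ?_
  rw [Finset.sum_const, Finset.card_univ, Fintype.card_fin, nsmul_eq_mul, mul_pow]
  have hd : (d : ℝ) ≤ (d : ℝ) ^ 2 := by
    rcases Nat.eq_zero_or_pos d with h | h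
    · simp [h]
    · have : (1 : ℝ) ≤ d := by exact_mod_cast h
      nlinarith
  exact mul_le_mul_of_nonneg_right hd (by positivity)

variable {Y : Type*} [MeasurableSpace Y] (Φ : Y → EuclideanSpace ℝ (Fin d))

/-- the kernel of the extension operator of a surface -/
noncomputable def ker (x : EuclideanSpace ℝ (Fin d)) (y : Y) : ℂ := ex ⟪Φ y, x⟫

theorem ker_norm (x : EuclideanSpace ℝ (Fin d)) (y : Y) : ‖ker Φ x y‖ ≤ 1 := (ex_norm _).le

theorem ker_meas (hΦ : Measurable Φ) : Measurable (Function.uncurry (ker Φ)) := by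
  unfold ker Function.uncurry
  exact ex_cont.measurable.comp ((hΦ.comp measurable_snd).inner measurable_fst)

theorem ker_close (ρ0 : ℝ) (hρ0 : ∀ y, ‖Φ y‖ ≤ ρ0) (x z : EuclideanSpace ℝ (Fin d)) (y : Y) :
    ‖ker Φ x y - ker Φ z y‖ ≤ ρ0 * ‖x - z‖ := by
  unfold ker
  have e : ex ⟪Φ y, x⟫ - ex ⟪Φ y, z⟫ = ex ⟪Φ y, z⟫ * (ex ⟪Φ y, x - z⟫ - 1) := by
    rw [mul_sub, ← ex_add, inner_sub_right, mul_one]
    congr 2
    ring
  rw [e, norm_mul, ex_norm, one_mul]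
  refine (ex_sub_one _).trans ((abs_real_inner_le_norm _ _).trans ?_)
  exact mul_le_mul_of_nonneg_right (hρ0 y) (norm_nonneg _)

end Pool.Agent.N248.RC
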