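import Pool.Agent.N248.RC.Disc

set_option autoImplicit false
set_option linter.unusedSectionVars false

/-!
# Superlevel sets of extensions of functions supported on a good union of cells
-/

namespace Pool.Agent.N248.RC

open Finset MeasureTheory
open scoped ComplexConjugate

variable {Y : Type*} [MeasurableSpace Y] (μ : Measure Y) [IsFiniteMeasure μ]
  {V : Type*} [MeasurableSpace V] (ν : Measure V) [IsFiniteMeasure ν]

/-- the extension of `f` -/
noncomputable def Eo (φ : V → Y → ℂ) (f : Y → ℂ) (x : V) : ℂ := ∫ y, f y * φ x y ∂μ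

/-- the phase -/
noncomputable def sg (z : ℂ) : ℂ := if z = 0 then 1 else conj z / (‖z‖ : ℂ)

theorem sg_norm (z : ℂ) : ‖sg z‖ = 1 := by
  unfold sg
  split_ifs with h
  · simp
  · rw [norm_div, Complex.norm_conj, Complex.norm_real, norm_norm, div_self (norm_ne_zero_iff.2 h)]

theorem sg_mul (z : ℂ) : sg z * z = (‖z‖ : ℂ) := by
  unfold sg
  split_ifs with h
  · simp [h]
  · have hn : (‖z‖ : ℂ) ≠ 0 := by exact_mod_cast norm_ne_zero_iff.2 h
    rw [div_mul_eq_mul_div, div_eq_iff hn, ← Complex.normSq_eq_conj_mul_self,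
      Complex.normSq_eq_norm_sq]
    push_cast
    ring

theorem sg_meas : Measurable sg := by
  unfold sg
  refine Measurable.ite (measurableSet_singleton 0) measurable_const ?_
  exact (Complex.continuous_conj.measurable).div (Complex.measurable_ofReal.comp measurable_norm)

theorem Eo_meas (φ : V → Y → ℂ) (hφm : Measurable (Function.uncurry φ)) (f : Y → ℂ)
    (hf : Measurable f) : Measurable (Eo μ φ f) := by
  have h : Measurable (Function.uncurry fun (x : V) (y : Y) => f y * φ x y) :=
    (hf.comp measurable_snd).mul hφm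
  exact h.stronglyMeasurable.integral_prod_right.measurable

theorem tr_meas (φ : V → Y → ℂ) (hφm : Measurable (Function.uncurry φ)) (g : V → ℂ)
    (hg : Measurable g) : Measurable (tr ν φ g) := by
  have h : Measurable (Function.uncurry fun (y : Y) (x : V) => g x * φ x y) :=
    (hg.comp measurable_snd).mul (hφm.comp (measurable_snd.prodMk measurable_fst))
  exact h.stronglyMeasurable.integral_prod_right.measurable

/-- Fubini -/
theorem pairing (φ : V → Y → ℂ) (hφm : Measurable (Function.uncurry φ)) (hφ : ∀ x y, ‖φ x y‖ ≤ 1)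
    (f : Y → ℂ) (hf : Measurable f) (hf1 : ∀ y, ‖f y‖ ≤ 1) (g : V → ℂ) (hgm : Measurable g)
    (hg : Integrable g ν) :
    ∫ x, g x * Eo μ φ f x ∂ν = ∫ y, f y * tr ν φ g y ∂μ := by
  have hfi : Integrable f μ := Integrable.mono' (integrable_const (1 : ℝ)) hf.aestronglyMeasurable
    (Filter.Eventually.of_forall hf1)
  have hint : Integrable (Function.uncurry fun (x : V) (y : Y) => g x * (f y * φ x y))
      (ν.prod μ) := by
    have h1 : Integrable (fun z : V × Y => g z.1 * f z.2) (ν.prod μ) := hg.mul_prod hfi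
    have h2 : Integrable (fun z : V × Y => (g z.1 * f z.2) * φ z.1 z.2) (ν.prod μ) :=
      h1.mul_bdd (c := 1) hφm.aestronglyMeasurable (Filter.Eventually.of_forall fun z => hφ _ _)
    refine h2.congr (Filter.Eventually.of_forall fun z => ?_)
    simp only [Function.uncurry]
    ring
  unfold Eo tr
  simp_rw [← integral_const_mul]
  rw [integral_integral_swap hint]
  refine integral_congr_ae (Filter.Eventually.of_forall fun y => ?_)
  refine integral_congr_ae (Filter.Eventually.of_forall fun x => ?_)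
  simp only
  ring

theorem tr_norm (φ : V → Y → ℂ) (hφ : ∀ x y, ‖φ x y‖ ≤ 1) (g : V → ℂ) (hg : Integrable g ν)
    (hg1 : ∫ x, ‖g x‖ ∂ν ≤ 1) (y : Y) : ‖tr ν φ g y‖ ≤ 1 := by
  unfold tr
  refine (norm_integral_le_integral_norm _).trans (le_trans ?_ hg1)
  refine integral_mono_of_nonneg (Filter.Eventually.of_forall fun x => norm_nonneg _) hg.norm
    (Filter.Eventually.of_forall fun x => ?_)
  simp only
  rw [norm_mul]
  exact mul_le_of_le_one_right (norm_nonneg _) (hφ x y)

/-- the restricted weak type bound for the full operator -/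
def Wk (φ : V → Y → ℂ) (p K : ℝ) : Prop :=
  ∀ h : Y → ℂ, Measurable h → (∀ y, ‖h y‖ ≤ 1) → ∀ G : Set V, MeasurableSet G →
    ∫ x in G, ‖Eo μ φ h x‖ ∂ν ≤ K * (ν.real G) ^ (1 - 1 / p)

/-- the restriction of transforms to the set `S` -/
def Rs (φ : V → Y → ℂ) (S : Set Y) (c L : ℝ) : Prop :=
  ∀ g : V → ℂ, Measurable g → Integrable g ν → ∫ x, ‖g x‖ ∂ν ≤ 1 →
    ∫ y in S, ‖tr ν φ g y‖ ∂μ ≤ c * ∫ y, ‖tr ν φ g y‖ ∂μ + L

theorem Eo_bound (φ : V → Y → ℂ) (hφ : ∀ x y, ‖φ x y‖ ≤ 1) (S : Set Y) (hS : MeasurableSet S)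
    (f : Y → ℂ) (hf1 : ∀ y, ‖f y‖ ≤ 1) (hfS : ∀ y, y ∉ S → f y = 0) (x : V) :
    ‖Eo μ φ f x‖ ≤ μ.real S := by
  unfold Eo
  refine (norm_integral_le_integral_norm _).trans ?_
  have h1 : ∀ y, ‖f y * φ x y‖ ≤ S.indicator (fun _ => (1 : ℝ)) y := by
    intro y
    by_cases hy : y ∈ S
    · rw [Set.indicator_of_mem hy, norm_mul]
      exact mul_le_one₀ (hf1 y) (norm_nonneg _) (hφ x y)
    · rw [Set.indicator_of_notMem hy, hfS y hy, zero_mul, norm_zero]
  refine (integral_mono_of_nonneg (Filter.Eventually.of_forall fun y => norm_nonneg _)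
    ((integrable_const (1 : ℝ)).indicator hS) (Filter.Eventually.of_forall h1)).trans ?_
  rw [integral_indicator hS, setIntegral_const, smul_eq_mul, mul_one]

/-- **Superlevel sets.** -/
theorem superlevel (φ : V → Y → ℂ) (hφm : Measurable (Function.uncurry φ))
    (hφ : ∀ x y, ‖φ x y‖ ≤ 1) (S : Set Y) (hS : MeasurableSet S) (c L : ℝ) (hc : 0 ≤ c)
    (hRs : Rs μ ν φ S c L) (p K : ℝ) (hp : 1 ≤ p) (hK : 0 ≤ K) (hW : Wk μ ν φ p K)
    (f : Y → ℂ) (hf : Measurable f) (hf1 : ∀ y, ‖f y‖ ≤ 1) (hfS : ∀ y, y ∉ S → f y = 0)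
    (l : ℝ) (hl : 2 * L ≤ l) (hl0 : 0 < l) :
    ν.real {x | l < ‖Eo μ φ f x‖} ≤ (2 * c * K / l) ^ p := by
  set F := Eo μ φ f with hF
  have hFm : Measurable F := Eo_meas μ φ hφm f hf
  set G : Set V := {x | l < ‖F x‖} with hG
  have hGm : MeasurableSet G := measurableSet_lt measurable_const hFm.norm
  set m : ℝ := ν.real G with hm
  have hp0 : 0 < p := by linarith
  rcases (measureReal_nonneg (μ := ν) (s := G)).eq_or_lt with h0 | hmpos
  · rw [← hm] at h0
    rw [← h0]
    positivity
  rw [← hm] at hmpos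
  set g : V → ℂ := G.indicator (fun x => ((m⁻¹ : ℝ) : ℂ) * sg (F x)) with hg
  have hgm : Measurable g := ((sg_meas.comp hFm).const_mul _).indicator hGm
  have hgn : ∀ x, ‖g x‖ = G.indicator (fun _ => m⁻¹) x := by
    intro x
    by_cases hx : x ∈ G
    · rw [hg, Set.indicator_of_mem hx, Set.indicator_of_mem hx, norm_mul, sg_norm, mul_one,
        Complex.norm_real, Real.norm_of_nonneg (by positivity)]
    · rw [hg, Set.indicator_of_notMem hx, Set.indicator_of_notMem hx, norm_zero]
  have hgi : Integrable g ν := by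
    refine Integrable.mono' (integrable_const (m⁻¹ : ℝ)) hgm.aestronglyMeasurable
      (Filter.Eventually.of_forall fun x => ?_)
    rw [hgn x]
    by_cases hx : x ∈ G
    · rw [Set.indicator_of_mem hx]
    · rw [Set.indicator_of_notMem hx]; positivity
  have hg1 : ∫ x, ‖g x‖ ∂ν ≤ 1 := by
    rw [integral_congr_ae (Filter.Eventually.of_forall hgn), integral_indicator hGm,
      setIntegral_const, smul_eq_mul, ← hm, mul_inv_cancel₀ hmpos.ne']
  have hFb : ∀ x, ‖F x‖ ≤ μ.real S := Eo_bound μ φ hφ S hS f hf1 hfS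
  have hFint : Integrable (fun x => ‖F x‖) ν := by
    refine Integrable.mono' (integrable_const (μ.real S)) hFm.norm.aestronglyMeasurable
      (Filter.Eventually.of_forall fun x => ?_)
    rw [norm_norm]
    exact hFb x
  -- lower bound
  have hlow : l ≤ ‖∫ x, g x * F x ∂ν‖ := by
    have e : ∫ x, g x * F x ∂ν = ((m⁻¹ * ∫ x in G, ‖F x‖ ∂ν : ℝ) : ℂ) := by
      have e1 : ∀ x, g x * F x = ((G.indicator (fun x => m⁻¹ * ‖F x‖) x : ℝ) : ℂ) := by
        intro x
        by_cases hx : x ∈ G
        · rw [hg, Set.indicator_of_mem hx, Set.indicator_of_mem hx, mul_assoc, sg_mul]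
          push_cast
          ring
        · rw [hg, Set.indicator_of_notMem hx, Set.indicator_of_notMem hx, zero_mul]
          simp
      rw [integral_congr_ae (Filter.Eventually.of_forall e1), integral_complex_ofReal,
        integral_indicator hGm, integral_const_mul]
    rw [e, Complex.norm_real, Real.norm_of_nonneg (mul_nonneg (by positivity)
      (integral_nonneg fun x => norm_nonneg _))]
    have h1 : l * m ≤ ∫ x in G, ‖F x‖ ∂ν := by
      have h2 : ∫ x in G, l ∂ν ≤ ∫ x in G, ‖F x‖ ∂ν := by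
        refine setIntegral_mono_on (integrableOn_const (measure_ne_top _ _)) hFint.integrableOn
          hGm fun x hx => ?_
        exact (show l < ‖F x‖ from hx).le
      rw [setIntegral_const, smul_eq_mul, ← hm] at h2
      linarith
    rw [← div_eq_inv_mul, le_div_iff₀ hmpos]
    exact h1
  -- upper bound
  have hup : ‖∫ x, g x * F x ∂ν‖ ≤ ∫ y in S, ‖tr ν φ g y‖ ∂μ := by
    rw [hF, pairing μ ν φ hφm hφ f hf hf1 g hgm hgi]
    refine (norm_integral_le_integral_norm _).trans ?_
    rw [← integral_indicator hS]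
    have htm := tr_meas ν φ hφm g hgm
    refine integral_mono_of_nonneg (Filter.Eventually.of_forall fun y => norm_nonneg _) ?_
      (Filter.Eventually.of_forall fun y => ?_)
    · refine Integrable.indicator ?_ hS
      refine Integrable.mono' (integrable_const (1 : ℝ)) htm.norm.aestronglyMeasurable
        (Filter.Eventually.of_forall fun y => ?_)
      rw [norm_norm]
      exact tr_norm ν φ hφ g hgi hg1 y
    · simp only
      by_cases hy : y ∈ S
      · rw [Set.indicator_of_mem hy, norm_mul]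
        exact mul_le_of_le_one_left (norm_nonneg _) (hf1 y)
      · rw [Set.indicator_of_notMem hy, hfS y hy, zero_mul, norm_zero]
  -- duality for the full operator
  have hdual : ∫ y, ‖tr ν φ g y‖ ∂μ ≤ K * m ^ (-(1 / p)) := by
    have htm := tr_meas ν φ hφm g hgm
    set h : Y → ℂ := fun y => sg (tr ν φ g y) with hh
    have hhm : Measurable h := sg_meas.comp htm
    have hh1 : ∀ y, ‖h y‖ ≤ 1 := fun y => (sg_norm _).le
    have e1 : ∫ y, h y * tr ν φ g y ∂μ = ((∫ y, ‖tr ν φ g y‖ ∂μ : ℝ) : ℂ) := by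
      rw [← integral_complex_ofReal]
      exact integral_congr_ae (Filter.Eventually.of_forall fun y => sg_mul _)
    have e2 := pairing μ ν φ hφm hφ h hhm hh1 g hgm hgi
    rw [e1] at e2
    have h3 : ∫ y, ‖tr ν φ g y‖ ∂μ = ‖∫ x, g x * Eo μ φ h x ∂ν‖ := by
      rw [e2, Complex.norm_real, Real.norm_of_nonneg (integral_nonneg fun y => norm_nonneg _)]
    rw [h3]
    have hEm := Eo_meas μ φ hφm h hhm
    have hEb : ∀ x, ‖Eo μ φ h x‖ ≤ μ.real Set.univ :=
      Eo_bound μ φ hφ Set.univ MeasurableSet.univ h hh1 (fun y hy => absurd (Set.mem_univ y) hy)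
    have hEi : Integrable (fun x => ‖Eo μ φ h x‖) ν := by
      refine Integrable.mono' (integrable_const (μ.real Set.univ)) hEm.norm.aestronglyMeasurable
        (Filter.Eventually.of_forall fun x => ?_)
      rw [norm_norm]
      exact hEb x
    refine (norm_integral_le_integral_norm _).trans ?_
    have e3 : ∀ x, ‖g x * Eo μ φ h x‖ = G.indicator (fun x => m⁻¹ * ‖Eo μ φ h x‖) x := by
      intro x
      rw [norm_mul, hgn x]
      by_cases hx : x ∈ G
      · rw [Set.indicator_of_mem hx, Set.indicator_of_mem hx]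
      · rw [Set.indicator_of_notMem hx, Set.indicator_of_notMem hx, zero_mul]
    rw [integral_congr_ae (Filter.Eventually.of_forall e3), integral_indicator hGm,
      integral_const_mul]
    have h4 := hW h hhm hh1 G hGm
    rw [← hm] at h4
    calc m⁻¹ * ∫ x in G, ‖Eo μ φ h x‖ ∂ν ≤ m⁻¹ * (K * m ^ (1 - 1 / p)) :=
          mul_le_mul_of_nonneg_left h4 (by positivity)
      _ = K * m ^ (-(1 / p)) := by
          rw [sub_eq_add_neg, Real.rpow_add hmpos, Real.rpow_one]
          field_simp
  have hR := hRs g hgm hgi hg1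
  have h5 : l ≤ c * (K * m ^ (-(1 / p))) + L := by
    refine (hlow.trans (hup.trans hR)).trans ?_
    have := mul_le_mul_of_nonneg_left hdual hc
    linarith
  have h6 : l / 2 ≤ c * K * m ^ (-(1 / p)) := by
    have : c * (K * m ^ (-(1 / p))) = c * K * m ^ (-(1 / p)) := by ring
    linarith
  have h7 : m ^ (1 / p) ≤ 2 * c * K / l := by
    rw [Real.rpow_neg hmpos.le] at h6
    have hmp : 0 < m ^ (1 / p) := Real.rpow_pos_of_pos hmpos _
    rw [← div_eq_mul_inv, le_div_iff₀ hmp] at h6
    rw [le_div_iff₀ hl0]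
    linarith
  have h8 : m = (m ^ (1 / p)) ^ p := by
    rw [← Real.rpow_mul hmpos.le, one_div_mul_cancel hp0.ne', Real.rpow_one]
  rw [h8]
  exact Real.rpow_le_rpow (Real.rpow_nonneg hmpos.le _) h7 hp0.le

end Pool.Agent.N248.RC
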