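import Pool.Agent.N248.RC.Op
import Pool.Agent.N248.RR.L

set_option autoImplicit false
set_option linter.unusedSectionVars false

/-!
# Lower bounds for the norms on unions of cells
-/

namespace Pool.Agent.N248.RC

open Finset MeasureTheory
open Pool.Agent.N248.RR (ex ex_norm phase_low)
open scoped RealInnerProductSpace ENNReal

variable {d : ℕ} {Y : Type*} [MeasurableSpace Y] (μ : Measure Y) [IsFiniteMeasure μ]
  (Φ : Y → EuclideanSpace ℝ (Fin d)) {α : Type*} [DecidableEq α]

theorem card_mem (J : Finset α) (k : ℕ) (hk : 1 ≤ k) (j : α) (hj : j ∈ J) :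
    ((powersetCard k J).filter (fun I => j ∈ I)).card = (J.card - 1).choose (k - 1) := by
  have h1 : (powersetCard k J).filter (fun I => j ∈ I) =
      (powersetCard (k - 1) (J.erase j)).image (insert j) := by
    ext I
    rw [mem_filter, mem_image, mem_powersetCard]
    constructor
    · rintro ⟨⟨h2, h3⟩, h4⟩
      refine ⟨I.erase j, mem_powersetCard.2 ⟨erase_subset_erase _ h2, ?_⟩, insert_erase h4⟩
      rw [card_erase_of_mem h4, h3]
    · rintro ⟨I', h2, rfl⟩
      rw [mem_powersetCard] at h2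
      have h3 : j ∉ I' := fun h => (mem_erase.1 (h2.1 h)).1 rfl
      refine ⟨⟨insert_subset hj (h2.1.trans (erase_subset _ _)), ?_⟩, mem_insert_self _ _⟩
      rw [card_insert_of_notMem h3, h2.2]
      omega
  rw [h1, card_image_of_injOn, card_powersetCard, card_erase_of_mem hj]
  intro I hI I' hI' h
  rw [mem_coe, mem_powersetCard] at hI hI'
  have h3 : j ∉ I := fun h => (mem_erase.1 (hI.1 h)).1 rfl
  have h4 : j ∉ I' := fun h => (mem_erase.1 (hI'.1 h)).1 rfl
  rw [← erase_insert h3, ← erase_insert h4]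
  exact congrArg (fun K => K.erase j) h

theorem choose_rel (N k : ℕ) (hk : 1 ≤ k) (hkN : k ≤ N) :
    k * N.choose k = N * (N - 1).choose (k - 1) := by
  obtain ⟨a, rfl⟩ : ∃ a, N = a + 1 := ⟨N - 1, by omega⟩
  obtain ⟨b, rfl⟩ : ∃ b, k = b + 1 := ⟨k - 1, by omega⟩
  simp only [Nat.add_sub_cancel]
  have := Nat.add_one_mul_choose_eq a b
  rw [this, mul_comm]

variable (hΦ : Measurable Φ)

theorem Eo_int (f : Y → ℂ) (hf : Measurable f) (hf1 : ∀ y, ‖f y‖ ≤ 1)
    (hΦ : Measurable Φ) (x : EuclideanSpace ℝ (Fin d)) :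
    Integrable (fun y => f y * ker Φ x y) μ := by
  refine Integrable.mono' (integrable_const (1 : ℝ)) ?_ (Filter.Eventually.of_forall fun y => ?_)
  · exact (hf.mul ((ker_meas Φ hΦ).comp (measurable_const.prodMk measurable_id))).aestronglyMeasurable
  · rw [norm_mul]
    exact mul_le_one₀ (hf1 y) (norm_nonneg _) (ker_norm Φ x y)

include hΦ in
/-- **The average over the sets of cells is at least the proportion of the full norm.** -/
theorem avg_low (J : Finset α) (k : ℕ) (hk : 1 ≤ k) (hkJ : k ≤ J.card) (θ : α → Set Y)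
    (hθ : ∀ i ∈ J, MeasurableSet (θ i)) (hd : (J : Set α).PairwiseDisjoint θ)
    (hcov : ∀ᵐ y ∂μ, y ∈ un θ J) (p R : ℝ) (hp : 2 ≤ p) :
    (k : ℝ≥0∞) * ((J.card.choose k : ℕ) : ℝ≥0∞) * opN μ Φ Set.univ p R ≤
      (J.card : ℝ≥0∞) * ∑ I ∈ powersetCard k J, opN μ Φ (un θ I) p R := by
  set c : ℕ := (J.card - 1).choose (k - 1) with hc
  have e : (k : ℝ≥0∞) * ((J.card.choose k : ℕ) : ℝ≥0∞) = (J.card : ℝ≥0∞) * (c : ℝ≥0∞) := by
    exact_mod_cast congrArg (fun n : ℕ => (n : ℝ≥0∞)) (choose_rel J.card k hk hkJ)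
  rw [e, mul_assoc]
  refine mul_le_mul' le_rfl ?_
  unfold opN
  rw [ENNReal.mul_iSup]
  refine iSup_le fun f => ?_
  rw [ENNReal.mul_iSup]
  refine iSup_le fun hf => ?_
  set ν := (volume : Measure (EuclideanSpace ℝ (Fin d))).restrict (Metric.ball 0 R) with hν
  have hUm : ∀ I ∈ powersetCard k J, MeasurableSet (un θ I) := by
    intro I hI
    unfold un
    exact Finset.measurableSet_biUnion _ fun i hi => hθ i ((mem_powersetCard.1 hI).1 hi)
  have hadm : ∀ I ∈ powersetCard k J, Adm (un θ I) ((un θ I).indicator f) := by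
    intro I hI
    refine ⟨hf.1.indicator (hUm I hI), fun y => ?_, fun y hy => Set.indicator_of_notMem hy _⟩
    by_cases hy : y ∈ un θ I
    · rw [Set.indicator_of_mem hy]; exact hf.2.1 y
    · rw [Set.indicator_of_notMem hy]; simp
  have hsum : ∀ x, ∑ I ∈ powersetCard k J, Eo μ (ker Φ) ((un θ I).indicator f) x =
      (c : ℂ) * Eo μ (ker Φ) f x := by
    intro x
    unfold Eo
    rw [← integral_finsetSum _ fun I hI => Eo_int μ Φ _ (hadm I hI).1 (hadm I hI).2.1 hΦ x,
      ← integral_const_mul]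
    refine integral_congr_ae ?_
    filter_upwards [hcov] with y hy
    rw [← Finset.sum_mul, ← mul_assoc]
    congr 1
    unfold un at hy
    rw [Set.mem_iUnion₂] at hy
    obtain ⟨j, hj, hyj⟩ := hy
    have h1 : ∀ I ∈ powersetCard k J, (un θ I).indicator f y = if j ∈ I then f y else 0 := by
      intro I hI
      by_cases hjI : j ∈ I
      · rw [if_pos hjI, Set.indicator_of_mem]
        exact Set.mem_iUnion₂.2 ⟨j, hjI, hyj⟩
      · rw [if_neg hjI, Set.indicator_of_notMem]
        intro h2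
        unfold un at h2
        rw [Set.mem_iUnion₂] at h2
        obtain ⟨i, hi, hyi⟩ := h2
        have hij : i ≠ j := fun h => hjI (h ▸ hi)
        have := hd ((mem_powersetCard.1 hI).1 hi) hj hij
        exact Set.disjoint_left.1 this hyi hyj
    rw [Finset.sum_congr rfl h1, ← Finset.sum_filter, Finset.sum_const, card_mem J k hk j hj,
      nsmul_eq_mul]
  have h3 : (c : ℝ≥0∞) * eLpNorm (Eo μ (ker Φ) f) (ENNReal.ofReal p) ν =
      eLpNorm (∑ I ∈ powersetCard k J, Eo μ (ker Φ) ((un θ I).indicator f))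
        (ENNReal.ofReal p) ν := by
    have h4 : ∑ I ∈ powersetCard k J, Eo μ (ker Φ) ((un θ I).indicator f) =
        (c : ℂ) • Eo μ (ker Φ) f := by
      ext x
      rw [Finset.sum_apply, hsum x]
      rfl
    rw [h4, eLpNorm_const_smul]
    congr 1
    rw [← ofReal_norm, Complex.norm_natCast, ENNReal.ofReal_natCast]
  rw [h3]
  have h1 : (1 : ℝ≥0∞) ≤ ENNReal.ofReal p := by
    rw [← ENNReal.ofReal_one]
    exact ENNReal.ofReal_le_ofReal (by linarith)
  refine (eLpNorm_sum_le (fun I hI => (Eo_meas μ (ker Φ) (ker_meas Φ hΦ) _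
    (hadm I hI).1).aestronglyMeasurable) h1).trans ?_
  exact Finset.sum_le_sum fun I hI => le_opN μ Φ (un θ I) p R _ (hadm I hI)

include hΦ in
/-- signs -/
theorem sign_low (I : Finset α) (θ : α → Set Y) (hθ : ∀ i ∈ I, MeasurableSet (θ i))
    (hd : (I : Set α).PairwiseDisjoint θ) (ν : Measure (EuclideanSpace ℝ (Fin d)))
    [IsFiniteMeasure ν] :
    ∃ f, Adm (un θ I) f ∧
      ∑ i ∈ I, ∫ x, ‖Eo μ (ker Φ) ((θ i).indicator fun _ => 1) x‖ ^ 2 ∂ν ≤
        ∫ x, ‖Eo μ (ker Φ) f x‖ ^ 2 ∂ν := by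
  have hsq : ∀ f : Y → ℂ, Measurable f → (∀ y, ‖f y‖ ≤ 1) →
      Integrable (fun x => ‖Eo μ (ker Φ) f x‖ ^ 2) ν := by
    intro f hf hf1
    have hb : ∀ x, ‖Eo μ (ker Φ) f x‖ ≤ μ.real Set.univ :=
      Eo_bound μ (ker Φ) (ker_norm Φ) Set.univ MeasurableSet.univ f hf1
        (fun y hy => absurd (Set.mem_univ y) hy)
    refine Integrable.mono' (integrable_const (μ.real Set.univ ^ 2 : ℝ))
      ((Eo_meas μ (ker Φ) (ker_meas Φ hΦ) f hf).norm.pow_const 2).aestronglyMeasurable
      (Filter.Eventually.of_forall fun x => ?_)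
    rw [Real.norm_of_nonneg (by positivity)]
    exact pow_le_pow_left₀ (norm_nonneg _) (hb x) 2
  induction I using Finset.induction_on with
  | empty =>
    refine ⟨fun _ => 0, ⟨measurable_const, by simp, fun _ _ => rfl⟩, ?_⟩
    simp only [sum_empty]
    exact integral_nonneg fun x => by positivity
  | insert i I hi ih =>
    obtain ⟨f, hf, hfI⟩ := ih (fun j hj => hθ j (mem_insert_of_mem hj))
      (hd.subset (by exact_mod_cast subset_insert i I))
    set g : Y → ℂ := (θ i).indicator fun _ => 1 with hg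
    have hθi : MeasurableSet (θ i) := hθ i (mem_insert_self _ _)
    have hgm : Measurable g := measurable_const.indicator hθi
    have hg1 : ∀ y, ‖g y‖ ≤ 1 := by
      intro y
      by_cases hy : y ∈ θ i
      · rw [hg, Set.indicator_of_mem hy]; simp
      · rw [hg, Set.indicator_of_notMem hy]; simp
    have hdisj : ∀ y, y ∈ θ i → f y = 0 := by
      intro y hy
      refine hf.2.2 y fun h => ?_
      unfold un at h
      rw [Set.mem_iUnion₂] at h
      obtain ⟨j, hj, hyj⟩ := h
      have hij : i ≠ j := fun h => hi (h ▸ hj)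
      have := hd (by simp) (by simp [hj]) hij
      exact Set.disjoint_left.1 this hy hyj
    have hun : ∀ y, y ∉ un θ (insert i I) → y ∉ θ i ∧ y ∉ un θ I := by
      intro y hy
      constructor
      · intro h
        exact hy (Set.mem_iUnion₂.2 ⟨i, mem_insert_self _ _, h⟩)
      · intro h
        unfold un at h
        rw [Set.mem_iUnion₂] at h
        obtain ⟨j, hj, hyj⟩ := h
        exact hy (Set.mem_iUnion₂.2 ⟨j, mem_insert_of_mem hj, hyj⟩)
    have hadm : ∀ s : ℂ, ‖s‖ ≤ 1 → Adm (un θ (insert i I)) (fun y => f y + s * g y) := by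
      intro s hs
      refine ⟨hf.1.add (hgm.const_mul s), fun y => ?_, fun y hy => ?_⟩
      · show ‖f y + s * g y‖ ≤ 1
        by_cases hy : y ∈ θ i
        · rw [hdisj y hy, zero_add, norm_mul]
          exact mul_le_one₀ hs (norm_nonneg _) (hg1 y)
        · rw [hg, Set.indicator_of_notMem hy, mul_zero, add_zero]
          exact hf.2.1 y
      · show f y + s * g y = 0
        rw [hf.2.2 y (hun y hy).2, hg, Set.indicator_of_notMem (hun y hy).1, mul_zero, add_zero]
    have hEo : ∀ (s : ℂ) x, Eo μ (ker Φ) (fun y => f y + s * g y) x =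
        Eo μ (ker Φ) f x + s * Eo μ (ker Φ) g x := by
      intro s x
      unfold Eo
      rw [← integral_const_mul, ← integral_add (Eo_int μ Φ f hf.1 hf.2.1 hΦ x)
        ((Eo_int μ Φ g hgm hg1 hΦ x).const_mul s)]
      refine integral_congr_ae (Filter.Eventually.of_forall fun y => ?_)
      simp only
      ring
    have hplus := hsq _ (hadm 1 (by simp)).1 (hadm 1 (by simp)).2.1
    have hminus := hsq _ (hadm (-1) (by simp)).1 (hadm (-1) (by simp)).2.1
    have hpar : ∫ x, ‖Eo μ (ker Φ) (fun y => f y + 1 * g y) x‖ ^ 2 ∂ν +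
        ∫ x, ‖Eo μ (ker Φ) (fun y => f y + (-1) * g y) x‖ ^ 2 ∂ν =
        2 * (∫ x, ‖Eo μ (ker Φ) f x‖ ^ 2 ∂ν + ∫ x, ‖Eo μ (ker Φ) g x‖ ^ 2 ∂ν) := by
      rw [← integral_add hplus hminus, ← integral_add (hsq f hf.1 hf.2.1) (hsq g hgm hg1),
        ← integral_const_mul]
      refine integral_congr_ae (Filter.Eventually.of_forall fun x => ?_)
      simp only
      rw [hEo, hEo, one_mul, neg_one_mul, ← sub_eq_add_neg]
      have := parallelogram_law_with_norm ℝ (Eo μ (ker Φ) f x) (Eo μ (ker Φ) g x)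
      nlinarith
    rw [sum_insert hi]
    by_cases hcase : ∫ x, ‖Eo μ (ker Φ) f x‖ ^ 2 ∂ν + ∫ x, ‖Eo μ (ker Φ) g x‖ ^ 2 ∂ν ≤
        ∫ x, ‖Eo μ (ker Φ) (fun y => f y + 1 * g y) x‖ ^ 2 ∂ν
    · exact ⟨_, hadm 1 (by simp), by linarith⟩
    · refine ⟨_, hadm (-1) (by simp), ?_⟩
      rw [not_le] at hcase
      linarith

end Pool.Agent.N248.RC
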