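import Pool.Agent.N248.RC.Mid
import Pool.Agent.N248.RC.Low2
import Pool.Agent.N248.RR.N3

set_option autoImplicit false
set_option linter.unusedSectionVars false

/-!
# The paraboloid and its caps
-/

namespace Pool.Agent.N248.RC

open MeasureTheory Set
open Pool.Agent.N248.RR (ex ex_norm cub cub_meas cub_vol cub_norm sPhi sPhi_meas cub_fin
  para_energy kernel_time sPhi_bound sPhi_lip CEnergy)
open Pool.Agent.R412.RT (Phi inner_eq)
open scoped RealInnerProductSpace ENNReal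

section congr

variable {d : ℕ} {Y : Type*} [MeasurableSpace Y] (μ : Measure Y) [IsFiniteMeasure μ]
  (Φ Ψ : Y → EuclideanSpace ℝ (Fin d))

theorem Eo_congr (h : Φ =ᵐ[μ] Ψ) (f : Y → ℂ) : Eo μ (ker Φ) f = Eo μ (ker Ψ) f := by
  ext x
  unfold Eo ker
  refine integral_congr_ae ?_
  filter_upwards [h] with y hy
  rw [hy]

theorem Lt_congr (h : Φ =ᵐ[μ] Ψ) (R B : ℝ) (hL : Lt μ Φ R B) : Lt μ Ψ R B := by
  intro f hf hf1
  rw [← Eo_congr μ Φ Ψ h f]
  exact hL f hf hf1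

theorem Wk_congr (h : Φ =ᵐ[μ] Ψ) (ν : Measure (EuclideanSpace ℝ (Fin d))) (p K : ℝ)
    (hL : Wk μ ν (ker Φ) p K) : Wk μ ν (ker Ψ) p K := by
  intro f hf hf1
  rw [← Eo_congr μ Φ Ψ h f]
  exact hL f hf hf1

end congr

variable {n : ℕ}

/-- the paraboloid -/
noncomputable def Pa (n : ℕ) : EuclideanSpace ℝ (Fin n) → EuclideanSpace ℝ (Fin (n + 1)) :=
  (cub n).indicator (sPhi (2 * Real.pi))

/-- Lebesgue measure on the cube -/
noncomputable def mc (n : ℕ) : Measure (EuclideanSpace ℝ (Fin n)) := volume.restrict (cub n)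

instance mc_fin (n : ℕ) : IsFiniteMeasure (mc n) := cub_fin n

theorem Pa_meas : Measurable (Pa n) := (sPhi_meas _).indicator (cub_meas n)

theorem Pa_ae : sPhi (n := n) (2 * Real.pi) =ᵐ[mc n] Pa n := by
  unfold mc
  filter_upwards [ae_restrict_mem (cub_meas n)] with ξ hξ
  unfold Pa
  rw [indicator_of_mem hξ]

theorem Pa_bound (ξ : EuclideanSpace ℝ (Fin n)) : ‖Pa n ξ‖ ≤ 2 * Real.pi * (2 * (n + 1) ^ 2) := by
  unfold Pa
  by_cases hξ : ξ ∈ cub n
  · rw [indicator_of_mem hξ]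
    have h0 : (0 : EuclideanSpace ℝ (Fin n)) ∈ cub n := by intro j; simp
    have h1 := sPhi_lip (2 * Real.pi) ξ 0 hξ h0 1 (by norm_num) (fun i => by
      simpa using hξ i)
    have h2 : sPhi (2 * Real.pi) (0 : EuclideanSpace ℝ (Fin n)) = 0 := by
      unfold sPhi
      have : Phi (0 : EuclideanSpace ℝ (Fin n)) = 0 := by
        ext i
        refine Fin.lastCases ?_ (fun j => ?_) i
        · simp [Phi]
        · simp [Phi]
      rw [this, smul_zero]
    rw [h2, sub_zero, abs_of_pos (by positivity), mul_one] at h1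
    exact h1
  · rw [indicator_of_notMem hξ, norm_zero]
    positivity

theorem Pa_Lt : ∃ B0 : ℝ, 0 ≤ B0 ∧ ∀ R : ℝ, 1 ≤ R → Lt (mc n) (Pa n) R B0 := by
  refine ⟨2 * (|(2 * Real.pi / (2 * Real.pi))| ^ n)⁻¹, by positivity, fun R hR => ?_⟩
  refine Lt_congr (mc n) _ _ Pa_ae R _ ?_
  exact lt_of_energy (mc n) (sPhi (2 * Real.pi)) (sPhi_meas _) (Fin.last n) _ (by positivity)
    (para_energy (2 * Real.pi) (by positivity)) R hR

theorem Pa_Wk (hn : 1 ≤ n) : ∃ K : ℝ, 0 ≤ K ∧ ∀ R : ℝ, 1 ≤ R →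
    Wk (mc n) (volume.restrict (Metric.ball 0 R)) (ker (Pa n)) (2 * ((n : ℝ) + 1) / n)
      (K * R ^ ((n : ℝ) / (4 * (n + 1)))) := by
  obtain ⟨ρ0, hρ0, hρ⟩ := sPhi_bound (n := n) (2 * Real.pi)
  have hn0 : (0 : ℝ) < n := by exact_mod_cast hn
  set s : ℝ := 2 * Real.pi with hs
  have hs0 : 0 < s := by positivity
  set L₀ : ℝ := (|(s / (2 * Real.pi))| ^ n)⁻¹ + (5 * |s| ^ (-(1 / 2) : ℝ)) ^ n with hL₀
  have e1 : 0 ≤ (|(s / (2 * Real.pi))| ^ n)⁻¹ := by positivity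
  have e2 : 0 ≤ (5 * |s| ^ (-(1 / 2) : ℝ)) ^ n := by positivity
  obtain ⟨K, hK0, hK⟩ := wk_source (mc n) (sPhi s) (sPhi_meas s) (Fin.last n) L₀ ((n : ℝ) / 2)
    (by linarith) (by positivity) (by
      intro f B hB α τ hτ hBα
      refine (para_energy s hs0.ne' f B hB α τ hτ hBα).trans ?_
      refine mul_le_mul' (ENNReal.ofReal_le_ofReal ?_) le_rfl
      exact mul_le_mul_of_nonneg_right (by linarith) (by linarith))
    ρ0 hρ0 hρ (by
      intro x hx
      refine (kernel_time s hs0.ne' x hx).trans ?_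
      exact mul_le_mul_of_nonneg_right (by linarith) (by positivity))
  refine ⟨K, hK0, fun R hR => ?_⟩
  have h := Wk_congr (mc n) _ _ Pa_ae _ _ _ (hK R hR)
  have f1 : 2 + 1 / ((n : ℝ) / 2) = 2 * ((n : ℝ) + 1) / n := by field_simp
  have f2 : 1 / (4 + 2 / ((n : ℝ) / 2)) = (n : ℝ) / (4 * (n + 1)) := by
    field_simp
    ring
  rw [f1, f2] at h
  exact h

/-- the cubes of side `1/R` in `[-1,1)^n` -/
def cell (R : ℕ) (j : Fin n → Fin (2 * R)) : Set (EuclideanSpace ℝ (Fin n)) :=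
  {ξ | ∀ i, ((j i : ℕ) : ℝ) ≤ R * (ξ i + 1) ∧ R * (ξ i + 1) < (j i : ℕ) + 1}

theorem cell_meas (R : ℕ) (j : Fin n → Fin (2 * R)) : MeasurableSet (cell R j) := by
  have : cell R j = ⋂ i, {ξ : EuclideanSpace ℝ (Fin n) |
      ((j i : ℕ) : ℝ) ≤ R * (ξ i + 1) ∧ R * (ξ i + 1) < (j i : ℕ) + 1} := by
    ext ξ; simp [cell]
  rw [this]
  refine MeasurableSet.iInter fun i => ?_
  have hm : Measurable fun ξ : EuclideanSpace ℝ (Fin n) => R * (ξ i + 1) := by fun_prop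
  exact (measurableSet_le measurable_const hm).inter (measurableSet_lt hm measurable_const)

theorem cell_vol (R : ℕ) (hR : 1 ≤ R) (j : Fin n → Fin (2 * R)) :
    volume (cell R j) = ENNReal.ofReal ((R : ℝ)⁻¹ ^ n) := by
  have hR0 : (0 : ℝ) < R := by exact_mod_cast hR
  have h := (PiLp.volume_preserving_ofLp (Fin n)).measure_preimage
    (s := Set.univ.pi fun i => Ico ((j i : ℕ) / (R : ℝ) - 1) (((j i : ℕ) + 1) / (R : ℝ) - 1))
    (MeasurableSet.univ_pi fun i => measurableSet_Ico).nullMeasurableSet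
  have h2 : WithLp.ofLp ⁻¹' (Set.univ.pi fun i => Ico ((j i : ℕ) / (R : ℝ) - 1)
      (((j i : ℕ) + 1) / (R : ℝ) - 1)) = cell R j := by
    ext x
    simp only [cell, mem_preimage, Set.mem_pi, mem_univ, true_implies, mem_Ico, mem_ofPred_eq]
    refine forall_congr' fun i => ?_
    rw [sub_le_iff_le_add, div_le_iff₀ hR0, lt_sub_iff_add_lt, lt_div_iff₀ hR0, mul_comm (R : ℝ)]
  rw [h2] at h
  rw [h, volume_pi_pi]
  simp only [Real.volume_Ico]
  have : ∀ i : Fin n, ENNReal.ofReal (((j i : ℕ) + 1) / (R : ℝ) - 1 - ((j i : ℕ) / (R : ℝ) - 1)) =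
      ENNReal.ofReal ((R : ℝ)⁻¹) := by
    intro i
    congr 1
    field_simp
    ring
  simp_rw [this]
  rw [Finset.prod_const, Finset.card_univ, Fintype.card_fin, ENNReal.ofReal_pow (by positivity)]

theorem cell_sub (R : ℕ) (hR : 1 ≤ R) (j : Fin n → Fin (2 * R)) : cell R j ⊆ cub n := by
  have hR0 : (0 : ℝ) < R := by exact_mod_cast hR
  intro ξ hξ i
  obtain ⟨h1, h2⟩ := hξ i
  have h3 : (0 : ℝ) ≤ (j i : ℕ) := Nat.cast_nonneg _
  have h4 : ((j i : ℕ) : ℝ) + 1 ≤ 2 * R := by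
    have := (j i).2
    exact_mod_cast this
  rw [abs_le]
  constructor
  · by_contra h
    rw [not_le] at h
    have : R * (ξ i + 1) < 0 := mul_neg_of_pos_of_neg hR0 (by linarith)
    linarith
  · by_contra h
    rw [not_le] at h
    have : (R : ℝ) * 2 < R * (ξ i + 1) := mul_lt_mul_of_pos_left (by linarith) hR0
    linarith

theorem cell_disj (R : ℕ) (j k : Fin n → Fin (2 * R)) (hjk : j ≠ k) :
    Disjoint (cell R j) (cell R k) := by
  rw [Set.disjoint_left]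
  intro ξ hj hk
  apply hjk
  ext i
  obtain ⟨h1, h2⟩ := hj i
  obtain ⟨h3, h4⟩ := hk i
  have h5 : ((j i : ℕ) : ℝ) < (k i : ℕ) + 1 := by linarith
  have h6 : ((k i : ℕ) : ℝ) < (j i : ℕ) + 1 := by linarith
  have h7 : (j i : ℕ) < (k i : ℕ) + 1 := by exact_mod_cast h5
  have h8 : (k i : ℕ) < (j i : ℕ) + 1 := by exact_mod_cast h6
  omega

theorem cell_mc (R : ℕ) (hR : 1 ≤ R) (j : Fin n → Fin (2 * R)) :
    (mc n).real (cell R j) = (R : ℝ) ^ (-(n : ℝ)) := by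
  have hR0 : (0 : ℝ) < R := by exact_mod_cast hR
  unfold mc
  rw [measureReal_restrict_apply (cell_meas R j), inter_eq_left.2 (cell_sub R hR j), Measure.real,
    cell_vol R hR j, ENNReal.toReal_ofReal (by positivity), Real.rpow_neg hR0.le,
    Real.rpow_natCast, inv_pow]

theorem cell_diam (R : ℕ) (hR : 1 ≤ R) (j : Fin n → Fin (2 * R)) (ξ η : EuclideanSpace ℝ (Fin n))
    (hξ : ξ ∈ cell R j) (hη : η ∈ cell R j) :
    ‖Pa n ξ - Pa n η‖ ≤ (2 * Real.pi * (2 * (n + 1) ^ 2)) / R := by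
  have hR0 : (0 : ℝ) < R := by exact_mod_cast hR
  have hξ' := cell_sub R hR j hξ
  have hη' := cell_sub R hR j hη
  unfold Pa
  rw [indicator_of_mem hξ', indicator_of_mem hη']
  have h := sPhi_lip (2 * Real.pi) ξ η hξ' hη' (1 / R) (by positivity) (fun i => by
    obtain ⟨h1, h2⟩ := hξ i
    obtain ⟨h3, h4⟩ := hη i
    rw [abs_le, neg_le, le_div_iff₀ hR0, le_div_iff₀ hR0]
    constructor <;> nlinarith)
  rw [abs_of_pos (by positivity), mul_one_div] at h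
  exact h

theorem cell_cover (R : ℕ) (hR : 1 ≤ R) :
    ∀ᵐ ξ ∂(mc n), ξ ∈ un (cell (n := n) R) Finset.univ := by
  have hR0 : (0 : ℝ) < R := by exact_mod_cast hR
  have hne : ∀ i : Fin n, ∀ᵐ ξ : EuclideanSpace ℝ (Fin n), ξ i ≠ 1 := by
    intro i
    have h0 : ∀ᵐ y : Fin n → ℝ, y i ≠ 1 := Measure.ae_eval_ne (μ := fun _ => volume) i 1
    exact (PiLp.volume_preserving_ofLp (Fin n)).quasiMeasurePreserving.ae h0
  have hall : ∀ᵐ ξ : EuclideanSpace ℝ (Fin n), ∀ i, ξ i ≠ 1 := ae_all_iff.2 hne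
  unfold mc
  filter_upwards [ae_restrict_mem (cub_meas n), ae_restrict_of_ae hall] with ξ hξ h1
  have h2 : ∀ i, 0 ≤ (R : ℝ) * (ξ i + 1) ∧ (R : ℝ) * (ξ i + 1) < 2 * R := by
    intro i
    have h3 := abs_le.1 (hξ i)
    have h4 : ξ i < 1 := lt_of_le_of_ne h3.2 (h1 i)
    constructor
    · exact mul_nonneg hR0.le (by linarith)
    · nlinarith
  refine Set.mem_iUnion₂.2 ⟨fun i => ⟨⌊(R : ℝ) * (ξ i + 1)⌋₊, ?_⟩, Finset.mem_univ _, fun i => ?_⟩
  · rw [Nat.floor_lt (h2 i).1]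
    push_cast
    exact (h2 i).2
  · exact ⟨Nat.floor_le (h2 i).1, Nat.lt_floor_add_one _⟩

end Pool.Agent.N248.RC
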