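import Pool.Agent.N248.RC.Gen

set_option autoImplicit false
set_option linter.unusedSectionVars false

/-!
# Sources: local energy, and the weak type bound from energy and decay
-/

namespace Pool.Agent.N248.RC

open Finset MeasureTheory
open Pool.Agent.N248.RR (ex ex_norm ps ps_inner ps_meas CEnergy hit uq uq_meas uq_vol)
open scoped RealInnerProductSpace ENNReal

variable {d : ℕ} {Y : Type*} [MeasurableSpace Y] (μ : Measure Y) [IsFiniteMeasure μ]
  (Φ : Y → EuclideanSpace ℝ (Fin d)) (hΦ : Measurable Φ)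

theorem Eo_ps (f : Y → ℂ) (hf : Measurable f) (hf1 : ∀ y, ‖f y‖ ≤ 1) :
    ∃ F : Lp ℂ 2 μ, (∀ x, inner ℂ (ps μ Φ hΦ x) F = Eo μ (ker Φ) f x) ∧
      ‖F‖ ^ 2 = ∫ y, ‖f y‖ ^ 2 ∂μ := by
  have hm : MemLp f 2 μ := MemLp.of_bound hf.aestronglyMeasurable 1
    (Filter.Eventually.of_forall hf1)
  refine ⟨hm.toLp f, fun x => ?_, ?_⟩
  · rw [ps_inner]
    unfold Eo ker
    refine integral_congr_ae ?_
    filter_upwards [hm.coeFn_toLp] with y hy
    rw [hy, mul_comm]
  · have h : ((‖hm.toLp f‖ ^ 2 : ℝ) : ℂ) = inner ℂ (hm.toLp f) (hm.toLp f) := by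
      rw [inner_self_eq_norm_sq_to_K]
      push_cast
      rfl
    rw [L2.inner_def] at h
    have h2 : ∫ a, inner ℂ ((hm.toLp f) a) ((hm.toLp f) a) ∂μ =
        ((∫ y, ‖f y‖ ^ 2 ∂μ : ℝ) : ℂ) := by
      rw [← integral_complex_ofReal]
      refine integral_congr_ae ?_
      filter_upwards [hm.coeFn_toLp] with y hy
      rw [hy, inner_self_eq_norm_sq_to_K]
      push_cast
      rfl
    rw [h2] at h
    exact_mod_cast h

include hΦ in
theorem lt_of_energy (t : Fin d) (L₀ : ℝ) (hL₀ : 0 ≤ L₀)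
    (hC : CEnergy μ Φ hΦ (fun _ : Fin 1 => t) L₀) (R : ℝ) (hR : 1 ≤ R) :
    Lt μ Φ R (2 * L₀) := by
  intro f hf hf1
  obtain ⟨F, hF1, hF2⟩ := Eo_ps μ Φ hΦ f hf hf1
  have h1 := hC F (Metric.ball 0 R) measurableSet_ball (fun _ => -R) (2 * R) (by linarith) (by
    intro x hx _
    have h2 : ‖x t‖ ≤ ‖x‖ := PiLp.norm_apply_le x t
    rw [Real.norm_eq_abs] at h2
    rw [mem_ball_zero_iff] at hx
    have h3 := abs_le.1 (h2.trans hx.le)
    constructor <;> linarith [h3.1, h3.2])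
  simp_rw [hF1] at h1
  rw [hF2] at h1
  have hm := Eo_meas μ (ker Φ) (ker_meas Φ hΦ) f hf
  rw [integral_eq_lintegral_of_nonneg_ae (Filter.Eventually.of_forall fun x => by positivity)
    (hm.norm.pow_const 2).aestronglyMeasurable]
  have h4 : ∫⁻ x in Metric.ball 0 R, ENNReal.ofReal (‖Eo μ (ker Φ) f x‖ ^ 2) =
      ∫⁻ x in Metric.ball 0 R, ‖Eo μ (ker Φ) f x‖ₑ ^ 2 := by
    refine lintegral_congr fun x => ?_
    rw [ENNReal.ofReal_pow (norm_nonneg _), ofReal_norm]
  rw [h4]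
  have hI0 : 0 ≤ ∫ y, ‖f y‖ ^ 2 ∂μ := integral_nonneg fun y => by positivity
  refine (ENNReal.toReal_mono (by simp [ENNReal.mul_eq_top]) h1).trans ?_
  rw [ENNReal.toReal_mul, ENNReal.toReal_ofReal (by positivity), ENNReal.toReal_ofReal hI0]
  exact le_of_eq (by ring)

/-- the cubes which meet the ball -/
noncomputable def bxR (d : ℕ) (R : ℝ) : Finset (Fin d → ℤ) :=
  Fintype.piFinset fun _ => Finset.Icc (⌊-R⌋) (⌊R⌋)

theorem bxR_mem (R : ℝ) (x : EuclideanSpace ℝ (Fin d)) (hx : x ∈ Metric.ball 0 R) :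
    (fun i => ⌊x i⌋) ∈ bxR d R ∧ x ∈ uq (fun i => ⌊x i⌋) := by
  constructor
  · unfold bxR
    rw [Fintype.mem_piFinset]
    intro i
    have h2 : ‖x i‖ ≤ ‖x‖ := PiLp.norm_apply_le x i
    rw [Real.norm_eq_abs] at h2
    rw [mem_ball_zero_iff] at hx
    have h3 := abs_le.1 (h2.trans hx.le)
    rw [Finset.mem_Icc]
    exact ⟨Int.floor_le_floor h3.1, Int.floor_le_floor h3.2⟩
  · intro i
    exact ⟨Int.floor_le _, Int.lt_floor_add_one _⟩

include hΦ in
theorem weak_of_count (L p V : ℝ) (hL : 0 ≤ L) (hV : 1 ≤ V)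
    (hμV : μ.real Set.univ ≤ V)
    (hcount : ∀ F : Lp ℂ 2 μ, ‖F‖ ≤ 1 → ∀ lam : ℝ, 0 < lam → lam ≤ 1 →
      ∀ J : Finset (Fin d → ℤ), (∀ j ∈ J, hit (ps μ Φ hΦ) lam F j) → (J.card : ℝ) ≤ L * lam ^ (-p))
    (R : ℝ) (f : Y → ℂ) (hf : Measurable f) (hf1 : ∀ y, ‖f y‖ ≤ 1) (l : ℝ) (hl : 0 < l) :
    (volume.restrict (Metric.ball 0 R)).real {x | l < ‖Eo μ (ker Φ) f x‖} ≤
      (L * V ^ p) * l ^ (-p) := by
  classical
  have hV0 : 0 < V := by linarith
  obtain ⟨F, hF1, hF2⟩ := Eo_ps μ Φ hΦ f hf hf1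
  have hm := Eo_meas μ (ker Φ) (ker_meas Φ hΦ) f hf
  have hFb : ∀ x, ‖Eo μ (ker Φ) f x‖ ≤ V := fun x =>
    (Eo_bound μ (ker Φ) (ker_norm Φ) Set.univ MeasurableSet.univ f hf1
      (fun y hy => absurd (Set.mem_univ y) hy) x).trans hμV
  rcases le_or_gt V l with h | h
  · have : {x | l < ‖Eo μ (ker Φ) f x‖} = ∅ := by
      ext x
      simp only [Set.mem_setOf_eq, Set.mem_empty_iff_false, iff_false, not_lt]
      exact (hFb x).trans h
    rw [this, measureReal_empty]
    positivity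
  · have hF3 : ‖F‖ ≤ V := by
      have h1 : ‖F‖ ^ 2 ≤ V := by
        rw [hF2]
        refine le_trans ?_ hμV
        refine (integral_mono_of_nonneg (Filter.Eventually.of_forall fun y => by positivity)
          (integrable_const (1 : ℝ)) (Filter.Eventually.of_forall fun y =>
            pow_le_one₀ (norm_nonneg _) (hf1 y))).trans ?_
        rw [integral_const, smul_eq_mul, mul_one]
      have h2 : ‖F‖ ^ 2 ≤ V ^ 2 := h1.trans (by nlinarith)
      exact (pow_le_pow_iff_left₀ (norm_nonneg _) hV0.le (by norm_num)).1 h2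
    set F' : Lp ℂ 2 μ := ((V⁻¹ : ℝ) : ℂ) • F with hF'
    have hF'1 : ‖F'‖ ≤ 1 := by
      rw [hF', norm_smul, Complex.norm_real, Real.norm_of_nonneg (by positivity)]
      rw [inv_mul_le_one₀ hV0]
      exact hF3
    set J : Finset (Fin d → ℤ) := (bxR d R).filter fun j => hit (ps μ Φ hΦ) (l / V) F' j with hJ
    have hc := hcount F' hF'1 (l / V) (by positivity) (by rw [div_le_one hV0]; exact h.le) J
      (fun j hj => (Finset.mem_filter.1 hj).2)
    have hsub : {x | l < ‖Eo μ (ker Φ) f x‖} ∩ Metric.ball 0 R ⊆ ⋃ j ∈ J, uq j := by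
      rintro x ⟨hx1, hx2⟩
      obtain ⟨h3, h4⟩ := bxR_mem R x hx2
      rw [Set.mem_iUnion₂]
      refine ⟨_, ?_, h4⟩
      rw [hJ, Finset.mem_filter]
      refine ⟨h3, x, h4, ?_⟩
      rw [hF', inner_smul_right, norm_mul, Complex.norm_real, Real.norm_of_nonneg (by positivity),
        hF1, div_eq_inv_mul]
      exact mul_le_mul_of_nonneg_left (le_of_lt hx1) (by positivity)
    have hset : MeasurableSet {x | l < ‖Eo μ (ker Φ) f x‖} :=
      measurableSet_lt measurable_const hm.norm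
    have h5 : (volume.restrict (Metric.ball 0 R)).real {x | l < ‖Eo μ (ker Φ) f x‖} ≤
        (J.card : ℝ) := by
      rw [measureReal_restrict_apply hset]
      have h6 : volume.real (⋃ j ∈ J, uq j) ≤ (J.card : ℝ) := by
        refine (measureReal_biUnion_finset_le J _).trans (le_of_eq ?_)
        rw [Finset.sum_congr rfl fun j _ => show volume.real (uq j) = 1 by
          rw [Measure.real, uq_vol]; simp]
        simp
      refine (measureReal_mono hsub ?_).trans h6
      refine ((measure_biUnion_finset_le J _).trans_lt ?_).ne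
      refine ENNReal.sum_lt_top.2 fun j _ => ?_
      rw [uq_vol]
      exact ENNReal.one_lt_top
    refine h5.trans (hc.trans (le_of_eq ?_))
    rw [Real.div_rpow hl.le hV0.le, Real.rpow_neg hV0.le, div_inv_eq_mul]
    ring

/-- from superlevel sets to averages over sets -/
theorem restricted {V : Type*} [MeasurableSpace V] (ν : Measure V) [IsFiniteMeasure ν]
    (F : V → ℂ) (hF : Measurable F) (p W b : ℝ) (hp : 2 ≤ p) (hW : 0 < W)
    (hFb : ∀ x, ‖F x‖ ≤ b)
    (hlev : ∀ l, 0 < l → ν.real {x | l < ‖F x‖} ≤ W ^ p * l ^ (-p))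
    (G : Set V) (hG : MeasurableSet G) :
    ∫ x in G, ‖F x‖ ∂ν ≤ 5 * W * ν.real G ^ (1 - 1 / p) := by
  have hp0 : 0 < p := by linarith
  have hset : ∀ c : ℝ, MeasurableSet {x | c < ‖F x‖} :=
    fun c => measurableSet_lt measurable_const hF.norm
  have hFi : Integrable (fun x => ‖F x‖) ν := Integrable.mono' (integrable_const b)
    hF.norm.aestronglyMeasurable (Filter.Eventually.of_forall fun x => by
      rw [norm_norm]; exact hFb x)
  set m : ℝ := ν.real G with hm
  rcases (measureReal_nonneg (μ := ν) (s := G)).eq_or_lt with h0 | hmpos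
  · have h1 : ν G = 0 := by
      have h2 : ν.real G = 0 := h0.symm
      rw [Measure.real, ENNReal.toReal_eq_zero_iff] at h2
      exact h2.resolve_right (measure_ne_top _ _)
    rw [setIntegral_measure_zero _ h1]
    positivity
  rw [← hm] at hmpos
  set l₀ : ℝ := W * m ^ (-(1 / p)) with hl₀
  have hl₀0 : 0 < l₀ := by positivity
  obtain ⟨J, hJ⟩ := pow_unbounded_of_one_lt (b / l₀) (show (1 : ℝ) < 2 by norm_num)
  have hdy : ∀ x, ‖F x‖ ≤ l₀ + ∑ j ∈ range J, 2 ^ (j + 1) * l₀ *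
      (if 2 ^ j * l₀ < ‖F x‖ then (1 : ℝ) else 0) := by
    intro x
    have hind : ∀ N : ℕ, ‖F x‖ ≤ 2 ^ N * l₀ → ‖F x‖ ≤ l₀ + ∑ j ∈ range N, 2 ^ (j + 1) * l₀ *
        (if 2 ^ j * l₀ < ‖F x‖ then (1 : ℝ) else 0) := by
      intro N
      induction N with
      | zero => intro h; simpa using h
      | succ N ih =>
        intro h
        have hS : 0 ≤ ∑ j ∈ range N, 2 ^ (j + 1) * l₀ *
            (if 2 ^ j * l₀ < ‖F x‖ then (1 : ℝ) else 0) :=
          Finset.sum_nonneg fun j _ => by split_ifs <;> positivity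
        rw [Finset.sum_range_succ]
        by_cases h2 : 2 ^ N * l₀ < ‖F x‖
        · rw [if_pos h2, mul_one]
          linarith
        · rw [if_neg h2, mul_zero, add_zero]
          exact ih (not_lt.1 h2)
    refine hind J ((hFb x).trans ?_)
    rw [div_lt_iff₀ hl₀0] at hJ
    exact hJ.le
  have hiint : ∀ (c : ℝ), Integrable (fun x => if c < ‖F x‖ then (1 : ℝ) else 0)
      (ν.restrict G) := by
    intro c
    refine Integrable.mono' (integrable_const (1 : ℝ))
      (Measurable.ite (hset c) measurable_const measurable_const).aestronglyMeasurable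
      (Filter.Eventually.of_forall fun y => ?_)
    split_ifs <;> simp
  have hindm : ∀ c : ℝ, 0 < c → ∫ x in G, (if c < ‖F x‖ then (1 : ℝ) else 0) ∂ν ≤
      W ^ p * c ^ (-p) := by
    intro c hc
    have e : (fun x => if c < ‖F x‖ then (1 : ℝ) else 0) = {x | c < ‖F x‖}.indicator 1 := by
      ext x
      simp [Set.indicator_apply]
    rw [e, integral_indicator_one (hset c), measureReal_restrict_apply (hset c)]
    refine le_trans (measureReal_mono Set.inter_subset_left) (hlev c hc)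
  have h1 : ∫ x in G, ‖F x‖ ∂ν ≤ ∫ x in G, (l₀ + ∑ j ∈ range J, 2 ^ (j + 1) * l₀ *
      (if 2 ^ j * l₀ < ‖F x‖ then (1 : ℝ) else 0)) ∂ν := by
    refine integral_mono_of_nonneg (Filter.Eventually.of_forall fun x => norm_nonneg _) ?_
      (Filter.Eventually.of_forall hdy)
    exact (integrable_const _).add (integrable_finsetSum _ fun j _ => (hiint _).const_mul _)
  rw [integral_add (integrable_const _) (integrable_finsetSum _ fun j _ => (hiint _).const_mul _),
    setIntegral_const, smul_eq_mul, ← hm, integral_finsetSum _ fun j _ => (hiint _).const_mul _]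
    at h1
  have h2 : ∀ j ∈ range J, ∫ x in G, 2 ^ (j + 1) * l₀ *
      (if 2 ^ j * l₀ < ‖F x‖ then (1 : ℝ) else 0) ∂ν ≤
      2 * (W ^ p * l₀ ^ (1 - p)) * (1 / 2) ^ j := by
    intro j _
    rw [integral_const_mul]
    have h3 := hindm (2 ^ j * l₀) (by positivity)
    refine (mul_le_mul_of_nonneg_left h3 (by positivity)).trans ?_
    have hj0 : (0 : ℝ) < 2 ^ j := by positivity
    have e1 : 2 ^ (j + 1) * l₀ * (W ^ p * (2 ^ j * l₀) ^ (-p)) =
        2 * (W ^ p * l₀ ^ (1 - p)) * ((2 : ℝ) ^ j) ^ (1 - p) := by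
      rw [Real.mul_rpow hj0.le hl₀0.le, sub_eq_add_neg, Real.rpow_add hj0, Real.rpow_add hl₀0,
        Real.rpow_one, Real.rpow_one, pow_succ]
      ring
    rw [e1]
    refine mul_le_mul_of_nonneg_left ?_ (by positivity)
    have h4 : ((2 : ℝ) ^ j) ^ (1 - p) ≤ ((2 : ℝ) ^ j) ^ (-1 : ℝ) :=
      Real.rpow_le_rpow_of_exponent_le (one_le_pow₀ (by norm_num)) (by linarith)
    refine h4.trans (le_of_eq ?_)
    rw [Real.rpow_neg_one, one_div, inv_pow]
  have h5 : ∑ j ∈ range J, 2 * (W ^ p * l₀ ^ (1 - p)) * (1 / 2 : ℝ) ^ j ≤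
      2 * (W ^ p * l₀ ^ (1 - p)) * 2 := by
    rw [← Finset.mul_sum]
    refine mul_le_mul_of_nonneg_left ?_ (by positivity)
    have h6 : ∑ j ∈ range J, (1 / 2 : ℝ) ^ j = 2 * (1 - (1 / 2) ^ J) := by
      rw [geom_sum_eq (by norm_num)]
      ring
    rw [h6]
    have : (0 : ℝ) < (1 / 2) ^ J := by positivity
    linarith
  have h7 : ∫ x in G, ‖F x‖ ∂ν ≤ m * l₀ + 4 * (W ^ p * l₀ ^ (1 - p)) := by
    refine h1.trans ?_
    have := (Finset.sum_le_sum h2).trans h5
    linarith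
  refine h7.trans (le_of_eq ?_)
  have e1 : m * l₀ = W * m ^ (1 - 1 / p) := by
    rw [hl₀, sub_eq_add_neg, Real.rpow_add hmpos, Real.rpow_one]
    ring
  have e2 : W ^ p * l₀ ^ (1 - p) = W * m ^ (1 - 1 / p) := by
    rw [hl₀, Real.mul_rpow hW.le (by positivity), ← Real.rpow_mul hmpos.le, ← mul_assoc,
      ← Real.rpow_add hW]
    have f1 : p + (1 - p) = 1 := by ring
    have f2 : -(1 / p) * (1 - p) = 1 - 1 / p := by field_simp; ring
    rw [f1, f2, Real.rpow_one]
  rw [e1, e2]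
  ring

end Pool.Agent.N248.RC
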