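import Pool.Agent.N248.RC.Lev

set_option autoImplicit false
set_option linter.unusedSectionVars false

/-!
# From superlevel sets to norms
-/

namespace Pool.Agent.N248.RC

open Finset MeasureTheory

theorem dy3 (p : ℝ) (hp : 2 ≤ p) (b : ℝ) (hb : 0 < b) (J : ℕ) (a : ℝ) (ha : 0 ≤ a)
    (haJ : a ≤ 2 ^ J * b) :
    a ^ p ≤ b ^ (p - 2) * a ^ 2 +
      ∑ j ∈ range J, (2 ^ (j + 1) * b) ^ p * (if 2 ^ j * b < a then 1 else 0) := by
  induction J with
  | zero =>
    simp only [pow_zero, one_mul, range_zero, sum_empty, add_zero] at haJ ⊢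
    rcases ha.eq_or_lt with h0 | h0
    · rw [← h0, Real.zero_rpow (by linarith)]
      positivity
    · have e : a ^ p = a ^ (p - 2) * a ^ 2 := by
        rw [← Real.rpow_natCast a 2, ← Real.rpow_add h0]
        norm_num
      rw [e]
      exact mul_le_mul_of_nonneg_right (Real.rpow_le_rpow ha haJ (by linarith)) (by positivity)
  | succ J ih =>
    have hS : 0 ≤ ∑ j ∈ range J, (2 ^ (j + 1) * b) ^ p * (if 2 ^ j * b < a then (1 : ℝ) else 0) :=
      sum_nonneg fun j _ => by split_ifs <;> positivity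
    rw [sum_range_succ]
    by_cases h : 2 ^ J * b < a
    · rw [if_pos h, mul_one]
      have h1 := Real.rpow_le_rpow ha haJ (show 0 ≤ p by linarith)
      have h2 : 0 ≤ b ^ (p - 2) * a ^ 2 := by positivity
      linarith
    · rw [if_neg h, mul_zero, add_zero]
      exact ih (not_lt.1 h)

theorem strong {V : Type*} [MeasurableSpace V] (ν : Measure V) [IsFiniteMeasure ν]
    (F : V → ℂ) (hF : Measurable F) (p A b Q : ℝ) (J : ℕ) (hp : 2 ≤ p) (hA : 0 ≤ A) (hb : 0 < b)
    (hFb : ∀ x, ‖F x‖ ≤ 2 ^ J * b) (hQ : ∫ x, ‖F x‖ ^ 2 ∂ν ≤ Q)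
    (hlev : ∀ l, b ≤ l → ν.real {x | l < ‖F x‖} ≤ (A / l) ^ p) :
    ∫ x, ‖F x‖ ^ p ∂ν ≤ b ^ (p - 2) * Q + J * (2 * A) ^ p := by
  have hset : ∀ c : ℝ, MeasurableSet {x | c < ‖F x‖} :=
    fun c => measurableSet_lt measurable_const hF.norm
  have hiint : ∀ (c : ℝ), Integrable (fun x => if c < ‖F x‖ then (1 : ℝ) else 0) ν := by
    intro c
    refine Integrable.mono' (integrable_const (1 : ℝ))
      (Measurable.ite (hset c) measurable_const measurable_const).aestronglyMeasurable
      (Filter.Eventually.of_forall fun y => ?_)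
    split_ifs <;> simp
  have hind : ∀ c : ℝ, ∫ x, (if c < ‖F x‖ then (1 : ℝ) else 0) ∂ν = ν.real {x | c < ‖F x‖} := by
    intro c
    have : (fun x => if c < ‖F x‖ then (1 : ℝ) else 0) = {x | c < ‖F x‖}.indicator 1 := by
      ext x
      simp [Set.indicator_apply]
    rw [this, integral_indicator_one (hset c)]
  have h2int : Integrable (fun x => ‖F x‖ ^ 2) ν := by
    refine Integrable.mono' (integrable_const ((2 ^ J * b) ^ 2 : ℝ))
      (hF.norm.pow_const 2).aestronglyMeasurable (Filter.Eventually.of_forall fun x => ?_)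
    rw [Real.norm_of_nonneg (by positivity)]
    exact pow_le_pow_left₀ (norm_nonneg _) (hFb x) 2
  have h1 : ∫ x, ‖F x‖ ^ p ∂ν ≤ ∫ x, (b ^ (p - 2) * ‖F x‖ ^ 2 +
      ∑ j ∈ range J, (2 ^ (j + 1) * b) ^ p * (if 2 ^ j * b < ‖F x‖ then 1 else 0)) ∂ν := by
    refine integral_mono_of_nonneg (Filter.Eventually.of_forall fun x => by positivity) ?_
      (Filter.Eventually.of_forall fun x => dy3 p hp b hb J _ (norm_nonneg _) (hFb x))
    exact (h2int.const_mul _).add (integrable_finsetSum _ fun j _ => (hiint _).const_mul _)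
  refine h1.trans ?_
  rw [integral_add (h2int.const_mul _) (integrable_finsetSum _ fun j _ => (hiint _).const_mul _),
    integral_const_mul, integral_finsetSum _ fun j _ => (hiint _).const_mul _]
  refine add_le_add (mul_le_mul_of_nonneg_left hQ (by positivity)) ?_
  have h2 : ∀ j ∈ range J, ∫ x, (2 ^ (j + 1) * b) ^ p *
      (if 2 ^ j * b < ‖F x‖ then (1 : ℝ) else 0) ∂ν ≤ (2 * A) ^ p := by
    intro j _
    rw [integral_const_mul, hind]
    have hj1 : (1 : ℝ) ≤ 2 ^ j := one_le_pow₀ (by norm_num)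
    have hjb : b ≤ 2 ^ j * b := by nlinarith
    refine (mul_le_mul_of_nonneg_left (hlev _ hjb) (by positivity)).trans (le_of_eq ?_)
    rw [← Real.mul_rpow (by positivity) (by positivity)]
    congr 1
    rw [pow_succ]
    field_simp
  refine (sum_le_sum h2).trans (le_of_eq ?_)
  rw [sum_const, card_range, nsmul_eq_mul]

end Pool.Agent.N248.RC
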